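import Pool.Agent.Lib.MP_39df77_nt.M12.Sum
import Pool.Agent.Lib.MP_39df77_nt.U6.A09

/-!
Duality: measure of the set where `‖Y‖ ≥ 1`.
-/

set_option autoImplicit false

namespace M12

open Finset Complex MeasureTheory Set

/-- the product of two main terms -/
theorem J0_mul (G t s : ℝ) (k : ℕ) (ht : 0 < t) (hs : 0 < s) (hk : 1 ≤ k) :
    (√(k : ℝ) : ℂ) * (U6.J0 G t k * (starRingEnd ℂ) (U6.J0 G s k)) =
      (((Real.pi / 2) ^ (1 / 2 : ℝ) * (t * s) ^ (-(1 / 4) : ℝ) : ℝ) : ℂ) *
        (((Real.exp (-(G * √(2 * Real.pi) * (1 / √t + 1 / √s) * √(k : ℝ))) : ℝ) : ℂ) *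
          cexp (I * ((U6.ph k t - U6.ph k s : ℝ) : ℂ))) := by
  have hpi := Real.pi_pos
  have hk0 : (0 : ℝ) < k := by exact_mod_cast hk
  have e1 : √(2 * Real.pi * k / t) = √(2 * Real.pi) * √(k : ℝ) * (1 / √t) := by
    rw [Real.sqrt_div (by positivity), Real.sqrt_mul (by positivity)]; ring
  have e2 : √(2 * Real.pi * k / s) = √(2 * Real.pi) * √(k : ℝ) * (1 / √s) := by
    rw [Real.sqrt_div (by positivity), Real.sqrt_mul (by positivity)]; ring
  have e3 : (starRingEnd ℂ) (cexp (I * ((U6.ph k s + Real.pi / 4 : ℝ) : ℂ))) =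
      cexp (-(I * ((U6.ph k s + Real.pi / 4 : ℝ) : ℂ))) := by
    rw [← Complex.exp_conj, map_mul, Complex.conj_ofReal, Complex.conj_I, neg_mul]
  have e4 : cexp (I * ((U6.ph k t + Real.pi / 4 : ℝ) : ℂ)) * cexp (-(I * ((U6.ph k s + Real.pi / 4 : ℝ) : ℂ))) =
      cexp (I * ((U6.ph k t - U6.ph k s : ℝ) : ℂ)) := by
    rw [← Complex.exp_add]
    congr 1
    push_cast
    ring
  have e5 : Real.exp (-(G * (√(2 * Real.pi) * √(k : ℝ) * (1 / √t)))) *
      Real.exp (-(G * (√(2 * Real.pi) * √(k : ℝ) * (1 / √s)))) =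
      Real.exp (-(G * √(2 * Real.pi) * (1 / √t + 1 / √s) * √(k : ℝ))) := by
    rw [← Real.exp_add]
    congr 1
    ring
  have e6 : √(k : ℝ) * ((Real.pi / 2) ^ (1 / 4 : ℝ) * ((k : ℝ) * t) ^ (-(1 / 4) : ℝ)) *
      ((Real.pi / 2) ^ (1 / 4 : ℝ) * ((k : ℝ) * s) ^ (-(1 / 4) : ℝ)) =
      (Real.pi / 2) ^ (1 / 2 : ℝ) * (t * s) ^ (-(1 / 4) : ℝ) := by
    rw [Real.mul_rpow hk0.le ht.le, Real.mul_rpow hk0.le hs.le, Real.mul_rpow ht.le hs.le,
      Real.sqrt_eq_rpow]
    have h1 : (k : ℝ) ^ (1 / 2 : ℝ) * ((k : ℝ) ^ (-(1 / 4) : ℝ) * (k : ℝ) ^ (-(1 / 4) : ℝ)) = 1 := by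
      rw [← Real.rpow_add hk0, ← Real.rpow_add hk0]
      norm_num
    have h2 : (Real.pi / 2) ^ (1 / 4 : ℝ) * (Real.pi / 2) ^ (1 / 4 : ℝ) =
        (Real.pi / 2) ^ (1 / 2 : ℝ) := by
      rw [← Real.rpow_add (by positivity)]
      norm_num
    rw [← h2]
    linear_combination ((Real.pi / 2) ^ (1 / 4 : ℝ) * (Real.pi / 2) ^ (1 / 4 : ℝ) *
      (t ^ (-(1 / 4) : ℝ) * s ^ (-(1 / 4) : ℝ))) * h1
  unfold U6.J0
  rw [map_mul, Complex.conj_ofReal, e3, e1, e2, ← e4, ← e5, ← e6]
  push_cast
  ring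

theorem J0_meas (G : ℝ) (k : ℕ) : Measurable (fun t => U6.J0 G t k) := by
  unfold U6.J0 U6.ph
  fun_prop

theorem Y_meas (G : ℝ) (K : ℕ) : Measurable (fun t => U6.Y G t K) := by
  unfold U6.Y
  exact Finset.measurable_sum _ fun k _ => (J0_meas G k).const_mul _

theorem J0_norm_le (G t : ℝ) (k : ℕ) (hG : 0 ≤ G) (ht : 1 ≤ t) : ‖U6.J0 G t k‖ ≤ 2 := by
  have hpi := Real.pi_pos
  unfold U6.J0
  rw [norm_mul, mul_comm I, Complex.norm_exp_ofReal_mul_I, mul_one, Complex.norm_real,
    Real.norm_eq_abs, abs_of_nonneg (by positivity)]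
  have h1 : (Real.pi / 2) ^ (1 / 4 : ℝ) ≤ 2 := by
    calc (Real.pi / 2) ^ (1 / 4 : ℝ) ≤ (2 : ℝ) ^ (1 / 4 : ℝ) :=
          Real.rpow_le_rpow (by positivity) (by linarith [Real.pi_lt_four]) (by norm_num)
      _ ≤ (2 : ℝ) ^ (1 : ℝ) := Real.rpow_le_rpow_of_exponent_le (by norm_num) (by norm_num)
      _ = 2 := Real.rpow_one 2
  have h2 : ((k : ℝ) * t) ^ (-(1 / 4) : ℝ) ≤ 1 := by
    rcases Nat.eq_zero_or_pos k with h0 | h0
    · subst h0
      simp only [Nat.cast_zero, zero_mul]
      rw [Real.zero_rpow (by norm_num)]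
      norm_num
    · have hk0 : (1 : ℝ) ≤ k := by exact_mod_cast h0
      apply Real.rpow_le_one_of_one_le_of_nonpos _ (by norm_num)
      nlinarith
  have h3 : Real.exp (-(G * √(2 * Real.pi * k / t))) ≤ 1 := by
    rw [Real.exp_le_one_iff]
    have : 0 ≤ G * √(2 * Real.pi * k / t) := by positivity
    linarith
  calc (Real.pi / 2) ^ (1 / 4 : ℝ) * ((k : ℝ) * t) ^ (-(1 / 4) : ℝ) *
        Real.exp (-(G * √(2 * Real.pi * k / t))) ≤ 2 * 1 * 1 := by
        apply mul_le_mul _ h3 (Real.exp_pos _).le (by norm_num)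
        exact mul_le_mul h1 h2 (by positivity) (by norm_num)
    _ = 2 := by norm_num

/-- the kernel -/
noncomputable def hh (K c : ℝ) (x : ℝ) : ℝ := 2 * K / (1 + K * |x| / c)

theorem hh_int (K c a L t : ℝ) (hK : 0 < K) (hc : 0 < c) (_hL : 0 ≤ L) (h1 : a ≤ t)
    (h2 : t ≤ a + L) :
    ∫ s in a..(a + L), hh K c (t - s) ≤ 4 * c * Real.log (1 + K * L / c) := by
  have hcont : Continuous (fun s => hh K c (t - s)) := by
    unfold hh
    apply Continuous.div
    · fun_prop
    · fun_prop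
    · intro s
      have : 0 ≤ K * |t - s| / c := by positivity
      linarith
  rw [← intervalIntegral.integral_add_adjacent_intervals (b := t) (hcont.intervalIntegrable _ _)
    (hcont.intervalIntegrable _ _)]
  have e1 : ∫ s in a..t, hh K c (t - s) = 2 * c * Real.log (1 + K * (t - a) / c) := by
    have h : ∀ s ∈ uIcc a t, HasDerivAt (fun s => -(2 * c * Real.log (1 + K * (t - s) / c)))
        (hh K c (t - s)) s := by
      intro s hs
      rw [uIcc_of_le h1] at hs
      have hpos : 0 < 1 + K * (t - s) / c := by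
        have : 0 ≤ K * (t - s) / c := by
          have : 0 ≤ t - s := by linarith [hs.2]
          positivity
        linarith
      have h3 : HasDerivAt (fun s => 1 + K * (t - s) / c) (-(K / c)) s := by
        have := ((((hasDerivAt_id s).const_sub t).const_mul K).div_const c).const_add 1
        refine this.congr_deriv ?_
        ring
      have h4 := ((h3.log hpos.ne').const_mul (2 * c)).neg
      refine h4.congr_deriv ?_
      unfold hh
      rw [abs_of_nonneg (by linarith [hs.2])]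
      field_simp
    rw [intervalIntegral.integral_eq_sub_of_hasDerivAt h (hcont.intervalIntegrable _ _)]
    simp
  have e2 : ∫ s in t..(a + L), hh K c (t - s) = 2 * c * Real.log (1 + K * (a + L - t) / c) := by
    have h : ∀ s ∈ uIcc t (a + L), HasDerivAt (fun s => 2 * c * Real.log (1 + K * (s - t) / c))
        (hh K c (t - s)) s := by
      intro s hs
      rw [uIcc_of_le h2] at hs
      have hpos : 0 < 1 + K * (s - t) / c := by
        have : 0 ≤ K * (s - t) / c := by
          have : 0 ≤ s - t := by linarith [hs.1]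
          positivity
        linarith
      have h3 : HasDerivAt (fun s => 1 + K * (s - t) / c) (K / c) s := by
        have := ((((hasDerivAt_id s).sub_const t).const_mul K).div_const c).const_add 1
        refine this.congr_deriv ?_
        ring
      have h4 := (h3.log hpos.ne').const_mul (2 * c)
      refine h4.congr_deriv ?_
      unfold hh
      rw [abs_of_nonpos (by linarith [hs.1]), neg_sub]
      field_simp
    rw [intervalIntegral.integral_eq_sub_of_hasDerivAt h (hcont.intervalIntegrable _ _)]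
    simp
  rw [e1, e2]
  have e3 : Real.log (1 + K * (t - a) / c) ≤ Real.log (1 + K * L / c) := by
    apply Real.log_le_log
    · have : 0 ≤ K * (t - a) / c := by
        have : 0 ≤ t - a := by linarith
        positivity
      linarith
    · have : K * (t - a) / c ≤ K * L / c := by
        apply div_le_div_of_nonneg_right _ hc.le
        apply mul_le_mul_of_nonneg_left _ hK.le
        linarith
      linarith
  have e4 : Real.log (1 + K * (a + L - t) / c) ≤ Real.log (1 + K * L / c) := by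
    apply Real.log_le_log
    · have : 0 ≤ K * (a + L - t) / c := by
        have : 0 ≤ a + L - t := by linarith
        positivity
      linarith
    · have : K * (a + L - t) / c ≤ K * L / c := by
        apply div_le_div_of_nonneg_right _ hc.le
        apply mul_le_mul_of_nonneg_left _ hK.le
        linarith
      linarith
  nlinarith

/-- pointwise bound for the kernel sum -/
theorem kernel_bd : ∃ C : ℝ, 1 ≤ C ∧ ∀ (T t s G a L : ℝ) (K : ℕ), 1 ≤ T → T ≤ a → a + L ≤ 4 * T →
    t ∈ Icc a (a + L) → s ∈ Icc a (a + L) → 0 ≤ G → 1 ≤ K → 5 * (K : ℝ) ≤ T →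
    ‖∑ k ∈ Finset.Ico 1 K, (√(k : ℝ) : ℂ) * (U6.J0 G t k * (starRingEnd ℂ) (U6.J0 G s k))‖ ≤
      2 / √T * (hh K (C * √T * √(K : ℝ)) (t - s) + C * (√(L / √T) * √√(K : ℝ))) := by
  obtain ⟨C0, hC0, h⟩ := S_bd
  refine ⟨C0 + 1, by linarith, ?_⟩
  intro T t s G a L K hT ha hL4 ht hs hG hK hKT
  have hpi := Real.pi_pos
  set C : ℝ := C0 + 1 with hC
  have hC1 : 1 ≤ C := by linarith
  have hT0 : 0 < T := by linarith
  have htT : T ≤ t := by linarith [ht.1]
  have hsT : T ≤ s := by linarith [hs.1]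
  have ht0 : 0 < t := by linarith
  have hs0 : 0 < s := by linarith
  have hK1 : (1 : ℝ) ≤ K := by exact_mod_cast hK
  have hK0 : (0 : ℝ) < K := by linarith
  have hsqT : 0 < √T := Real.sqrt_pos.2 hT0
  have hsqK : 0 < √(K : ℝ) := Real.sqrt_pos.2 hK0
  have hL0 : 0 ≤ L := by linarith [ht.1, ht.2]
  set lam : ℝ := G * √(2 * Real.pi) * (1 / √t + 1 / √s) with hlam
  have hlam0 : 0 ≤ lam := by positivity
  set S : ℂ := ∑ k ∈ Finset.Ico 1 K, ((Real.exp (-(lam * √(k : ℝ))) : ℝ) : ℂ) *
      cexp (I * ((U6.ph k t - U6.ph k s : ℝ) : ℂ)) with hS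
  have e1 : ∑ k ∈ Finset.Ico 1 K, (√(k : ℝ) : ℂ) * (U6.J0 G t k * (starRingEnd ℂ) (U6.J0 G s k)) =
      (((Real.pi / 2) ^ (1 / 2 : ℝ) * (t * s) ^ (-(1 / 4) : ℝ) : ℝ) : ℂ) * S := by
    rw [hS, mul_sum]
    apply sum_congr rfl
    intro k hk
    rw [Finset.mem_Ico] at hk
    exact J0_mul G t s k ht0 hs0 hk.1
  rw [e1, norm_mul, Complex.norm_real, Real.norm_eq_abs, abs_of_nonneg (by positivity)]
  have h1 : (Real.pi / 2) ^ (1 / 2 : ℝ) ≤ 2 := by
    calc (Real.pi / 2) ^ (1 / 2 : ℝ) ≤ (2 : ℝ) ^ (1 / 2 : ℝ) :=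
          Real.rpow_le_rpow (by positivity) (by linarith [Real.pi_lt_four]) (by norm_num)
      _ ≤ (2 : ℝ) ^ (1 : ℝ) := Real.rpow_le_rpow_of_exponent_le (by norm_num) (by norm_num)
      _ = 2 := Real.rpow_one 2
  have h2 : (t * s) ^ (-(1 / 4) : ℝ) ≤ 1 / √T := by
    calc (t * s) ^ (-(1 / 4) : ℝ) ≤ (T * T) ^ (-(1 / 4) : ℝ) := by
          apply Real.rpow_le_rpow_of_nonpos (by positivity) _ (by norm_num)
          exact mul_le_mul htT hsT hT0.le ht0.le
      _ = 1 / √T := by
          rw [Real.sqrt_eq_rpow, Real.mul_rpow hT0.le hT0.le, ← Real.rpow_add hT0, one_div (T ^ (1 / 2 : ℝ)),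
            ← Real.rpow_neg hT0.le]
          norm_num
  have h3 : (Real.pi / 2) ^ (1 / 2 : ℝ) * (t * s) ^ (-(1 / 4) : ℝ) ≤ 2 / √T := by
    calc _ ≤ 2 * (1 / √T) := mul_le_mul h1 h2 (by positivity) (by norm_num)
      _ = _ := by ring
  -- trivial bound
  have hSK : ‖S‖ ≤ K := by
    rw [hS]
    refine (norm_sum_le _ _).trans ?_
    calc ∑ k ∈ Finset.Ico 1 K, ‖((Real.exp (-(lam * √(k : ℝ))) : ℝ) : ℂ) *
          cexp (I * ((U6.ph k t - U6.ph k s : ℝ) : ℂ))‖ ≤ ∑ k ∈ Finset.Ico 1 K, (1 : ℝ) := by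
          apply sum_le_sum
          intro k _
          rw [norm_mul, mul_comm I, Complex.norm_exp_ofReal_mul_I, mul_one, Complex.norm_real,
            Real.norm_eq_abs, abs_of_nonneg (Real.exp_pos _).le, Real.exp_le_one_iff]
          have : 0 ≤ lam * √(k : ℝ) := by positivity
          linarith
      _ = ((K - 1 : ℕ) : ℝ) := by simp
      _ ≤ K := by exact_mod_cast Nat.sub_le K 1
  set c1 : ℝ := C * √T * √(K : ℝ) with hc1
  have hc10 : 0 < c1 := by positivity
  set c2 : ℝ := C * (√(L / √T) * √√(K : ℝ)) with hc2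
  have hc20 : 0 ≤ c2 := by positivity
  have hSb : ‖S‖ ≤ hh K c1 (t - s) + c2 := by
    by_cases hne : t = s
    · subst hne
      unfold hh
      simp
      linarith
    · have h4 := h T t s lam K hT0 hsT (by linarith [hs.2]) htT (by linarith [ht.2]) hne hlam0 hKT
      rw [← hS] at h4
      have hx : 0 < |t - s| := abs_pos.mpr (sub_ne_zero.mpr hne)
      have hxL : |t - s| ≤ L := by
        rw [abs_le]
        constructor
        · linarith [ht.1, hs.2]
        · linarith [ht.2, hs.1]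
      have h5 : C0 * (√T / |t - s| * √(K : ℝ)) ≤ c1 / |t - s| := by
        rw [hc1]
        have : 0 ≤ √T / |t - s| * √(K : ℝ) := by positivity
        calc C0 * (√T / |t - s| * √(K : ℝ)) ≤ C * (√T / |t - s| * √(K : ℝ)) :=
              mul_le_mul_of_nonneg_right (by linarith) this
          _ = _ := by ring
      have h6 : C0 * (√(|t - s| / √T) * √√(K : ℝ)) ≤ c2 := by
        rw [hc2]
        have h7 : √(|t - s| / √T) ≤ √(L / √T) := Real.sqrt_le_sqrt
          (div_le_div_of_nonneg_right hxL hsqT.le)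
        apply mul_le_mul (by linarith) _ (by positivity) (by linarith)
        exact mul_le_mul_of_nonneg_right h7 (Real.sqrt_nonneg _)
      have h8 : ‖S‖ ≤ c1 / |t - s| + c2 := by
        rw [mul_add] at h4
        linarith
      unfold hh
      set x := |t - s| with hxx
      have hden : 0 < 1 + K * x / c1 := by positivity
      rcases le_or_gt (K * x) c1 with h9 | h9
      · have h10 : (K : ℝ) ≤ 2 * K / (1 + K * x / c1) := by
          rw [le_div_iff₀ hden]
          have : K * x / c1 ≤ 1 := by rw [div_le_one hc10]; exact h9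
          nlinarith
        linarith
      · have h10 : c1 / x ≤ 2 * K / (1 + K * x / c1) := by
          rw [div_le_div_iff₀ hx hden]
          have h11 : c1 * (1 + K * x / c1) = c1 + K * x := by
            field_simp
          rw [h11]
          nlinarith
        linarith
  have hrhs : 0 ≤ hh K c1 (t - s) + c2 := le_trans (norm_nonneg _) hSb
  exact mul_le_mul h3 hSb (norm_nonneg _) (by positivity)

/-- sum of squares of the coefficients -/
noncomputable def D2 (K : ℕ) : ℝ := ∑ k ∈ Finset.Ico 1 K, (U6.dv k : ℝ) ^ 2 / √(k : ℝ)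

theorem dual : ∃ C : ℝ, 1 ≤ C ∧ ∀ (T G a L : ℝ) (K : ℕ) (E : Set ℝ), 1 ≤ T → T ≤ a → 0 ≤ L →
    a + L ≤ 4 * T → 0 ≤ G → 1 ≤ K → 5 * (K : ℝ) ≤ T → MeasurableSet E → E ⊆ Icc a (a + L) →
    (∀ t ∈ E, 1 ≤ ‖U6.Y G t K‖) →
    volume.real E ^ 2 ≤ C * D2 K / √T * volume.real E *
      (√T * √(K : ℝ) * Real.log (1 + K * L) + √(L / √T) * √√(K : ℝ) * volume.real E) := by
  obtain ⟨C, hC, h⟩ := kernel_bd
  refine ⟨8 * C, by linarith, ?_⟩
  intro T G a L K E hT ha hL hL4 hG hK hKT hEm hEs hY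
  have hT0 : 0 < T := by linarith
  have hK1 : (1 : ℝ) ≤ K := by exact_mod_cast hK
  have hK0 : (0 : ℝ) < K := by linarith
  have hsqT : 0 < √T := Real.sqrt_pos.2 hT0
  have hsqK : 0 < √(K : ℝ) := Real.sqrt_pos.2 hK0
  set μ : Measure ℝ := volume.restrict E with hμ
  have hEfin : volume E < ⊤ := lt_of_le_of_lt (measure_mono hEs) (by simp)
  have : IsFiniteMeasure μ := ⟨by rw [hμ, Measure.restrict_apply_univ]; exact hEfin⟩
  have hμr : μ.real univ = volume.real E := by
    rw [hμ, measureReal_restrict_apply_univ]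
  set v : ℝ := volume.real E with hv
  have hv0 : 0 ≤ v := measureReal_nonneg
  have hae : ∀ᵐ t ∂μ, t ∈ E := ae_restrict_mem hEm
  have htE : ∀ t ∈ E, 1 ≤ t := fun t ht => by linarith [(hEs ht).1]
  -- the unimodular factor
  set cc : ℝ → ℂ := fun t => (starRingEnd ℂ) (U6.Y G t K) / (‖U6.Y G t K‖ : ℂ) with hcc
  have hccm : Measurable cc := by
    have hY := Y_meas G K
    rw [hcc]
    exact (Complex.continuous_conj.measurable.comp hY).div
      (Complex.continuous_ofReal.measurable.comp hY.norm)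
  have hcc1 : ∀ t, ‖cc t‖ ≤ 1 := by
    intro t
    rw [hcc]
    simp only [norm_div, Complex.norm_conj, Complex.norm_real, norm_norm]
    exact div_self_le_one _
  have hccY : ∀ t ∈ E, cc t * U6.Y G t K = (‖U6.Y G t K‖ : ℂ) := by
    intro t ht
    have h1 : (‖U6.Y G t K‖ : ℂ) ≠ 0 := by
      have := hY t ht
      exact_mod_cast (by linarith : ‖U6.Y G t K‖ ≠ 0)
    rw [hcc]
    simp only
    rw [div_mul_eq_mul_div, div_eq_iff h1, mul_comm, Complex.mul_conj']
    ring
  -- the coefficients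
  set u : ℕ → ℝ → ℂ := fun k t => cc t * U6.J0 G t k with hu
  have hum : ∀ k, Measurable (u k) := fun k => hccm.mul (J0_meas G k)
  have hub : ∀ k, ∀ t ∈ E, ‖u k t‖ ≤ 2 := by
    intro k t ht
    rw [hu]
    simp only [norm_mul]
    calc ‖cc t‖ * ‖U6.J0 G t k‖ ≤ 1 * 2 :=
          mul_le_mul (hcc1 t) (J0_norm_le G t k hG (htE t ht)) (norm_nonneg _) zero_le_one
      _ = 2 := by norm_num
  have hui : ∀ k, Integrable (u k) μ := by
    intro k
    apply Integrable.of_bound (hum k).aestronglyMeasurable 2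
    filter_upwards [hae] with t ht
    exact hub k t ht
  set F : ℕ → ℂ := fun k => ∫ t, u k t ∂μ with hF
  -- first inequality
  have h1 : v ≤ ∑ k ∈ Finset.Ico 1 K, (U6.dv k : ℝ) * ‖F k‖ := by
    have e1 : ((∫ t, ‖U6.Y G t K‖ ∂μ : ℝ) : ℂ) = ∑ k ∈ Finset.Ico 1 K, ((-1) ^ k * (U6.dv k : ℂ)) * F k := by
      rw [← integral_complex_ofReal]
      have e2 : ∫ t, ((‖U6.Y G t K‖ : ℝ) : ℂ) ∂μ =
          ∫ t, ∑ k ∈ Finset.Ico 1 K, ((-1) ^ k * (U6.dv k : ℂ)) * u k t ∂μ := by
        apply integral_congr_ae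
        filter_upwards [hae] with t ht
        rw [← hccY t ht]
        unfold U6.Y
        rw [mul_sum]
        apply sum_congr rfl
        intro k _
        rw [hu]
        ring
      rw [e2, integral_finsetSum _ (fun k _ => (hui k).const_mul _)]
      apply sum_congr rfl
      intro k _
      rw [integral_const_mul]
    have e3 : v ≤ ∫ t, ‖U6.Y G t K‖ ∂μ := by
      have e4 : v = ∫ t, (1 : ℝ) ∂μ := by
        rw [integral_const, smul_eq_mul, mul_one, hμr]
      rw [e4]
      apply integral_mono_ae (integrable_const _)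
      · apply Integrable.norm
        have e5 : (fun t => U6.Y G t K) = fun t => ∑ k ∈ Finset.Ico 1 K,
            ((-1) ^ k * (U6.dv k : ℂ)) * U6.J0 G t k := by
          funext t
          rfl
        rw [e5]
        apply integrable_finsetSum
        intro k _
        apply Integrable.const_mul
        apply Integrable.of_bound (J0_meas G k).aestronglyMeasurable 2
        filter_upwards [hae] with t ht
        exact J0_norm_le G t k hG (htE t ht)
      · filter_upwards [hae] with t ht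
        exact hY t ht
    have e6 : ∫ t, ‖U6.Y G t K‖ ∂μ ≤ ‖∑ k ∈ Finset.Ico 1 K, ((-1) ^ k * (U6.dv k : ℂ)) * F k‖ := by
      rw [← e1, Complex.norm_real]
      exact le_abs_self _
    refine e3.trans (e6.trans ((norm_sum_le _ _).trans (le_of_eq ?_)))
    apply sum_congr rfl
    intro k _
    rw [norm_mul, norm_mul, norm_pow, norm_neg, norm_one, one_pow, one_mul, Complex.norm_natCast]
  -- Cauchy-Schwarz
  have h2 : (∑ k ∈ Finset.Ico 1 K, (U6.dv k : ℝ) * ‖F k‖) ^ 2 ≤
      D2 K * ∑ k ∈ Finset.Ico 1 K, √(k : ℝ) * ‖F k‖ ^ 2 := by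
    unfold D2
    apply Finset.sum_sq_le_sum_mul_sum_of_sq_le_mul
    · intro k _; positivity
    · intro k _; positivity
    · intro k hk
      rw [Finset.mem_Ico] at hk
      have : 0 < √(k : ℝ) := Real.sqrt_pos.2 (by exact_mod_cast hk.1)
      apply le_of_eq
      field_simp
  -- the double integral
  have h3 : ∑ k ∈ Finset.Ico 1 K, √(k : ℝ) * ‖F k‖ ^ 2 ≤
      v * (2 / √T * (4 * (C * √T * √(K : ℝ)) * Real.log (1 + K * L) +
        C * (√(L / √T) * √√(K : ℝ)) * v)) := by
    have e1 : ((∑ k ∈ Finset.Ico 1 K, √(k : ℝ) * ‖F k‖ ^ 2 : ℝ) : ℂ) =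
        ∫ t, ∫ s, cc t * (starRingEnd ℂ) (cc s) * ∑ k ∈ Finset.Ico 1 K,
          (√(k : ℝ) : ℂ) * (U6.J0 G t k * (starRingEnd ℂ) (U6.J0 G s k)) ∂μ ∂μ := by
      have e2 : ∀ t s, cc t * (starRingEnd ℂ) (cc s) * ∑ k ∈ Finset.Ico 1 K,
          (√(k : ℝ) : ℂ) * (U6.J0 G t k * (starRingEnd ℂ) (U6.J0 G s k)) =
          ∑ k ∈ Finset.Ico 1 K, ((√(k : ℝ) : ℂ) * u k t) * (starRingEnd ℂ) (u k s) := by
        intro t s
        rw [mul_sum]
        apply sum_congr rfl
        intro k _
        rw [hu]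
        simp only [map_mul]
        ring
      have huc : ∀ k, Integrable (fun s => (starRingEnd ℂ) (u k s)) μ := by
        intro k
        apply Integrable.of_bound (Complex.continuous_conj.measurable.comp (hum k)).aestronglyMeasurable 2
        filter_upwards [hae] with t ht
        show ‖(starRingEnd ℂ) (u k t)‖ ≤ 2
        rw [Complex.norm_conj]
        exact hub k t ht
      have e3 : ∀ t, ∫ s, cc t * (starRingEnd ℂ) (cc s) * ∑ k ∈ Finset.Ico 1 K,
          (√(k : ℝ) : ℂ) * (U6.J0 G t k * (starRingEnd ℂ) (U6.J0 G s k)) ∂μ =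
          ∑ k ∈ Finset.Ico 1 K, ((√(k : ℝ) : ℂ) * u k t) * (starRingEnd ℂ) (F k) := by
        intro t
        simp only [e2]
        rw [integral_finsetSum _ (fun k _ => (huc k).const_mul _)]
        apply sum_congr rfl
        intro k _
        rw [integral_const_mul, integral_conj]
      simp only [e3]
      rw [integral_finsetSum _ (fun k _ => ((hui k).const_mul _).mul_const _)]
      push_cast
      apply sum_congr rfl
      intro k _
      rw [integral_mul_const, integral_const_mul, mul_assoc, Complex.mul_conj']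
    have hhc : ∀ t, Continuous (fun s => hh K (C * √T * √(K : ℝ)) (t - s)) := by
      intro t
      unfold hh
      apply Continuous.div
      · fun_prop
      · fun_prop
      · intro s
        have : 0 ≤ K * |t - s| / (C * √T * √(K : ℝ)) := by positivity
        linarith
    have hh0 : ∀ x, 0 ≤ hh K (C * √T * √(K : ℝ)) x := by
      intro x
      unfold hh
      positivity
    have e4 : ∑ k ∈ Finset.Ico 1 K, √(k : ℝ) * ‖F k‖ ^ 2 =
        ‖((∑ k ∈ Finset.Ico 1 K, √(k : ℝ) * ‖F k‖ ^ 2 : ℝ) : ℂ)‖ := by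
      rw [Complex.norm_real, Real.norm_eq_abs, abs_of_nonneg]
      exact Finset.sum_nonneg fun _ _ => by positivity
    rw [e4, e1]
    set M : ℝ := 2 / √T * (4 * (C * √T * √(K : ℝ)) * Real.log (1 + K * L) +
        C * (√(L / √T) * √√(K : ℝ)) * v) with hM
    have hin : ∀ t ∈ E, ‖∫ s, cc t * (starRingEnd ℂ) (cc s) * ∑ k ∈ Finset.Ico 1 K,
          (√(k : ℝ) : ℂ) * (U6.J0 G t k * (starRingEnd ℂ) (U6.J0 G s k)) ∂μ‖ ≤ M := by
      intro t ht
      have hint : Integrable (fun s => 2 / √T * (hh K (C * √T * √(K : ℝ)) (t - s) +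
          C * (√(L / √T) * √√(K : ℝ)))) μ := by
        apply Integrable.const_mul
        apply Integrable.add _ (integrable_const _)
        exact ((hhc t).integrableOn_Icc (a := a) (b := a + L)).mono_set hEs
      have h5 : ‖∫ s, cc t * (starRingEnd ℂ) (cc s) * ∑ k ∈ Finset.Ico 1 K,
          (√(k : ℝ) : ℂ) * (U6.J0 G t k * (starRingEnd ℂ) (U6.J0 G s k)) ∂μ‖ ≤
          ∫ s, 2 / √T * (hh K (C * √T * √(K : ℝ)) (t - s) + C * (√(L / √T) * √√(K : ℝ))) ∂μ := by
        apply norm_integral_le_of_norm_le hint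
        filter_upwards [hae] with s hs
        rw [norm_mul, norm_mul, Complex.norm_conj]
        have h6 := h T t s G a L K hT ha hL4 (hEs ht) (hEs hs) hG hK hKT
        calc _ ≤ (1 * 1) * _ := mul_le_mul_of_nonneg_right
              (mul_le_mul (hcc1 t) (hcc1 s) (norm_nonneg _) zero_le_one) (norm_nonneg _)
          _ ≤ _ := by rw [one_mul, one_mul]; exact h6
      refine h5.trans ?_
      rw [integral_const_mul, hM]
      apply mul_le_mul_of_nonneg_left _ (by positivity)
      have hi1 : Integrable (fun s => hh K (C * √T * √(K : ℝ)) (t - s)) μ :=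
        ((hhc t).integrableOn_Icc (a := a) (b := a + L)).mono_set hEs
      rw [integral_add hi1 (integrable_const _), integral_const, smul_eq_mul, hμr]
      have h7 : ∫ s, hh K (C * √T * √(K : ℝ)) (t - s) ∂μ ≤
          4 * (C * √T * √(K : ℝ)) * Real.log (1 + K * L) := by
        calc ∫ s, hh K (C * √T * √(K : ℝ)) (t - s) ∂μ ≤
              ∫ s in Icc a (a + L), hh K (C * √T * √(K : ℝ)) (t - s) := by
              apply setIntegral_mono_set ((hhc t).integrableOn_Icc)
              · exact Filter.Eventually.of_forall fun s => hh0 _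
              · exact Filter.Eventually.of_forall fun x hx => hEs hx
          _ = ∫ s in a..(a + L), hh K (C * √T * √(K : ℝ)) (t - s) := by
              rw [intervalIntegral.integral_of_le (by linarith), integral_Icc_eq_integral_Ioc]
          _ ≤ 4 * (C * √T * √(K : ℝ)) * Real.log (1 + K * L / (C * √T * √(K : ℝ))) :=
              hh_int K _ a L t hK0 (by positivity) hL (hEs ht).1 (hEs ht).2
          _ ≤ 4 * (C * √T * √(K : ℝ)) * Real.log (1 + K * L) := by
              apply mul_le_mul_of_nonneg_left _ (by positivity)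
              apply Real.log_le_log (by positivity)
              have h8 : 1 ≤ C * √T * √(K : ℝ) := by
                have h9 : 1 ≤ √T := by rw [Real.one_le_sqrt]; exact hT
                have h10 : 1 ≤ √(K : ℝ) := by rw [Real.one_le_sqrt]; exact hK1
                calc (1 : ℝ) = 1 * 1 * 1 := by norm_num
                  _ ≤ C * √T * √(K : ℝ) := mul_le_mul (mul_le_mul hC h9 zero_le_one (by linarith))
                      h10 zero_le_one (by positivity)
              have h11 : K * L / (C * √T * √(K : ℝ)) ≤ K * L := div_le_self (by positivity) h8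
              linarith
      have h12 : v * (C * (√(L / √T) * √√(K : ℝ))) = C * (√(L / √T) * √√(K : ℝ)) * v := by ring
      rw [h12]
      linarith
    have hfin : ‖∫ t, ∫ s, cc t * (starRingEnd ℂ) (cc s) * ∑ k ∈ Finset.Ico 1 K,
          (√(k : ℝ) : ℂ) * (U6.J0 G t k * (starRingEnd ℂ) (U6.J0 G s k)) ∂μ ∂μ‖ ≤ ∫ t, M ∂μ := by
      apply norm_integral_le_of_norm_le (integrable_const _)
      filter_upwards [hae] with t ht
      exact hin t ht
    rw [integral_const, smul_eq_mul, hμr] at hfin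
    exact hfin
  have hD2 : 0 ≤ D2 K := by
    unfold D2
    exact Finset.sum_nonneg fun _ _ => by positivity
  calc v ^ 2 ≤ (∑ k ∈ Finset.Ico 1 K, (U6.dv k : ℝ) * ‖F k‖) ^ 2 := pow_le_pow_left₀ hv0 h1 2
    _ ≤ D2 K * ∑ k ∈ Finset.Ico 1 K, √(k : ℝ) * ‖F k‖ ^ 2 := h2
    _ ≤ D2 K * (v * (2 / √T * (4 * (C * √T * √(K : ℝ)) * Real.log (1 + K * L) +
        C * (√(L / √T) * √√(K : ℝ)) * v))) := mul_le_mul_of_nonneg_left h3 hD2
    _ ≤ 8 * C * D2 K / √T * v * (√T * √(K : ℝ) * Real.log (1 + K * L) +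
          √(L / √T) * √√(K : ℝ) * v) := by
        have e1 : 0 ≤ C * D2 K / √T * v * (√(L / √T) * √√(K : ℝ) * v) := by positivity
        have e2 : 8 * C * D2 K / √T * v * (√T * √(K : ℝ) * Real.log (1 + K * L) +
          √(L / √T) * √√(K : ℝ) * v) = D2 K * (v * (2 / √T * (4 * (C * √T * √(K : ℝ)) *
            Real.log (1 + K * L) + C * (√(L / √T) * √√(K : ℝ)) * v))) +
            6 * (C * D2 K / √T * v * (√(L / √T) * √√(K : ℝ) * v)) := by
          ring
        rw [e2]
        linarith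

end M12
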