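import Pool.Agent.Lib.MP_39df77_nt.OS.OSW_S1

/-!
Exponential sums `∑ e(α √k - β k^{3/2})` over `K ≤ k < K + N`, `N ≤ K`: Kusmin-Landau and the
second derivative test.
-/

set_option autoImplicit false

namespace M12

open Finset Pool.Agent.Lib.MP_4ae430_nt

/-- derivatives of `β x √x - α √x` -/
noncomputable def Gd (α β : ℝ) : ℕ → ℝ → ℝ
  | 0 => fun x => β * (x * √x) - α * √x
  | 1 => fun x => 3 / 2 * β * √x - α / (2 * √x)
  | 2 => fun x => 3 / 4 * β / √x + α / (4 * (x * √x))
  | _ => fun _ => 0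

theorem Gd_deriv (α β : ℝ) (i : ℕ) (hi : i < 2) (x : ℝ) (hx : 0 < x) :
    HasDerivAt (Gd α β i) (Gd α β (i + 1) x) x := by
  have hs : 0 < √x := Real.sqrt_pos.2 hx
  have hss : √x * √x = x := Real.mul_self_sqrt hx.le
  have h0 : HasDerivAt (fun x : ℝ => √x) (1 / (2 * √x)) x := Real.hasDerivAt_sqrt hx.ne'
  interval_cases i
  · show HasDerivAt (fun x : ℝ => β * (x * √x) - α * √x) (3 / 2 * β * √x - α / (2 * √x)) x
    have h1 := (((hasDerivAt_id x).mul h0).const_mul β).sub (h0.const_mul α)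
    refine h1.congr_deriv ?_
    simp only [id]
    field_simp
    linear_combination (-β) * hss
  · show HasDerivAt (fun x : ℝ => 3 / 2 * β * √x - α / (2 * √x))
      (3 / 4 * β / √x + α / (4 * (x * √x))) x
    have h2 : HasDerivAt (fun x : ℝ => α / (2 * √x)) (-(α / (4 * (x * √x)))) x := by
      have h3 := ((h0.const_mul 2).inv (by positivity : (2 : ℝ) * √x ≠ 0)).const_mul α
      refine h3.congr_deriv ?_
      field_simp
      linear_combination (4 * α) * hss
    have h1 := (h0.const_mul (3 / 2 * β)).sub h2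
    refine h1.congr_deriv ?_
    field_simp
    ring

/-- bounds for the first derivative -/
theorem Gd1_bd {α β K x : ℝ} (hα : 0 < α) (hβ : 0 ≤ β) (hK : 1 ≤ K) (hb : 18 * β * K ≤ α)
    (h1 : K ≤ x) (h2 : x ≤ 3 * K) :
    -(α / (2 * √K)) ≤ Gd α β 1 x ∧ Gd α β 1 x ≤ -(α / (7 * √K)) := by
  have hx : 0 < x := by linarith
  have hK0 : 0 < K := by linarith
  have hs : 0 < √x := Real.sqrt_pos.2 hx
  have hsK : 0 < √K := Real.sqrt_pos.2 hK0
  have hss : √x * √x = x := Real.mul_self_sqrt hx.le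
  have hle : √K ≤ √x := Real.sqrt_le_sqrt h1
  have hge : √x ≤ 7 / 4 * √K := by
    rw [Real.sqrt_le_left (by positivity), mul_pow, Real.sq_sqrt hK0.le]
    linarith
  show -(α / (2 * √K)) ≤ 3 / 2 * β * √x - α / (2 * √x) ∧
    3 / 2 * β * √x - α / (2 * √x) ≤ -(α / (7 * √K))
  have e1 : α / (2 * √x) ≤ α / (2 * √K) := by
    apply div_le_div_of_nonneg_left hα.le (by positivity) (by linarith)
  have e2 : 0 ≤ 3 / 2 * β * √x := by positivity
  have e3 : 3 / 2 * β * √x ≤ α / (4 * √x) := by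
    rw [le_div_iff₀ (by positivity)]
    have : β * x ≤ β * (3 * K) := mul_le_mul_of_nonneg_left h2 hβ
    calc 3 / 2 * β * √x * (4 * √x) = 6 * β * (√x * √x) := by ring
      _ = 6 * β * x := by rw [hss]
      _ ≤ α := by nlinarith
  have e4 : α / (7 * √K) ≤ α / (4 * √x) := by
    apply div_le_div_of_nonneg_left hα.le (by positivity) (by linarith)
  have e5 : α / (2 * √x) = α / (4 * √x) + α / (4 * √x) := by
    field_simp
    norm_num
  constructor
  · linarith
  · linarith

/-- bounds for the second derivative -/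
theorem Gd2_bd {α β K x : ℝ} (hα : 0 < α) (hβ : 0 ≤ β) (hK : 1 ≤ K) (hb : 18 * β * K ≤ α)
    (h1 : K ≤ x) (h2 : x ≤ 3 * K) :
    α / (21 * (K * √K)) ≤ Gd α β 2 x ∧ Gd α β 2 x ≤ 7 * (α / (21 * (K * √K))) := by
  have hx : 0 < x := by linarith
  have hK0 : 0 < K := by linarith
  have hs : 0 < √x := Real.sqrt_pos.2 hx
  have hsK : 0 < √K := Real.sqrt_pos.2 hK0
  have hss : √x * √x = x := Real.mul_self_sqrt hx.le
  have hKK : √K * √K = K := Real.mul_self_sqrt hK0.le
  have hle : √K ≤ √x := Real.sqrt_le_sqrt h1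
  have hge : √x ≤ 7 / 4 * √K := by
    rw [Real.sqrt_le_left (by positivity), mul_pow, Real.sq_sqrt hK0.le]
    linarith
  show α / (21 * (K * √K)) ≤ 3 / 4 * β / √x + α / (4 * (x * √x)) ∧
    3 / 4 * β / √x + α / (4 * (x * √x)) ≤ 7 * (α / (21 * (K * √K)))
  have e1 : x * √x ≤ 21 / 4 * (K * √K) := by
    calc x * √x ≤ (3 * K) * (7 / 4 * √K) := mul_le_mul h2 hge hs.le (by positivity)
      _ = 21 / 4 * (K * √K) := by ring
  have e2 : K * √K ≤ x * √x := mul_le_mul h1 hle hsK.le hx.le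
  have e3 : 0 ≤ 3 / 4 * β / √x := by positivity
  have e4 : α / (21 * (K * √K)) ≤ α / (4 * (x * √x)) := by
    apply div_le_div_of_nonneg_left hα.le (by positivity) (by linarith)
  have e5 : α / (4 * (x * √x)) ≤ α / (4 * (K * √K)) := by
    apply div_le_div_of_nonneg_left hα.le (by positivity) (by linarith)
  have e6 : 3 / 4 * β / √x ≤ α / (24 * (K * √K)) := by
    rw [div_le_div_iff₀ hs (by positivity)]
    calc 3 / 4 * β * (24 * (K * √K)) = (18 * β * K) * √K := by ring
      _ ≤ α * √x := mul_le_mul hb hle hsK.le hα.le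
  have e7 : 7 * (α / (21 * (K * √K))) = α / (4 * (K * √K)) + α / (12 * (K * √K)) := by
    field_simp
    norm_num
  have e8 : α / (24 * (K * √K)) ≤ α / (12 * (K * √K)) := by
    apply div_le_div_of_nonneg_left hα.le (by positivity)
    have : 0 < K * √K := by positivity
    linarith
  constructor
  · linarith
  · linarith

theorem exp_sum : ∃ C : ℝ, 0 < C ∧ ∀ (α β : ℝ) (K N : ℕ), 0 < α → 0 ≤ β → 1 ≤ K → N ≤ K →
    18 * β * K ≤ α →
    ‖∑ n ∈ range N, ee (α * √((K : ℝ) + n) - β * (((K : ℝ) + n) * √((K : ℝ) + n)))‖ ≤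
      C * (√(K : ℝ) / α + √(α * √(K : ℝ))) := by
  obtain ⟨C, hC, h⟩ := sd_test 7 (by norm_num)
  refine ⟨14 + 10 * C, by positivity, ?_⟩
  intro α β K N hα hβ hK hN hb
  have hK1 : (1 : ℝ) ≤ K := by exact_mod_cast hK
  have hK0 : (0 : ℝ) < K := by linarith
  have hNK : (N : ℝ) ≤ K := by exact_mod_cast hN
  have hsK : 0 < √(K : ℝ) := Real.sqrt_pos.2 hK0
  have hKK : √(K : ℝ) * √(K : ℝ) = K := Real.mul_self_sqrt hK0.le
  set a : ℕ → ℝ := fun n => Gd α β 0 ((K : ℝ) + n) with ha
  have hneg : ∀ n : ℕ, α * √((K : ℝ) + n) - β * (((K : ℝ) + n) * √((K : ℝ) + n)) = -(a n) := by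
    intro n
    show _ = -(β * (((K : ℝ) + n) * √((K : ℝ) + n)) - α * √((K : ℝ) + n))
    ring
  have hd1 : ∀ n, n + 1 < N → -(α / (2 * √(K : ℝ))) ≤ dl a n ∧ dl a n ≤ -(α / (7 * √(K : ℝ))) := by
    intro n hn
    have h1 : (n : ℝ) + 1 ≤ K := by
      have : n + 1 ≤ K := by omega
      exact_mod_cast this
    have h2 : (0 : ℝ) ≤ n := Nat.cast_nonneg n
    exact fd 1 (Gd α β) K (3 * K) (fun i hi x hx => Gd_deriv α β i (by omega) x (by linarith [hx.1]))
      _ _ (fun x hx => Gd1_bd hα hβ hK1 hb hx.1 hx.2) K n (by linarith) (by push_cast; linarith)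
  have hd2 : ∀ n, n + 2 < N → α / (21 * ((K : ℝ) * √(K : ℝ))) ≤ (dl^[2] a) n ∧
      (dl^[2] a) n ≤ 7 * (α / (21 * ((K : ℝ) * √(K : ℝ)))) := by
    intro n hn
    have h1 : (n : ℝ) + 2 ≤ K := by
      have : n + 2 ≤ K := by omega
      exact_mod_cast this
    have h2 : (0 : ℝ) ≤ n := Nat.cast_nonneg n
    exact fd 2 (Gd α β) K (3 * K) (fun i hi x hx => Gd_deriv α β i (by omega) x (by linarith [hx.1]))
      _ _ (fun x hx => Gd2_bd hα hβ hK1 hb hx.1 hx.2) K n (by linarith) (by push_cast; linarith)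
  rw [sum_congr rfl fun n _ => by rw [hneg n]]
  rcases le_or_gt α (√(K : ℝ)) with hc | hc
  · -- Kusmin-Landau
    set lo : ℝ := α / (7 * √(K : ℝ)) with hlo
    have hlo0 : 0 < lo := by positivity
    have hlo2 : lo ≤ 1 / 2 := by
      rw [hlo, div_le_iff₀ (by positivity)]
      linarith
    have h1 := kusmin_landau N (fun n => -(a n)) lo hlo0 hlo2 (by
      intro n hn
      have h2 := hd1 n hn
      have h3 : dl (fun n => -(a n)) n = -(dl a n) := by
        simp only [dl]; ring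
      rw [h3]
      constructor
      · linarith [h2.2]
      · have : α / (2 * √(K : ℝ)) ≤ 1 / 2 := by
          rw [div_le_iff₀ (by positivity)]
          linarith
        linarith [h2.1]) (Or.inr (by
      intro n hn
      have h2 := (hd2 n hn).1
      have h3 : dl (fun n => -(a n)) n = -(dl a n) := by
        simp only [dl]; ring
      have h4 : dl (fun n => -(a n)) (n + 1) = -(dl a (n + 1)) := by
        simp only [dl]; ring
      have h5 : (dl^[2] a) n = dl a (n + 1) - dl a n := rfl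
      rw [h3, h4]
      rw [h5] at h2
      have : 0 < α / (21 * ((K : ℝ) * √(K : ℝ))) := by positivity
      linarith))
    refine h1.trans ?_
    have e1 : 2 / lo = 14 * (√(K : ℝ) / α) := by
      rw [hlo]
      field_simp
      norm_num
    rw [e1]
    have e2 : 0 ≤ √(K : ℝ) / α := by positivity
    have e3 : 0 ≤ √(α * √(K : ℝ)) := Real.sqrt_nonneg _
    nlinarith [mul_nonneg hC.le e2, mul_nonneg hC.le e3]
  · -- second derivative test
    set lam : ℝ := α / (21 * ((K : ℝ) * √(K : ℝ))) with hlam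
    have hlam0 : 0 < lam := by positivity
    have h1 := h N a lam hlam0 hd2
    have hcj : ‖∑ n ∈ range N, ee (-(a n))‖ = ‖∑ n ∈ range N, ee (a n)‖ := by
      have h1 : ∑ n ∈ range N, ee (-(a n)) = (starRingEnd ℂ) (∑ n ∈ range N, ee (a n)) := by
        rw [map_sum]
        exact sum_congr rfl fun n _ => ee_neg _
      rw [h1, Complex.norm_conj]
    rw [hcj]
    refine h1.trans ?_
    set w : ℝ := √(α * √(K : ℝ)) with hw
    have hw0 : 0 < w := Real.sqrt_pos.2 (by positivity)
    have e1 : (N : ℝ) * √lam ≤ w := by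
      have : √lam ≤ w / K := by
        apply Real.sqrt_le_iff.mpr
        refine ⟨by positivity, ?_⟩
        rw [div_pow, hw, Real.sq_sqrt (by positivity), hlam, div_le_div_iff₀ (by positivity) (by positivity)]
        have e2 : α * √(K : ℝ) * (21 * ((K : ℝ) * √(K : ℝ))) = 21 * α * K * (√(K : ℝ) * √(K : ℝ)) := by
          ring
        rw [e2, hKK]
        have : 0 < α * K ^ 2 := by positivity
        nlinarith
      calc (N : ℝ) * √lam ≤ K * (w / K) := mul_le_mul hNK this (Real.sqrt_nonneg _) hK0.le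
        _ = w := by field_simp
    have e2 : 1 / √lam ≤ 5 * w := by
      rw [div_le_iff₀ (Real.sqrt_pos.2 hlam0), hw, mul_assoc, ← Real.sqrt_mul (by positivity)]
      have e3 : α * √(K : ℝ) * lam = α ^ 2 / (21 * K) := by
        rw [hlam]
        field_simp
      rw [e3]
      have e4 : (1 / 5 : ℝ) ≤ √(α ^ 2 / (21 * K)) := by
        apply Real.le_sqrt_of_sq_le
        rw [le_div_iff₀ (by positivity)]
        have : (K : ℝ) ≤ α ^ 2 := by
          rw [← hKK]
          nlinarith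
        linarith
      linarith
    have e3 : 0 ≤ √(K : ℝ) / α := by positivity
    have e4 : C * ((N : ℝ) * √lam + 1 / √lam) ≤ C * (6 * w) :=
      mul_le_mul_of_nonneg_left (by linarith) hC.le
    nlinarith [mul_nonneg hC.le e3, mul_nonneg hC.le hw0.le]

end M12
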