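import Pool.Agent.Lib.MP_39df77_nt.U6.Defs
/-! `√π w₀^{-1/2} α^{-1/2} exp(-2 α^{1/2} β^{1/2})` versus `J0`, explicit error, every `G > 0`. -/
open Complex MeasureTheory Set
namespace M12

theorem cpow_half {a s : ℂ} (h : s ^ 2 = a) (hs : 0 < s.re) : a ^ (1 / 2 : ℂ) = s := by
  rw [← h, one_div]
  exact Complex.sq_cpow_two_inv hs

theorem sqrt_aux {x : ℝ} (hx : 0 ≤ x) : ∃ u : ℂ, u ^ 2 = 1 + x * I ∧ 1 ≤ u.re ∧ 0 ≤ u.im := by
  set r := Real.sqrt (1 + x ^ 2) with hr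
  have hr2 : r ^ 2 = 1 + x ^ 2 := Real.sq_sqrt (by positivity)
  have hr1 : 1 ≤ r := Real.one_le_sqrt.2 (by nlinarith [sq_nonneg x])
  set m := Real.sqrt ((r + 1) / 2) with hm
  set n := Real.sqrt ((r - 1) / 2) with hn
  have hm2 : m ^ 2 = (r + 1) / 2 := Real.sq_sqrt (by linarith)
  have hn2 : n ^ 2 = (r - 1) / 2 := Real.sq_sqrt (by linarith)
  have hm0 : 0 ≤ m := Real.sqrt_nonneg _
  have hn0 : 0 ≤ n := Real.sqrt_nonneg _
  have hm1 : 1 ≤ m := Real.one_le_sqrt.2 (by linarith)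
  have hmn : 2 * (m * n) = x := by
    have h1 : (2 * (m * n)) ^ 2 = x ^ 2 := by
      have : (2 * (m * n)) ^ 2 = 4 * (m ^ 2 * n ^ 2) := by ring
      rw [this, hm2, hn2]
      nlinarith
    exact (pow_left_inj₀ (by positivity) hx two_ne_zero).1 h1
  refine ⟨⟨m, n⟩, ?_, hm1, hn0⟩
  apply Complex.ext
  · simp [pow_two]
    nlinarith
  · simp [pow_two]
    nlinarith

theorem sqrt_bd {x : ℝ} (hx : 0 ≤ x) {u : ℂ} (h : u ^ 2 = 1 + x * I) (h1 : 1 ≤ u.re) :
    ‖u - 1‖ ≤ x / 2 ∧ ‖u - 1 - (x / 2 : ℝ) * I‖ ≤ x ^ 2 / 8 ∧ ‖u⁻¹ - 1‖ ≤ x / 2 := by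
  have h2 : 2 ≤ ‖u + 1‖ := by
    have := Complex.re_le_norm (u + 1)
    simp at this
    linarith
  have h3 : 1 ≤ ‖u‖ := h1.trans (Complex.re_le_norm u)
  have h4 : (u - 1) * (u + 1) = x * I := by linear_combination h
  have h5 : ‖u - 1‖ * ‖u + 1‖ = x := by
    rw [← norm_mul, h4, norm_mul, Complex.norm_I, mul_one, Complex.norm_real, Real.norm_eq_abs,
      abs_of_nonneg hx]
  have h6 : ‖u - 1‖ ≤ x / 2 := by
    nlinarith [norm_nonneg (u - 1)]
  refine ⟨h6, ?_, ?_⟩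
  · have h7 : (u - 1 - (x / 2 : ℝ) * I) * (u + 1) * 2 = x * I * (1 - u) := by
      push_cast
      linear_combination 2 * h
    have h8 : ‖u - 1 - (x / 2 : ℝ) * I‖ * ‖u + 1‖ * 2 = x * ‖u - 1‖ := by
      have := congrArg norm h7
      rw [norm_mul, norm_mul, norm_mul, norm_mul, Complex.norm_I, Complex.norm_real, Real.norm_eq_abs,
        abs_of_nonneg hx, norm_sub_rev 1 u, mul_one] at this
      simpa using this
    have h9 : x * ‖u - 1‖ ≤ x * (x / 2) := mul_le_mul_of_nonneg_left h6 hx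
    nlinarith [norm_nonneg (u - 1 - (x / 2 : ℝ) * I)]
  · have hu : u ≠ 0 := by
      intro h0
      rw [h0, norm_zero] at h3
      linarith
    have h7 : u⁻¹ - 1 = -((u - 1) / u) := by field_simp; ring
    rw [h7, norm_neg, norm_div]
    exact (div_le_self (norm_nonneg _) h3).trans h6

theorem exp_sub_exp {z w : ℂ} (hz : z.re ≤ 0) (hw : w.re ≤ 0) : ‖cexp z - cexp w‖ ≤ ‖z - w‖ := by
  have hc : Convex ℝ {z : ℂ | z.re ≤ 0} := convex_halfSpace_re_le 0
  have := Convex.norm_image_sub_le_of_norm_hasDerivWithin_le (𝕜 := ℂ) (f := cexp) (f' := cexp)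
    (s := {z : ℂ | z.re ≤ 0}) (C := 1) (x := w) (y := z)
    (fun x _ => (Complex.hasDerivAt_exp x).hasDerivWithinAt)
    (fun x hx => by
      rw [Complex.norm_exp]
      exact Real.exp_le_one_iff.2 hx) hc hw hz
  simpa using this

/-- `e^{-iπ/4}` -/
noncomputable def ze : ℂ := ((Real.sqrt 2)⁻¹ : ℝ) * (1 - I)

theorem ze_sq : ze ^ 2 = -I := by
  unfold ze
  have h : (((Real.sqrt 2)⁻¹ : ℝ) : ℂ) ^ 2 = 1 / 2 := by
    rw [← Complex.ofReal_pow, inv_pow, Real.sq_sqrt (by norm_num)]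
    push_cast
    norm_num
  rw [mul_pow, h]
  linear_combination (1 / 2 : ℂ) * I_sq

theorem ze_inv : ze⁻¹ = cexp (I * ((Real.pi / 4 : ℝ) : ℂ)) := by
  have h1 : cexp (I * ((Real.pi / 4 : ℝ) : ℂ)) * ze = 1 := by
    rw [mul_comm I, Complex.exp_mul_I, ← Complex.ofReal_cos, ← Complex.ofReal_sin,
      Real.cos_pi_div_four, Real.sin_pi_div_four]
    unfold ze
    have h2 : ((Real.sqrt 2 / 2 : ℝ) : ℂ) * (((Real.sqrt 2)⁻¹ : ℝ) : ℂ) = 1 / 2 := by
      rw [← Complex.ofReal_mul]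
      have : Real.sqrt 2 / 2 * (Real.sqrt 2)⁻¹ = 1 / 2 := by
        have : Real.sqrt 2 ≠ 0 := by positivity
        field_simp
      rw [this]
      norm_num
    calc (((Real.sqrt 2 / 2 : ℝ) : ℂ) + ((Real.sqrt 2 / 2 : ℝ) : ℂ) * I) * ((((Real.sqrt 2)⁻¹ : ℝ) : ℂ) * (1 - I))
        = ((Real.sqrt 2 / 2 : ℝ) : ℂ) * (((Real.sqrt 2)⁻¹ : ℝ) : ℂ) * (1 - I ^ 2) := by ring
      _ = 1 := by rw [h2, I_sq]; norm_num
  exact inv_eq_of_mul_eq_one_left h1

theorem root {r g x : ℝ} (hr : 0 < r) (hg : g = r * x) {u : ℂ} (h : u ^ 2 = 1 + x * I)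
    (h1 : 1 ≤ u.re) (h2 : 0 ≤ u.im) :
    ((g : ℝ) - r * I : ℂ) ^ (1 / 2 : ℂ) = (Real.sqrt r : ℂ) * ze * u := by
  apply cpow_half
  · rw [mul_pow, mul_pow, ze_sq, h, ← Complex.ofReal_pow, Real.sq_sqrt hr.le, hg]
    push_cast
    linear_combination (-(r : ℂ) * x) * I_sq
  · have hs : 0 < Real.sqrt r := Real.sqrt_pos.2 hr
    have h2' : 0 < (Real.sqrt 2)⁻¹ := by positivity
    have e : ((Real.sqrt r : ℂ) * ze * u).re = Real.sqrt r * (Real.sqrt 2)⁻¹ * (u.re + u.im) := by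
      unfold ze
      generalize (Real.sqrt 2)⁻¹ = c2
      simp
      ring
    rw [e]
    have : 0 < u.re + u.im := by linarith
    positivity

theorem sqrt_two_term {y : ℝ} (hy : 0 ≤ y) : |Real.sqrt (1 + y) - (1 + y / 2)| ≤ y ^ 2 / 8 := by
  have h1 : Real.sqrt (1 + y) ≤ 1 + y / 2 := by
    rw [Real.sqrt_le_left (by linarith)]
    nlinarith
  have h2 : 1 ≤ Real.sqrt (1 + y) := Real.one_le_sqrt.2 (by linarith)
  have h3 : Real.sqrt (1 + y) ^ 2 = 1 + y := Real.sq_sqrt (by linarith)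
  rw [abs_sub_comm, abs_of_nonneg (by linarith)]
  -- `(1+y/2)² - s² = y²/4`
  have h4 : (1 + y / 2 - Real.sqrt (1 + y)) * (1 + y / 2 + Real.sqrt (1 + y)) = y ^ 2 / 4 := by
    nlinarith
  nlinarith

theorem half_J0_gen {G t ρ : ℝ} {k : ℕ} (hG : 0 < G) (ht : 0 < t) (hρ : 0 < ρ) (hk : 1 ≤ k)
    (hkt : (k : ℝ) ≤ t) :
    ‖((2 * Real.pi * k / (t + Real.pi * k / 6)) ^ (-(1 / 4) : ℝ) : ℝ) *
        (Real.sqrt Real.pi / ((G : ℝ) - (t + Real.pi * k / 6 : ℝ) * I : ℂ) ^ (1 / 2 : ℂ) *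
          cexp (-(2 * (((G : ℝ) - (t + Real.pi * k / 6 : ℝ) * I : ℂ) ^ (1 / 2 : ℂ) *
            ((2 * ρ : ℝ) - 2 * Real.pi * I * k : ℂ) ^ (1 / 2 : ℂ))))) - U6.J0 G t k‖
        ≤ 3 * ((k : ℝ) * t) ^ (-(1 / 4) : ℝ) *
          (ρ * Real.sqrt (t / k) + Real.sqrt (k * t) * ((G / t) ^ 2 + (ρ / k) ^ 2) +
            Real.sqrt (k * t) * (k / t) ^ 2 + G * Real.sqrt (k / t) * (k / t) + k / t + G / t) := by
  have hpi := Real.pi_pos
  have hpi3 := Real.pi_gt_three
  have hpi4 := Real.pi_lt_d2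
  have hk0 : (0 : ℝ) < k := by exact_mod_cast hk
  set t' : ℝ := t + Real.pi * k / 6 with ht'
  have htt' : t ≤ t' := by rw [ht']; have : 0 < Real.pi * k := by positivity
                           linarith
  have ht'0 : 0 < t' := by linarith
  have ht'2 : t' ≤ 2 * t := by
    have : Real.pi * k ≤ 3.15 * t := mul_le_mul hpi4.le hkt hk0.le (by norm_num)
    rw [ht']
    linarith
  set x : ℝ := G / t' with hx
  set y : ℝ := ρ / (Real.pi * k) with hy
  have hx0 : 0 ≤ x := by positivity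
  have hy0 : 0 ≤ y := by positivity
  obtain ⟨u, hu, hu1, hu2⟩ := sqrt_aux hx0
  obtain ⟨v, hv, hv1, hv2⟩ := sqrt_aux hy0
  obtain ⟨bu1, bu2, bu3⟩ := sqrt_bd hx0 hu hu1
  obtain ⟨bv1, bv2, _⟩ := sqrt_bd hy0 hv hv1
  have hp : ((G : ℝ) - (t' : ℝ) * I : ℂ) ^ (1 / 2 : ℂ) = (Real.sqrt t' : ℂ) * ze * u :=
    root ht'0 (by rw [hx]; field_simp) hu hu1 hu2
  have hq : ((2 * ρ : ℝ) - 2 * Real.pi * I * k : ℂ) ^ (1 / 2 : ℂ) =
      (Real.sqrt (2 * Real.pi * k) : ℂ) * ze * v := by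
    have := root (r := 2 * Real.pi * k) (g := 2 * ρ) (by positivity)
      (by rw [hy]; field_simp) hv hv1 hv2
    rw [← this]
    congr 1
    push_cast
    ring
  rw [hp, hq]
  set R : ℝ := Real.sqrt (2 * Real.pi * k * t') with hR
  have hRm : Real.sqrt t' * Real.sqrt (2 * Real.pi * k) = R := by
    rw [hR, ← Real.sqrt_mul ht'0.le, mul_comm t']
  have hR0 : 0 ≤ R := Real.sqrt_nonneg _
  set z : ℂ := -(2 * ((Real.sqrt t' : ℂ) * ze * u * ((Real.sqrt (2 * Real.pi * k) : ℂ) * ze * v))) with hz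
  have hz' : z = 2 * I * R * (u * v) := by
    rw [hz, ← hRm]
    push_cast
    linear_combination (-2 * (Real.sqrt t' : ℂ) * (Real.sqrt (2 * Real.pi * k) : ℂ) * u * v) * ze_sq
  set w : ℂ := I * (U6.ph k t : ℝ) - (G * Real.sqrt (2 * Real.pi * k / t) : ℝ) with hw
  have hzre : z.re ≤ 0 := by
    have e : z.re = -(2 * R * (u.re * v.im + u.im * v.re)) := by
      rw [hz']
      simp
    rw [e]
    have h1 : 0 ≤ u.re * v.im + u.im * v.re := by
      have := mul_nonneg (by linarith : 0 ≤ u.re) hv2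
      have := mul_nonneg hu2 (by linarith : 0 ≤ v.re)
      linarith
    have : 0 ≤ 2 * R * (u.re * v.im + u.im * v.re) := by positivity
    linarith
  have hwre : w.re ≤ 0 := by
    have e : w.re = -(G * Real.sqrt (2 * Real.pi * k / t)) := by
      rw [hw]
      simp
    rw [e]
    have : 0 ≤ G * Real.sqrt (2 * Real.pi * k / t) := by positivity
    linarith
  set c' : ℝ := (Real.pi / 2) ^ (1 / 4 : ℝ) * ((k : ℝ) * t') ^ (-(1 / 4) : ℝ) with hc'
  set c : ℝ := (Real.pi / 2) ^ (1 / 4 : ℝ) * ((k : ℝ) * t) ^ (-(1 / 4) : ℝ) with hc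
  have hc'0 : 0 ≤ c' := by positivity
  have hc0 : 0 ≤ c := by positivity
  have hcc : c' ≤ c := by
    rw [hc, hc']
    apply mul_le_mul_of_nonneg_left _ (by positivity)
    exact Real.rpow_le_rpow_of_nonpos (by positivity) (mul_le_mul_of_nonneg_left htt' hk0.le) (by norm_num)
  have hcd : c - c' ≤ c * (Real.pi * k / (6 * t)) := by
    have h1 : c' = c * (t / t') ^ (1 / 4 : ℝ) := by
      rw [hc, hc', mul_assoc]
      congr 1
      rw [Real.mul_rpow hk0.le ht'0.le, Real.mul_rpow hk0.le ht.le, Real.div_rpow ht.le ht'0.le,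
        Real.rpow_neg ht.le, Real.rpow_neg ht'0.le, mul_assoc]
      congr 1
      have : t ^ (1 / 4 : ℝ) ≠ 0 := (Real.rpow_pos_of_pos ht _).ne'
      field_simp
    have h2 : t / t' ≤ (t / t') ^ (1 / 4 : ℝ) := by
      have h3 : t / t' ≤ 1 := (div_le_one ht'0).2 htt'
      calc t / t' = (t / t') ^ (1 : ℝ) := (Real.rpow_one _).symm
        _ ≤ (t / t') ^ (1 / 4 : ℝ) :=
          Real.rpow_le_rpow_of_exponent_ge (by positivity) h3 (by norm_num)
    have h3 : 1 - t / t' ≤ Real.pi * k / (6 * t) := by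
      have : 1 - t / t' = (Real.pi * k / 6) / t' := by
        rw [ht']
        field_simp
        ring
      rw [this]
      calc Real.pi * k / 6 / t' ≤ Real.pi * k / 6 / t :=
            div_le_div_of_nonneg_left (by positivity) ht htt'
        _ = Real.pi * k / (6 * t) := by field_simp
    rw [h1]
    calc c - c * (t / t') ^ (1 / 4 : ℝ) = c * (1 - (t / t') ^ (1 / 4 : ℝ)) := by ring
      _ ≤ c * (Real.pi * k / (6 * t)) := mul_le_mul_of_nonneg_left (by linarith) hc0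
  -- the main quantity
  have hu0 : u ≠ 0 := by
    intro h0
    rw [h0] at hu1
    simp at hu1
    linarith
  have hze0 : ze ≠ 0 := by
    intro h0
    have := ze_sq
    rw [h0] at this
    simp at this
  have hst0 : ((Real.sqrt t' : ℝ) : ℂ) ≠ 0 := by
    rw [Complex.ofReal_ne_zero]
    positivity
  have hM : (((2 * Real.pi * k / t') ^ (-(1 / 4) : ℝ) : ℝ) : ℂ) *
      (Real.sqrt Real.pi / ((Real.sqrt t' : ℂ) * ze * u) * cexp z) =
      cexp (I * ((Real.pi / 4 : ℝ) : ℂ)) * (c' * (u⁻¹ * cexp z)) := by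
    have h1 : (2 * Real.pi * k / t') ^ (-(1 / 4) : ℝ) * (Real.sqrt Real.pi / Real.sqrt t') = c' := by
      rw [hc', Real.sqrt_eq_rpow, Real.sqrt_eq_rpow, Real.mul_rpow hk0.le ht'0.le,
        Real.div_rpow (by positivity) ht'0.le, Real.mul_rpow (by positivity) hk0.le,
        Real.mul_rpow (by norm_num) hpi.le, Real.div_rpow hpi.le (by norm_num)]
      have e1 : Real.pi ^ (1 / 4 : ℝ) = Real.pi ^ (-(1 / 4) : ℝ) * Real.pi ^ (1 / 2 : ℝ) := by
        rw [← Real.rpow_add hpi]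
        norm_num
      have e2 : t' ^ (-(1 / 4) : ℝ) * t' ^ (-(1 / 4) : ℝ) = (t' ^ (1 / 2 : ℝ))⁻¹ := by
        rw [← Real.rpow_add ht'0, ← Real.rpow_neg ht'0.le]
        norm_num
      have e3 : (2 : ℝ) ^ (-(1 / 4) : ℝ) = ((2 : ℝ) ^ (1 / 4 : ℝ))⁻¹ := by
        rw [← Real.rpow_neg (by norm_num)]
      have e4 : t' ^ (1 / 2 : ℝ) ≠ 0 := (Real.rpow_pos_of_pos ht'0 _).ne'
      have e5 : t' ^ (-(1 / 4) : ℝ) ≠ 0 := (Real.rpow_pos_of_pos ht'0 _).ne'
      rw [e1, e3]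
      have e6 : t' ^ (-(1 / 4) : ℝ) = (t' ^ (1 / 2 : ℝ))⁻¹ / t' ^ (-(1 / 4) : ℝ) := by
        rw [← e2]
        field_simp
      rw [show (2 ^ (1 / 4 : ℝ))⁻¹ * Real.pi ^ (-(1 / 4) : ℝ) * (k : ℝ) ^ (-(1 / 4) : ℝ) /
          t' ^ (-(1 / 4) : ℝ) * (Real.pi ^ (1 / 2 : ℝ) / t' ^ (1 / 2 : ℝ)) =
        (2 ^ (1 / 4 : ℝ))⁻¹ * Real.pi ^ (-(1 / 4) : ℝ) * (k : ℝ) ^ (-(1 / 4) : ℝ) *
          Real.pi ^ (1 / 2 : ℝ) * ((t' ^ (1 / 2 : ℝ))⁻¹ / t' ^ (-(1 / 4) : ℝ)) by
          field_simp, ← e6]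
      field_simp
    rw [← ze_inv, ← h1]
    push_cast
    field_simp
  have hJ : U6.J0 G t k = cexp (I * ((Real.pi / 4 : ℝ) : ℂ)) * (c * cexp w) := by
    unfold U6.J0
    have e1 : cexp (I * ((U6.ph k t + Real.pi / 4 : ℝ) : ℂ)) =
        cexp (I * ((Real.pi / 4 : ℝ) : ℂ)) * cexp (I * (U6.ph k t : ℝ)) := by
      rw [← Complex.exp_add]
      congr 1
      push_cast
      ring
    have e2 : cexp w = cexp (I * (U6.ph k t : ℝ)) *
        ((Real.exp (-(G * Real.sqrt (2 * Real.pi * k / t))) : ℝ) : ℂ) := by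
      rw [Complex.ofReal_exp, ← Complex.exp_add, hw]
      congr 1
      push_cast
      ring
    rw [e1, e2, hc]
    push_cast
    ring
  rw [hM, hJ, ← mul_sub, norm_mul]
  have hn : ‖cexp (I * ((Real.pi / 4 : ℝ) : ℂ))‖ = 1 := by
    rw [mul_comm]
    exact Complex.norm_exp_ofReal_mul_I _
  rw [hn, one_mul]
  have ez : ‖cexp z‖ ≤ 1 := by
    rw [Complex.norm_exp]
    exact Real.exp_le_one_iff.2 hzre
  have ew : ‖cexp w‖ ≤ 1 := by
    rw [Complex.norm_exp]
    exact Real.exp_le_one_iff.2 hwre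
  have hsplit : ‖(c' : ℂ) * (u⁻¹ * cexp z) - c * cexp w‖ ≤
      c * (x / 2) + c * ‖z - w‖ + c * (Real.pi * k / (6 * t)) := by
    have e : (c' : ℂ) * (u⁻¹ * cexp z) - c * cexp w =
        c' * ((u⁻¹ - 1) * cexp z) + c' * (cexp z - cexp w) + ((c' - c : ℝ) : ℂ) * cexp w := by
      push_cast
      ring
    rw [e]
    refine (norm_add₃_le).trans ?_
    rw [norm_mul, norm_mul, norm_mul, norm_mul, Complex.norm_real, Complex.norm_real,
      Real.norm_eq_abs, Real.norm_eq_abs, abs_of_nonneg hc'0]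
    have h1 : ‖u⁻¹ - 1‖ * ‖cexp z‖ ≤ x / 2 * 1 := mul_le_mul bu3 ez (norm_nonneg _) (by positivity)
    have h2 := exp_sub_exp hzre hwre
    have h3 : |c' - c| ≤ c * (Real.pi * k / (6 * t)) := by
      rw [abs_sub_comm, abs_of_nonneg (by linarith)]
      exact hcd
    have h4 : |c' - c| * ‖cexp w‖ ≤ c * (Real.pi * k / (6 * t)) * 1 :=
      mul_le_mul h3 ew (norm_nonneg _) (by positivity)
    have h5 : c' * (‖u⁻¹ - 1‖ * ‖cexp z‖) ≤ c * (x / 2) := by
      calc c' * (‖u⁻¹ - 1‖ * ‖cexp z‖) ≤ c' * (x / 2 * 1) := mul_le_mul_of_nonneg_left h1 hc'0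
        _ ≤ c * (x / 2 * 1) := mul_le_mul_of_nonneg_right hcc (by positivity)
        _ = c * (x / 2) := by ring
    have h6 : c' * ‖cexp z - cexp w‖ ≤ c * ‖z - w‖ :=
      mul_le_mul hcc h2 (norm_nonneg _) hc0
    linarith
  -- the exponent
  have hs1 : Real.sqrt (k * t) ^ 2 = k * t := Real.sq_sqrt (by positivity)
  set q : ℝ := Real.sqrt (k * t) with hqd
  have hq0 : 0 < q := Real.sqrt_pos.2 (by positivity)
  have hRq : R ≤ 4 * q := by
    rw [hR, Real.sqrt_le_left (by positivity), mul_pow, hs1]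
    have : 2 * Real.pi * k * t' ≤ 2 * Real.pi * k * (2 * t) :=
      mul_le_mul_of_nonneg_left ht'2 (by positivity)
    have h2 : Real.pi * (k * t) ≤ 4 * (k * t) := mul_le_mul_of_nonneg_right Real.pi_le_four (mul_pos hk0 ht).le
    linarith
  have hE : ‖z - w‖ ≤ R / 2 * (x ^ 2 + y ^ 2) + R * y + |2 * R - U6.ph k t| +
      |G * Real.sqrt (2 * Real.pi * k / t) - R * x| := by
    have e : z - w = 2 * I * R * ((u - 1 - (x / 2 : ℝ) * I) + (v - 1 - (y / 2 : ℝ) * I) +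
        (u - 1) * (v - 1)) + -((R * y : ℝ) : ℂ) + I * ((2 * R - U6.ph k t : ℝ) : ℂ) +
        ((G * Real.sqrt (2 * Real.pi * k / t) - R * x : ℝ) : ℂ) := by
      rw [hz', hw]
      push_cast
      linear_combination ((R : ℂ) * x + R * y) * I_sq
    rw [e]
    refine (norm_add_le _ _).trans (add_le_add ((norm_add_le _ _).trans (add_le_add
      ((norm_add_le _ _).trans (add_le_add ?_ ?_)) ?_)) ?_)
    · have h1 : ‖(u - 1 - (x / 2 : ℝ) * I) + (v - 1 - (y / 2 : ℝ) * I) + (u - 1) * (v - 1)‖ ≤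
          (x ^ 2 + y ^ 2) / 4 := by
        refine (norm_add₃_le).trans ?_
        rw [norm_mul]
        have : ‖u - 1‖ * ‖v - 1‖ ≤ x / 2 * (y / 2) :=
          mul_le_mul bu1 bv1 (norm_nonneg _) (by positivity)
        linarith [two_mul_le_add_sq x y]
      have h2 : ‖(2 * I * R : ℂ)‖ = 2 * R := by
        rw [norm_mul, norm_mul, Complex.norm_I, Complex.norm_real, Real.norm_eq_abs, abs_of_nonneg hR0]
        norm_num
      rw [norm_mul, h2]
      calc 2 * R * ‖(u - 1 - (x / 2 : ℝ) * I) + (v - 1 - (y / 2 : ℝ) * I) + (u - 1) * (v - 1)‖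
          ≤ 2 * R * ((x ^ 2 + y ^ 2) / 4) := mul_le_mul_of_nonneg_left h1 (by positivity)
        _ = R / 2 * (x ^ 2 + y ^ 2) := by ring
    · rw [norm_neg, Complex.norm_real, Real.norm_eq_abs, abs_of_nonneg (by positivity)]
    · rw [norm_mul, Complex.norm_I, one_mul, Complex.norm_real, Real.norm_eq_abs]
    · rw [Complex.norm_real, Real.norm_eq_abs]
  have hxt : x ≤ G / t := div_le_div_of_nonneg_left hG.le ht htt'
  have hyk : y ≤ ρ / k := by
    rw [hy]
    apply div_le_div_of_nonneg_left hρ.le hk0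
    exact le_mul_of_one_le_left hk0.le (by linarith)
  have b1 : R / 2 * (x ^ 2 + y ^ 2) ≤ 2 * (q * ((G / t) ^ 2 + (ρ / k) ^ 2)) := by
    have h1 : x ^ 2 + y ^ 2 ≤ (G / t) ^ 2 + (ρ / k) ^ 2 :=
      add_le_add (pow_le_pow_left₀ hx0 hxt 2) (pow_le_pow_left₀ hy0 hyk 2)
    calc R / 2 * (x ^ 2 + y ^ 2) ≤ (4 * q) / 2 * ((G / t) ^ 2 + (ρ / k) ^ 2) :=
          mul_le_mul (by linarith) h1 (by positivity) (by positivity)
      _ = 2 * (q * ((G / t) ^ 2 + (ρ / k) ^ 2)) := by ring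
  have b2 : R * y ≤ 2 * (ρ * Real.sqrt (t / k)) := by
    have h1 : Real.sqrt (t / k) = q / k := by
      rw [hqd, show t / k = k * t / k ^ 2 by field_simp, Real.sqrt_div (by positivity),
        Real.sqrt_sq hk0.le]
    rw [h1, hy]
    calc R * (ρ / (Real.pi * k)) ≤ (4 * q) * (ρ / (Real.pi * k)) :=
          mul_le_mul_of_nonneg_right hRq (by positivity)
      _ = 4 / Real.pi * (ρ * (q / k)) := by field_simp
      _ ≤ 2 * (ρ * (q / k)) := by
          apply mul_le_mul_of_nonneg_right _ (by positivity)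
          rw [div_le_iff₀ hpi]
          linarith
  -- the two square roots
  set Y : ℝ := Real.pi * k / (6 * t) with hY
  have hY0 : 0 ≤ Y := by positivity
  set R0 : ℝ := Real.sqrt (2 * Real.pi * k * t) with hR0d
  have hR00 : 0 ≤ R0 := Real.sqrt_nonneg _
  have hR0q : R0 ≤ 3 * q := by
    rw [hR0d, Real.sqrt_le_left (by positivity), mul_pow, hs1]
    have h1 := mul_pos hk0 ht
    have h2 : Real.pi * (k * t) ≤ 3.15 * (k * t) := mul_le_mul_of_nonneg_right hpi4.le h1.le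
    linarith
  have hRR : R = R0 * Real.sqrt (1 + Y) := by
    rw [hR, hR0d, ← Real.sqrt_mul (by positivity)]
    congr 1
    rw [ht', hY]
    field_simp
  have hph : U6.ph k t = 2 * R0 * (1 + Y / 2) := by
    unfold U6.ph
    have h1 : Real.sqrt 2 / 6 * (Real.pi * k * Real.sqrt (Real.pi * k)) / Real.sqrt t = R0 * Y := by
      rw [hR0d, hY]
      have e1 : Real.sqrt (2 * Real.pi * k * t) = Real.sqrt 2 * Real.sqrt (Real.pi * k) * Real.sqrt t := by
        rw [← Real.sqrt_mul (by norm_num), ← Real.sqrt_mul (by positivity)]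
        congr 1
        ring
      rw [e1]
      have e2 : Real.sqrt t ^ 2 = t := Real.sq_sqrt ht.le
      have e3 : Real.sqrt t ≠ 0 := (Real.sqrt_pos.2 ht).ne'
      have e4 : Real.sqrt 2 * Real.sqrt (Real.pi * k) * Real.sqrt t * (Real.pi * k / (6 * t)) =
          Real.sqrt 2 * Real.sqrt (Real.pi * k) * Real.sqrt t * (Real.pi * k / (6 * Real.sqrt t ^ 2)) := by
        rw [e2]
      rw [e4]
      field_simp
    rw [h1]
    ring
  have b3 : |2 * R - U6.ph k t| ≤ q * (k / t) ^ 2 := by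
    rw [hRR, hph, show 2 * (R0 * Real.sqrt (1 + Y)) - 2 * R0 * (1 + Y / 2) =
      2 * R0 * (Real.sqrt (1 + Y) - (1 + Y / 2)) by ring, abs_mul, abs_of_nonneg (by positivity)]
    have h1 := sqrt_two_term hY0
    have h2 : Y ^ 2 = (Real.pi / 6) ^ 2 * (k / t) ^ 2 := by
      rw [hY]
      field_simp
    calc 2 * R0 * |Real.sqrt (1 + Y) - (1 + Y / 2)| ≤ 2 * (3 * q) * (Y ^ 2 / 8) :=
          mul_le_mul (by linarith) h1 (abs_nonneg _) (by positivity)
      _ = (3 / 4 * (Real.pi / 6) ^ 2) * (q * (k / t) ^ 2) := by rw [h2]; ring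
      _ ≤ 1 * (q * (k / t) ^ 2) := by
          apply mul_le_mul_of_nonneg_right _ (by positivity)
          have h3 : (Real.pi / 6) ^ 2 ≤ 1 := pow_le_one₀ (by positivity) (by linarith)
          linarith
      _ = q * (k / t) ^ 2 := one_mul _
  have b4 : |G * Real.sqrt (2 * Real.pi * k / t) - R * x| ≤ 2 * (G * Real.sqrt (k / t) * (k / t)) := by
    have e1 : R * x = G * Real.sqrt (2 * Real.pi * k / t') := by
      rw [hR, hx, show 2 * Real.pi * k / t' = 2 * Real.pi * k * t' / t' ^ 2 by field_simp,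
        Real.sqrt_div (by positivity), Real.sqrt_sq ht'0.le]
      ring
    have e2 : Real.sqrt (2 * Real.pi * k / t') ≤ Real.sqrt (2 * Real.pi * k / t) :=
      Real.sqrt_le_sqrt (div_le_div_of_nonneg_left (by positivity) ht htt')
    rw [e1, ← mul_sub, abs_of_nonneg (mul_nonneg hG.le (by linarith)),
      show 2 * (G * Real.sqrt (k / t) * (k / t)) = G * (2 * (Real.sqrt (k / t) * (k / t))) by ring]
    apply mul_le_mul_of_nonneg_left _ hG.le
    have e3 : Real.sqrt (2 * Real.pi * k / t') = Real.sqrt (2 * Real.pi * k / t) * Real.sqrt (t / t') := by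
      rw [← Real.sqrt_mul (by positivity)]
      congr 1
      field_simp
    have e4 : t / t' ≤ Real.sqrt (t / t') := by
      apply Real.le_sqrt_of_sq_le
      have h3 : t / t' ≤ 1 := (div_le_one ht'0).2 htt'
      have h4 : 0 ≤ t / t' := by positivity
      exact pow_le_of_le_one h4 h3 two_ne_zero
    have e5 : 1 - t / t' ≤ Real.pi * k / (6 * t) := by
      have : 1 - t / t' = (Real.pi * k / 6) / t' := by
        rw [ht']
        field_simp
        ring
      rw [this]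
      calc Real.pi * k / 6 / t' ≤ Real.pi * k / 6 / t :=
            div_le_div_of_nonneg_left (by positivity) ht htt'
        _ = Real.pi * k / (6 * t) := by field_simp
    have e7 : Real.sqrt (2 * Real.pi * k / t) = Real.sqrt (2 * Real.pi) * Real.sqrt (k / t) := by
      rw [← Real.sqrt_mul (by positivity)]
      congr 1
      ring
    have e8 : Real.sqrt (2 * Real.pi) ≤ 3 := by
      rw [Real.sqrt_le_left (by norm_num)]
      linarith
    rw [e3]
    calc Real.sqrt (2 * Real.pi * k / t) - Real.sqrt (2 * Real.pi * k / t) * Real.sqrt (t / t')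
        = Real.sqrt (2 * Real.pi * k / t) * (1 - Real.sqrt (t / t')) := by ring
      _ ≤ Real.sqrt (2 * Real.pi * k / t) * (Real.pi * k / (6 * t)) :=
          mul_le_mul_of_nonneg_left (by linarith) (Real.sqrt_nonneg _)
      _ = (Real.sqrt (2 * Real.pi) * (Real.pi / 6)) * (Real.sqrt (k / t) * (k / t)) := by
          rw [e7]; field_simp
      _ ≤ 2 * (Real.sqrt (k / t) * (k / t)) := by
          apply mul_le_mul_of_nonneg_right _ (by positivity)
          exact (mul_le_mul e8 (show Real.pi / 6 ≤ 6 / 10 by linarith) (by positivity)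
            (by norm_num)).trans (by norm_num)
  have hc112 : (Real.pi / 2) ^ (1 / 4 : ℝ) ≤ 6 / 5 := by
    have : (Real.pi / 2) ^ (1 / 4 : ℝ) ≤ ((6 / 5 : ℝ) ^ (4 : ℝ)) ^ (1 / 4 : ℝ) := by
      apply Real.rpow_le_rpow (by positivity) _ (by norm_num)
      have : (6 / 5 : ℝ) ^ (4 : ℝ) = (6 / 5 : ℝ) ^ (4 : ℕ) := by
        rw [← Real.rpow_natCast]; norm_num
      rw [this]
      linarith
    rwa [← Real.rpow_mul (by norm_num), show (4 : ℝ) * (1 / 4) = 1 by norm_num, Real.rpow_one] at this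
  refine hsplit.trans ?_
  have hx' : x / 2 ≤ G / t := by
    have : 0 ≤ G / t := by positivity
    linarith
  have hY' : Real.pi * k / (6 * t) ≤ k / t := by
    rw [show Real.pi * k / (6 * t) = Real.pi / 6 * (k / t) by field_simp]
    have : 0 ≤ (k : ℝ) / t := by positivity
    exact mul_le_of_le_one_left this (by linarith)
  have hfin : x / 2 + ‖z - w‖ + Real.pi * k / (6 * t) ≤ 5 / 2 * (ρ * Real.sqrt (t / k) +
      q * ((G / t) ^ 2 + (ρ / k) ^ 2) +
            q * (k / t) ^ 2 + G * Real.sqrt (k / t) * (k / t) + k / t + G / t) := by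
    have p1 : 0 ≤ ρ * Real.sqrt (t / k) := by positivity
    have p2 : 0 ≤ q * ((G / t) ^ 2 + (ρ / k) ^ 2) := by positivity
    have p3 : 0 ≤ q * (k / t) ^ 2 := by positivity
    have p4 : 0 ≤ G * Real.sqrt (k / t) * (k / t) := by positivity
    have p5 : 0 ≤ (k : ℝ) / t := by positivity
    have p6 : 0 ≤ G / t := by positivity
    linarith
  calc c * (x / 2) + c * ‖z - w‖ + c * (Real.pi * k / (6 * t))
      = c * (x / 2 + ‖z - w‖ + Real.pi * k / (6 * t)) := by ring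
    _ ≤ (6 / 5 * ((k : ℝ) * t) ^ (-(1 / 4) : ℝ)) * (5 / 2 * (ρ * Real.sqrt (t / k) +
      q * ((G / t) ^ 2 + (ρ / k) ^ 2) +
            q * (k / t) ^ 2 + G * Real.sqrt (k / t) * (k / t) + k / t + G / t)) := by
        apply mul_le_mul _ hfin (by positivity) (by positivity)
        rw [hc]
        exact mul_le_mul_of_nonneg_right hc112 (by positivity)
    _ = _ := by ring

end M12
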