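import Pool.Agent.Lib.MP_39df77_nt.U6.B05
import Pool.Agent.Lib.MP_39df77_nt.M12.Half
/-! General window width `T^{1/4} ≤ G ≤ T^{2/5}`: `II - J0` and `Z - 2 Re Y`. -/
open Complex MeasureTheory Set
namespace M12
open U6

/-- truncation for the width `G` -/
noncomputable def KG (G ε T : ℝ) : ℕ := ⌈T ^ (1 + 4 * ε) / G ^ 2⌉₊

theorem II_pos_gen {ε : ℝ} (hε : 0 < ε) (hε1 : ε ≤ 1 / 200) :
    ∃ T₀ C : ℝ, 0 < C ∧ ∀ T t ρ G : ℝ, ∀ k : ℕ, T₀ ≤ T → T ≤ t → t ≤ 4 * T →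
      T ^ (1 / 4 : ℝ) ≤ G → G ≤ T ^ (2 / 5 : ℝ) → 1 ≤ k → k < KG G ε T →
      0 < ρ → ρ ≤ k / NN T →
      ‖II G t k ρ - J0 G t k‖ ≤ C * ((k * T) ^ (-(1 / 2) : ℝ) + T ^ (-(5 / 8) + 9 * ε)) := by
  obtain ⟨C2, hC20, hC2⟩ := bes_half
  have ev2 : ∀ᶠ T : ℝ in Filter.atTop, Real.log T ≤ T ^ ε := by
    have := (isLittleO_log_rpow_atTop hε).bound (c := 1) one_pos
    filter_upwards [this, Filter.eventually_ge_atTop 1] with T hT h1
    rw [Real.norm_eq_abs, Real.norm_eq_abs, abs_of_nonneg (Real.rpow_nonneg (by linarith) _), one_mul] at hT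
    exact (le_abs_self _).trans hT
  obtain ⟨T₀, hT₀⟩ := Filter.eventually_atTop.1 (ev2.and (Filter.eventually_ge_atTop (1:ℝ)))
  refine ⟨T₀, C2 + 80, by positivity, fun T t ρ G k hT ht1 ht2 hG1 hG2 hk1 hkK hρ hρN => ?_⟩
  obtain ⟨hlog, hT1⟩ := hT₀ T hT
  have hT0 : 0 < T := by linarith
  have ht0 : 0 < t := by linarith
  have hGp : 0 < G := lt_of_lt_of_le (by positivity) hG1
  have hk : (k : ℝ) ≤ T ^ (1 + 4 * ε) / G ^ 2 := (Nat.lt_ceil.1 hkK).le
  have hk1' : (1 : ℝ) ≤ k := by exact_mod_cast hk1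
  have hkp : (0 : ℝ) < k := by linarith
  have hG1' : 1 ≤ G := (Real.one_le_rpow hT1 (by norm_num)).trans hG1
  have hGsq : T ^ (1 / 2 : ℝ) ≤ G ^ 2 := by
    have h := pow_le_pow_left₀ (by positivity) hG1 2
    rwa [← Real.rpow_natCast, ← Real.rpow_mul hT0.le, show (1 / 4 : ℝ) * ((2 : ℕ) : ℝ) = 1 / 2 by norm_num] at h
  have hkG : (k : ℝ) * G ^ 2 ≤ T ^ (1 + 4 * ε) := by
    rwa [le_div_iff₀ (by positivity)] at hk
  have hkT : (k : ℝ) ≤ T ^ (1 / 2 + 4 * ε) := by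
    have h1 : (k : ℝ) * T ^ (1 / 2 : ℝ) ≤ T ^ (1 / 2 + 4 * ε) * T ^ (1 / 2 : ℝ) := by
      rw [← Real.rpow_add hT0]
      refine (mul_le_mul_of_nonneg_left hGsq hkp.le).trans (hkG.trans (le_of_eq ?_))
      congr 1
      ring
    exact le_of_mul_le_mul_right h1 (by positivity)
  have hkT1 : (k : ℝ) ≤ T := by
    refine hkT.trans ?_
    calc T ^ (1 / 2 + 4 * ε) ≤ T ^ (1 : ℝ) := Real.rpow_le_rpow_of_exponent_le hT1 (by linarith)
      _ = T := Real.rpow_one T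
  have hkt : (k : ℝ) ≤ t := hkT1.trans ht1
  set t' : ℝ := t + Real.pi * k / 6 with ht'
  have hpi := Real.pi_pos
  have htt' : t ≤ t' := by
    rw [ht']
    have : 0 < Real.pi * k := by positivity
    linarith
  have ht'0 : 0 < t' := by linarith
  set X : ℝ := T ^ (-(5 / 8) + 9 * ε) with hX
  have hX0 : 0 < X := by positivity
  have hXle : ∀ a : ℝ, a ≤ -(5 / 8) + 9 * ε → T ^ a ≤ X := fun a ha =>
    Real.rpow_le_rpow_of_exponent_le hT1 ha
  have hN0 : 0 < NN T := by unfold NN; positivity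
  -- first step
  have s1 : ‖II G t k ρ - ∫ w in Ioi (0 : ℝ),
      cexp (-(((G : ℝ) - (t' : ℝ) * I) * w) - ((2 * ρ : ℝ) - 2 * Real.pi * I * k) / w) / w‖ ≤ 38 * X := by
    set b := T ^ ε / G with hb
    have hbp : 0 < b := by positivity
    have hbT : b ≤ T ^ (ε - 1 / 4) := by
      rw [hb, div_le_iff₀ hGp]
      calc T ^ ε = T ^ (ε - 1 / 4) * T ^ (1 / 4 : ℝ) := by
            rw [← Real.rpow_add hT0]; congr 1; ring
        _ ≤ T ^ (ε - 1 / 4) * G := mul_le_mul_of_nonneg_left hG1 (by positivity)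
    have hb1 : b ≤ 1 := hbT.trans (Real.rpow_le_one_of_one_le_of_nonpos hT1 (by linarith))
    have hkb : (k : ℝ) * b ^ 3 ≤ T ^ (-(1 / 4) + 7 * ε) := by
      have e1 : (k : ℝ) * b ^ 3 = k * G ^ 2 * b ^ 2 * b / G ^ 2 := by field_simp
      have e2 : b ^ 2 * G ^ 2 = T ^ (2 * ε) := by
        rw [hb, div_pow, div_mul_cancel₀ _ (by positivity), ← Real.rpow_natCast, ← Real.rpow_mul hT0.le]
        congr 1; push_cast; ring
      have e3 : (k : ℝ) * b ^ 3 * T ^ (1 / 2 : ℝ) ≤ T ^ (-(1 / 4) + 7 * ε) * T ^ (1 / 2 : ℝ) := by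
        calc (k : ℝ) * b ^ 3 * T ^ (1 / 2 : ℝ) ≤ (k : ℝ) * b ^ 3 * G ^ 2 :=
              mul_le_mul_of_nonneg_left hGsq (by positivity)
          _ = (k : ℝ) * G ^ 2 * (b ^ 2 * G ^ 2) * b / G ^ 2 := by field_simp
          _ ≤ T ^ (1 + 4 * ε) * T ^ (2 * ε) * T ^ (ε - 1 / 4) / T ^ (1 / 2 : ℝ) := by
              rw [e2]
              gcongr
          _ = T ^ (-(1 / 4) + 7 * ε) * T ^ (1 / 2 : ℝ) := by
              rw [div_eq_mul_inv, ← Real.rpow_neg hT0.le, ← Real.rpow_add hT0, ← Real.rpow_add hT0,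
                ← Real.rpow_add hT0, ← Real.rpow_add hT0]
              congr 1; ring
      exact le_of_mul_le_mul_right e3 (by positivity)
    have hkb1 : (k : ℝ) * b ^ 3 ≤ 1 :=
      hkb.trans (Real.rpow_le_one_of_one_le_of_nonpos hT1 (by linarith))
    have hρ1 : ρ ≤ 1 := by
      refine hρN.trans ?_
      rw [div_le_one hN0]
      unfold NN
      exact hkT.trans (Real.rpow_le_rpow_of_exponent_le hT1 (by linarith))
    have hmain := B01h.b01_main (G := G) (t := t) (ρ := ρ) (b := b) (k := k) hGp hρ hρ1 hbp hb1 hk1 hkb1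
    refine hmain.trans ?_
    have p1 : b * Real.sqrt (b ^ 3 / k) ≤ X := by
      have : Real.sqrt (b ^ 3 / k) ≤ T ^ (3 / 2 * (ε - 1 / 4)) := by
        have e : (T ^ (3 / 2 * (ε - 1 / 4))) ^ 2 = (T ^ (ε - 1 / 4)) ^ 3 := by
          rw [← Real.rpow_natCast, ← Real.rpow_natCast, ← Real.rpow_mul hT0.le, ← Real.rpow_mul hT0.le]
          congr 1; push_cast; ring
        rw [Real.sqrt_le_left (by positivity), e]
        exact (div_le_self (by positivity) hk1').trans (pow_le_pow_left₀ hbp.le hbT 3)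
      calc b * Real.sqrt (b ^ 3 / k) ≤ T ^ (ε - 1 / 4) * T ^ (3 / 2 * (ε - 1 / 4)) :=
            mul_le_mul hbT this (Real.sqrt_nonneg _) (by positivity)
        _ = T ^ (5 / 2 * (ε - 1 / 4)) := by rw [← Real.rpow_add hT0]; congr 1; ring
        _ ≤ X := hXle _ (by linarith)
    have p2 : k * b ^ 2 * Real.sqrt (b ^ 3 / k) ≤ X := by
      have e1 : k * Real.sqrt (b ^ 3 / k) = Real.sqrt (k * b ^ 3) := by
        have : (k : ℝ) * b ^ 3 = k ^ 2 * (b ^ 3 / k) := by field_simp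
        rw [this, Real.sqrt_mul (by positivity), Real.sqrt_sq hkp.le]
      have e2 : Real.sqrt (k * b ^ 3) ≤ T ^ ((-(1 / 4) + 7 * ε) / 2) := by
        have e : (T ^ ((-(1 / 4) + 7 * ε) / 2)) ^ 2 = T ^ (-(1 / 4) + 7 * ε) := by
          rw [← Real.rpow_natCast, ← Real.rpow_mul hT0.le]
          congr 1; push_cast; ring
        rw [Real.sqrt_le_left (by positivity), e]
        exact hkb
      have e3 : b ^ 2 ≤ T ^ (2 * (ε - 1 / 4)) := by
        have := pow_le_pow_left₀ hbp.le hbT 2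
        rwa [← Real.rpow_natCast (T ^ (ε - 1 / 4)), ← Real.rpow_mul hT0.le,
          show (ε - 1 / 4) * ((2 : ℕ) : ℝ) = 2 * (ε - 1 / 4) by push_cast; ring] at this
      calc k * b ^ 2 * Real.sqrt (b ^ 3 / k) = b ^ 2 * (k * Real.sqrt (b ^ 3 / k)) := by ring
        _ = b ^ 2 * Real.sqrt (k * b ^ 3) := by rw [e1]
        _ ≤ T ^ (2 * (ε - 1 / 4)) * T ^ ((-(1 / 4) + 7 * ε) / 2) :=
            mul_le_mul e3 e2 (Real.sqrt_nonneg _) (by positivity)
        _ = T ^ (-(5 / 8) + 11 / 2 * ε) := by rw [← Real.rpow_add hT0]; congr 1; ring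
        _ ≤ X := hXle _ (by linarith)
    have hGb : G * b = T ^ ε := by
      rw [hb]; field_simp
    have p3 : 2 / b * (Real.exp (-G * b) / G) ≤ 2 * X := by
      have e1 : 2 / b * (Real.exp (-G * b) / G) = 2 * (Real.exp (-G * b) / (G * b)) := by field_simp
      rw [e1]
      have e2 : (1 : ℝ) ≤ G * b := by rw [hGb]; exact Real.one_le_rpow hT1 hε.le
      have e3 : Real.exp (-G * b) / (G * b) ≤ Real.exp (-G * b) := div_le_self (Real.exp_pos _).le e2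
      have e4 : Real.exp (-G * b) ≤ T ^ (-(1:ℝ)) := by
        have e5 : T ^ (-(1:ℝ)) = Real.exp (-Real.log T) := by
          rw [Real.rpow_def_of_pos hT0]; congr 1; ring
        rw [neg_mul, hGb, e5]
        apply Real.exp_le_exp.2
        linarith
      have e5 : T ^ (-(1:ℝ)) ≤ X := hXle _ (by linarith)
      linarith
    calc 18 * (b + k * b ^ 2) * Real.sqrt (b ^ 3 / k) + 2 / b * (Real.exp (-G * b) / G)
        = 18 * (b * Real.sqrt (b ^ 3 / k)) + 18 * (k * b ^ 2 * Real.sqrt (b ^ 3 / k)) +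
          2 / b * (Real.exp (-G * b) / G) := by ring
      _ ≤ 38 * X := by linarith
  -- second step
  have s2 := B04_key G t' ρ k hGp ht'0 hρ hk1 hC2
  have s2' : C2 / Real.sqrt (k * t') ≤ C2 * ((k : ℝ) * T) ^ (-(1 / 2) : ℝ) := by
    have e3 : 0 < (k : ℝ) * T := by positivity
    have e4 : 0 < Real.sqrt (k * T) := Real.sqrt_pos.mpr e3
    calc C2 / Real.sqrt (k * t') ≤ C2 / Real.sqrt (k * T) := by
          apply div_le_div_of_nonneg_left hC20.le e4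
          exact Real.sqrt_le_sqrt (mul_le_mul_of_nonneg_left (ht1.trans htt') hkp.le)
      _ = C2 * ((k : ℝ) * T) ^ (-(1 / 2) : ℝ) := by
          rw [Real.sqrt_eq_rpow, div_eq_mul_inv, ← Real.rpow_neg e3.le]
  -- third step
  have s3 := half_J0_gen (G := G) hGp ht0 hρ hk1 hkt
  rw [← ht'] at s3
  have s3' : 3 * ((k : ℝ) * t) ^ (-(1 / 4) : ℝ) *
          (ρ * Real.sqrt (t / k) + Real.sqrt (k * t) * ((G / t) ^ 2 + (ρ / k) ^ 2) +
            Real.sqrt (k * t) * (k / t) ^ 2 + G * Real.sqrt (k / t) * (k / t) + k / t + G / t) ≤ 39 * X := by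
    have hkt0 : 0 < (k : ℝ) * t := by positivity
    set r : ℝ := ((k : ℝ) * t) ^ (-(1 / 4) : ℝ) with hr
    have hr0 : 0 < r := by positivity
    have hrT : r ≤ T ^ (-(1 / 4) : ℝ) :=
      Real.rpow_le_rpow_of_nonpos hT0 (by nlinarith) (by norm_num)
    have hrq : r * Real.sqrt (k * t) ≤ 2 * T ^ (3 / 8 + ε) := by
      have e1 : r * Real.sqrt (k * t) = ((k : ℝ) * t) ^ (1 / 4 : ℝ) := by
        rw [hr, Real.sqrt_eq_rpow, ← Real.rpow_add hkt0]
        norm_num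
      have e2 : (k : ℝ) * t ≤ 4 * T ^ (3 / 2 + 4 * ε) := by
        calc (k : ℝ) * t ≤ T ^ (1 / 2 + 4 * ε) * (4 * T) := mul_le_mul hkT ht2 ht0.le (by positivity)
          _ = 4 * (T ^ (1 / 2 + 4 * ε) * T ^ (1 : ℝ)) := by rw [Real.rpow_one]; ring
          _ = 4 * T ^ (3 / 2 + 4 * ε) := by rw [← Real.rpow_add hT0]; congr 2; ring
      rw [e1]
      calc ((k : ℝ) * t) ^ (1 / 4 : ℝ) ≤ (4 * T ^ (3 / 2 + 4 * ε)) ^ (1 / 4 : ℝ) :=
            Real.rpow_le_rpow hkt0.le e2 (by norm_num)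
        _ = (4 : ℝ) ^ (1 / 4 : ℝ) * T ^ (3 / 8 + ε) := by
            rw [Real.mul_rpow (by norm_num) (by positivity), ← Real.rpow_mul hT0.le]
            congr 2; ring
        _ ≤ 2 * T ^ (3 / 8 + ε) := by
            apply mul_le_mul_of_nonneg_right _ (by positivity)
            calc (4 : ℝ) ^ (1 / 4 : ℝ) ≤ (16 : ℝ) ^ (1 / 4 : ℝ) :=
                  Real.rpow_le_rpow (by norm_num) (by norm_num) (by norm_num)
              _ = 2 := by
                  rw [show (16 : ℝ) = 2 ^ (4 : ℝ) by norm_num, ← Real.rpow_mul (by norm_num)]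
                  norm_num
    have hkt1 : (k : ℝ) / t ≤ T ^ (-(1 / 2) + 4 * ε) := by
      rw [div_le_iff₀ ht0]
      calc (k : ℝ) ≤ T ^ (1 / 2 + 4 * ε) := hkT
        _ = T ^ (-(1 / 2) + 4 * ε) * T := by
            rw [← Real.rpow_add_one hT0.ne']; congr 1; ring
        _ ≤ T ^ (-(1 / 2) + 4 * ε) * t := mul_le_mul_of_nonneg_left ht1 (by positivity)
    have hρk : ρ / k ≤ T ^ (-(3 / 2) : ℝ) := by
      rw [div_le_iff₀ hkp, Real.rpow_neg hT0.le]
      refine hρN.trans (le_of_eq ?_)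
      unfold NN
      rw [div_eq_inv_mul]
    -- the six terms
    have q1 : r * (ρ * Real.sqrt (t / k)) ≤ 2 * X := by
      have e1 : Real.sqrt (t / k) = Real.sqrt (k * t) / k := by
        rw [show t / k = k * t / k ^ 2 by field_simp, Real.sqrt_div (by positivity),
          Real.sqrt_sq hkp.le]
      calc r * (ρ * Real.sqrt (t / k)) = (r * Real.sqrt (k * t)) * (ρ / k) := by rw [e1]; ring
        _ ≤ (2 * T ^ (3 / 8 + ε)) * T ^ (-(3 / 2) : ℝ) :=
            mul_le_mul hrq hρk (by positivity) (by positivity)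
        _ = 2 * T ^ (-(9 / 8) + ε) := by rw [mul_assoc, ← Real.rpow_add hT0]; congr 2; ring
        _ ≤ 2 * X := by have := hXle (-(9 / 8) + ε) (by linarith); linarith
    have q2 : r * (Real.sqrt (k * t) * ((G / t) ^ 2 + (ρ / k) ^ 2)) ≤ 4 * X := by
      have e1 : (G / t) ^ 2 ≤ T ^ (-(6 / 5) : ℝ) := by
        have e2 : G / t ≤ T ^ (-(3 / 5) : ℝ) := by
          rw [div_le_iff₀ ht0]
          calc G ≤ T ^ (2 / 5 : ℝ) := hG2
            _ = T ^ (-(3 / 5) : ℝ) * T := by rw [← Real.rpow_add_one hT0.ne']; norm_num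
            _ ≤ T ^ (-(3 / 5) : ℝ) * t := mul_le_mul_of_nonneg_left ht1 (by positivity)
        calc (G / t) ^ 2 ≤ (T ^ (-(3 / 5) : ℝ)) ^ 2 := pow_le_pow_left₀ (by positivity) e2 2
          _ = T ^ (-(6 / 5) : ℝ) := by
              rw [← Real.rpow_natCast, ← Real.rpow_mul hT0.le]; norm_num
      have e2 : (ρ / k) ^ 2 ≤ T ^ (-(6 / 5) : ℝ) := by
        calc (ρ / k) ^ 2 ≤ (T ^ (-(3 / 2) : ℝ)) ^ 2 := pow_le_pow_left₀ (by positivity) hρk 2
          _ = T ^ (-3 : ℝ) := by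
              rw [← Real.rpow_natCast, ← Real.rpow_mul hT0.le]; norm_num
          _ ≤ T ^ (-(6 / 5) : ℝ) := Real.rpow_le_rpow_of_exponent_le hT1 (by norm_num)
      calc r * (Real.sqrt (k * t) * ((G / t) ^ 2 + (ρ / k) ^ 2))
          = (r * Real.sqrt (k * t)) * ((G / t) ^ 2 + (ρ / k) ^ 2) := by ring
        _ ≤ (2 * T ^ (3 / 8 + ε)) * (2 * T ^ (-(6 / 5) : ℝ)) :=
            mul_le_mul hrq (by linarith) (by positivity) (by positivity)
        _ = 4 * T ^ (-(33 / 40) + ε) := by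
            rw [show 2 * T ^ (3 / 8 + ε) * (2 * T ^ (-(6 / 5) : ℝ)) =
              4 * (T ^ (3 / 8 + ε) * T ^ (-(6 / 5) : ℝ)) by ring, ← Real.rpow_add hT0]
            congr 2; ring
        _ ≤ 4 * X := by have := hXle (-(33 / 40) + ε) (by linarith); linarith
    have q3 : r * (Real.sqrt (k * t) * (k / t) ^ 2) ≤ 2 * X := by
      calc r * (Real.sqrt (k * t) * (k / t) ^ 2) = (r * Real.sqrt (k * t)) * (k / t) ^ 2 := by ring
        _ ≤ (2 * T ^ (3 / 8 + ε)) * (T ^ (-(1 / 2) + 4 * ε)) ^ 2 :=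
            mul_le_mul hrq (pow_le_pow_left₀ (by positivity) hkt1 2) (by positivity) (by positivity)
        _ = 2 * X := by
            rw [hX, ← Real.rpow_natCast (T ^ (-(1 / 2) + 4 * ε)), ← Real.rpow_mul hT0.le, mul_assoc,
              ← Real.rpow_add hT0]
            congr 2; push_cast; ring
    have q4 : r * (G * Real.sqrt (k / t) * (k / t)) ≤ X := by
      have e1 : G * Real.sqrt (k / t) ≤ T ^ (2 * ε) := by
        have e2 : G * Real.sqrt (k / t) = Real.sqrt (k * G ^ 2 / t) := by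
          rw [show (k : ℝ) * G ^ 2 / t = G ^ 2 * (k / t) by ring, Real.sqrt_mul (by positivity),
            Real.sqrt_sq hGp.le]
        rw [e2, Real.sqrt_le_left (by positivity), div_le_iff₀ ht0]
        calc (k : ℝ) * G ^ 2 ≤ T ^ (1 + 4 * ε) := hkG
          _ = (T ^ (2 * ε)) ^ 2 * T := by
              rw [← Real.rpow_natCast, ← Real.rpow_mul hT0.le, ← Real.rpow_add_one hT0.ne']
              congr 1; push_cast; ring
          _ ≤ (T ^ (2 * ε)) ^ 2 * t := mul_le_mul_of_nonneg_left ht1 (by positivity)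
      calc r * (G * Real.sqrt (k / t) * (k / t)) ≤ T ^ (-(1 / 4) : ℝ) * (T ^ (2 * ε) * T ^ (-(1 / 2) + 4 * ε)) :=
            mul_le_mul hrT (mul_le_mul e1 hkt1 (by positivity) (by positivity)) (by positivity) (by positivity)
        _ = T ^ (-(3 / 4) + 6 * ε) := by
            rw [← Real.rpow_add hT0, ← Real.rpow_add hT0]; congr 1; ring
        _ ≤ X := hXle _ (by linarith)
    have q5 : r * (k / t) ≤ X := by
      calc r * (k / t) ≤ T ^ (-(1 / 4) : ℝ) * T ^ (-(1 / 2) + 4 * ε) :=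
            mul_le_mul hrT hkt1 (by positivity) (by positivity)
        _ = T ^ (-(3 / 4) + 4 * ε) := by rw [← Real.rpow_add hT0]; congr 1; ring
        _ ≤ X := hXle _ (by linarith)
    have q6 : r * (G / t) ≤ X := by
      have e2 : G / t ≤ T ^ (-(3 / 5) : ℝ) := by
        rw [div_le_iff₀ ht0]
        calc G ≤ T ^ (2 / 5 : ℝ) := hG2
          _ = T ^ (-(3 / 5) : ℝ) * T := by rw [← Real.rpow_add_one hT0.ne']; norm_num
          _ ≤ T ^ (-(3 / 5) : ℝ) * t := mul_le_mul_of_nonneg_left ht1 (by positivity)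
      calc r * (G / t) ≤ T ^ (-(1 / 4) : ℝ) * T ^ (-(3 / 5) : ℝ) :=
            mul_le_mul hrT e2 (by positivity) (by positivity)
        _ = T ^ (-(17 / 20) : ℝ) := by rw [← Real.rpow_add hT0]; norm_num
        _ ≤ X := hXle _ (by linarith)
    calc _ = 3 * (r * (ρ * Real.sqrt (t / k)) + r * (Real.sqrt (k * t) * ((G / t) ^ 2 + (ρ / k) ^ 2)) +
            r * (Real.sqrt (k * t) * (k / t) ^ 2) + r * (G * Real.sqrt (k / t) * (k / t)) + r * (k / t) +
            r * (G / t)) := by ring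
      _ ≤ 39 * X := by linarith
  have hlast : (C2 + 80) * (((k : ℝ) * T) ^ (-(1 / 2) : ℝ) + X) =
      C2 * ((k : ℝ) * T) ^ (-(1 / 2) : ℝ) + 80 * ((k : ℝ) * T) ^ (-(1 / 2) : ℝ) + C2 * X + 80 * X := by ring
  have hp1 : 0 ≤ ((k : ℝ) * T) ^ (-(1 / 2) : ℝ) := by positivity
  have hp2 : 0 ≤ C2 * X := by positivity
  rw [hlast]
  refine (norm_sub_le_norm_sub_add_norm_sub _ (∫ w in Ioi (0 : ℝ),
      cexp (-(((G : ℝ) - (t' : ℝ) * I) * w) - ((2 * ρ : ℝ) - 2 * Real.pi * I * k) / w) / w) _).trans ?_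
  have s4 := norm_sub_le_norm_sub_add_norm_sub (∫ w in Ioi (0 : ℝ),
      cexp (-(((G : ℝ) - (t' : ℝ) * I) * w) - ((2 * ρ : ℝ) - 2 * Real.pi * I * k) / w) / w)
      (((2 * Real.pi * k / t') ^ (-(1 / 4) : ℝ) : ℝ) *
        (Real.sqrt Real.pi / ((G : ℝ) - (t' : ℝ) * I : ℂ) ^ (1 / 2 : ℂ) *
          cexp (-(2 * (((G : ℝ) - (t' : ℝ) * I : ℂ) ^ (1 / 2 : ℂ) *
            ((2 * ρ : ℝ) - 2 * Real.pi * I * k : ℂ) ^ (1 / 2 : ℂ)))))) (J0 G t k)
  linarith

theorem Z_Y_gen {ε : ℝ} (hε : 0 < ε) (hε1 : ε ≤ 1 / 400) :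
    ∃ T₀ : ℝ, ∀ T t G : ℝ, T₀ ≤ T → T ≤ t → t ≤ 4 * T → T ^ (1 / 4 : ℝ) ≤ G → G ≤ T ^ (2 / 5 : ℝ) →
      |Z (NN T) G t - 2 * (Y G t (KG G ε T)).re| ≤ 1 := by
  obtain ⟨Tp, Cp, hCp, hTp⟩ := II_pos_gen hε (by linarith)
  obtain ⟨C1, hC1, hneg⟩ := II_neg
  obtain ⟨C2, hC2, hinf⟩ := II_inf
  obtain ⟨C3, hC3, hdv⟩ := dv_le (1 / 200) (by norm_num)
  -- the constant `∑ 1/((h+1)(m+1))²`
  have hs1 : Summable (fun n : ℕ => 1 / ((n : ℝ) + 1) ^ 2) := by
    have := (summable_nat_add_iff 1).2 (Real.summable_one_div_nat_pow.2 (le_refl 2))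
    simpa using this
  have hs2 : Summable (fun p : ℕ × ℕ => 1 / (((p.1 + 1) * (p.2 + 1) : ℕ) : ℝ) ^ 2) := by
    have := hs1.mul_of_nonneg hs1 (fun n => by positivity) (fun n => by positivity)
    refine this.congr fun p => ?_
    push_cast
    rw [mul_pow, one_div_mul_one_div]
  set S0 : ℝ := ∑' p : ℕ × ℕ, 1 / (((p.1 + 1) * (p.2 + 1) : ℕ) : ℝ) ^ 2 with hS0
  have hS0n : 0 ≤ S0 := tsum_nonneg fun p => by positivity
  -- conditions on `T`
  have hev1 : ∀ᶠ T : ℝ in Filter.atTop, 8 ≤ T ^ ε :=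
    (tendsto_rpow_atTop hε).eventually_ge_atTop 8
  have hev2 : ∀ᶠ T : ℝ in Filter.atTop, 6 ≤ T ^ (1 / 4 - ε) :=
    (tendsto_rpow_atTop (by linarith)).eventually_ge_atTop 6
  have hev3 : ∀ᶠ T : ℝ in Filter.atTop, 2 * S0 * C2 * (T ^ (7 : ℝ) * Real.exp (-(T ^ ε))) ≤ 1 / 4 := by
    have h1 := (tendsto_rpow_mul_exp_neg_mul_atTop_nhds_zero (7 / ε) 1 one_pos).comp
      (tendsto_rpow_atTop hε)
    have h1' := h1.const_mul (2 * S0 * C2)
    rw [mul_zero] at h1'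
    have h2 := h1'.eventually_le_const (show (0 : ℝ) < 1 / 4 by norm_num)
    filter_upwards [h2, Filter.eventually_gt_atTop 0] with T h3 hT
    have e1 : (T ^ ε) ^ (7 / ε) = T ^ (7 : ℝ) := by
      rw [← Real.rpow_mul hT.le]
      congr 1
      field_simp
    simp only [Function.comp_apply, e1, neg_mul, one_mul] at h3
    exact h3
  have hev4 : ∀ᶠ T : ℝ in Filter.atTop,
      2 * S0 * C1 * (T ^ (1 : ℝ) * Real.exp (-(T ^ (1 / 4 : ℝ)))) ≤ 1 / 4 := by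
    have h1 := (tendsto_rpow_mul_exp_neg_mul_atTop_nhds_zero 4 1 one_pos).comp
      (tendsto_rpow_atTop (y := 1 / 4) (by norm_num))
    have h1' := h1.const_mul (2 * S0 * C1)
    rw [mul_zero] at h1'
    have h2 := h1'.eventually_le_const (show (0 : ℝ) < 1 / 4 by norm_num)
    filter_upwards [h2, Filter.eventually_gt_atTop 0] with T h3 hT
    have e1 : (T ^ (1 / 4 : ℝ)) ^ (4 : ℝ) = T ^ (1 : ℝ) := by
      rw [← Real.rpow_mul hT.le]
      norm_num
    simp only [Function.comp_apply, e1, neg_mul, one_mul] at h3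
    exact h3
  have hev5 : ∀ᶠ T : ℝ in Filter.atTop, 48 * (Cp * C3) ≤ T ^ (1 / 20 : ℝ) :=
    (tendsto_rpow_atTop (by norm_num)).eventually_ge_atTop (48 * (Cp * C3))
  obtain ⟨T₀, hT₀⟩ := Filter.eventually_atTop.1
    (((hev1.and hev2).and (hev3.and hev4)).and (hev5.and
      ((Filter.eventually_ge_atTop (4 : ℝ)).and (Filter.eventually_ge_atTop Tp))))
  refine ⟨T₀, fun T t G hT ht1 ht2 hGl hGu => ?_⟩
  obtain ⟨⟨⟨c1, c2⟩, c3, c4⟩, c5, hT4, hTTp⟩ := hT₀ T hT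
  have hT0 : 0 < T := by linarith
  have hT1 : 1 ≤ T := by linarith
  set N := NN T with hN
  set K := KG G ε T with hK
  have hN1 : 1 ≤ N := Real.one_le_rpow hT1 (by norm_num)
  have hN0 : 0 < N := by linarith
  have hG1 : 4 * T ^ ε + 2 ≤ G := by
    have e1 : T ^ (1 / 4 : ℝ) = T ^ ε * T ^ (1 / 4 - ε) := by
      rw [← Real.rpow_add hT0]
      congr 1
      ring
    refine le_trans ?_ hGl
    rw [e1]
    nlinarith
  have hG4 : 4 ≤ G := by linarith
  have hG0 : 0 < G := by linarith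
  have ht0 : 1 ≤ t := by linarith
  have ht0' : 0 < t := by linarith
  have hRt : T ^ ε ≤ t := by
    have := Real.rpow_le_rpow_of_exponent_le hT1 (show ε ≤ 1 by linarith)
    rw [Real.rpow_one] at this
    linarith
  have hGt : G ≤ t := by
    have := Real.rpow_le_rpow_of_exponent_le hT1 (show (2 / 5 : ℝ) ≤ 1 by norm_num)
    rw [Real.rpow_one] at this
    linarith
  have htT : t ^ 3 ≤ T ^ (6 : ℝ) := by
    calc t ^ 3 ≤ (T * T) ^ 3 := pow_le_pow_left₀ ht0'.le (by nlinarith) 3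
      _ = T ^ (6 : ℝ) := by
          rw [show (6 : ℝ) = ((6 : ℕ) : ℝ) by norm_num, Real.rpow_natCast]
          ring
  have hGsq : T ^ (1 / 2 : ℝ) ≤ G ^ 2 := by
    have h := pow_le_pow_left₀ (by positivity) hGl 2
    rwa [← Real.rpow_natCast, ← Real.rpow_mul hT0.le, show (1 / 4 : ℝ) * ((2 : ℕ) : ℝ) = 1 / 2 by norm_num] at h
  -- the double series
  let F : ℕ → ℤ → ℂ := fun h m => (-1 : ℂ) ^ ((h : ℤ) * m) * II G t (h * m) ((h : ℝ) / N)
  have hFn : ∀ h m, ‖F h m‖ = ‖II G t (h * m) ((h : ℝ) / N)‖ := by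
    intro h m
    change ‖(-1 : ℂ) ^ ((h : ℤ) * m) * _‖ = _
    rw [norm_mul, norm_zpow, norm_neg, norm_one, one_zpow, one_mul]
  have hFs : ∀ h : ℕ, Summable (F (h + 1)) := by
    intro h
    apply Summable.of_norm
    refine (II_summable (t := t) hN1 hG4 (h + 1) (by omega)).congr fun m => ?_
    rw [hFn]
  let v : ℕ × ℕ → ℂ := fun p => F (p.1 + 1) (p.2 + 1) + F (p.1 + 1) (-(p.2 + 1))
  have hA : ∀ h : ℕ, ∑' n : ℕ, f N G t (h + 1) (n + 1) =
      II G t 0 ((h + 1 : ℝ) / N) + ∑' m : ℕ, v (h, m) := by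
    intro h
    have h1 := poisson_h (t := t) hN1 hG4 (h + 1) (by omega)
    push_cast at h1
    have h2 : ∑' m : ℤ, (-1 : ℂ) ^ (((h : ℤ) + 1) * m) * II G t ((h + 1) * m) (((h : ℝ) + 1) / N) =
        ∑' m : ℤ, F (h + 1) m := by
      refine tsum_congr fun m => ?_
      change _ = (-1 : ℂ) ^ (((h + 1 : ℕ) : ℤ) * m) * II G t ((h + 1 : ℕ) * m) (((h + 1 : ℕ) : ℝ) / N)
      push_cast
      rfl
    rw [h1, h2]
    have hs := hFs h
    have hp : Summable (fun n : ℕ => F (h + 1) (n : ℤ)) :=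
      hs.comp_injective Nat.cast_injective
    have hp' : Summable (fun n : ℕ => F (h + 1) ((n : ℤ) + 1)) := by
      have := (summable_nat_add_iff 1).2 hp
      simpa using this
    have hn : Summable (fun n : ℕ => F (h + 1) (-((n : ℤ) + 1))) := by
      refine hs.comp_injective (i := fun n : ℕ => -((n : ℤ) + 1)) fun a b hab => ?_
      dsimp only at hab
      omega
    rw [tsum_of_nat_of_neg_add_one hp hn, hp.tsum_eq_zero_add, add_assoc]
    congr 1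
    · change (-1 : ℂ) ^ (((h + 1 : ℕ) : ℤ) * ((0 : ℕ) : ℤ)) * II G t ((h + 1 : ℕ) * ((0 : ℕ) : ℤ))
        (((h + 1 : ℕ) : ℝ) / N) = _
      simp
    · have e0 : ∀ b : ℕ, F (h + 1) ((b + 1 : ℕ) : ℤ) = F (h + 1) ((b : ℤ) + 1) := fun b => by
        rw [Nat.cast_add_one]
      rw [tsum_congr e0, ← hp'.tsum_add hn]
  -- bounds
  let j : ℕ → ℂ := fun k => if k < K then (-1) ^ k * J0 G t k else 0
  let F1 : ℕ → ℝ := fun k => Cp * ((k * T) ^ (-(1 / 2) : ℝ) + T ^ (-(5 / 8) + 9 * ε))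
  let F2 : ℕ → ℝ := fun k => if k < K then F1 k else 0
  set c0 : ℝ := C2 * t ^ 3 * Real.exp (-(T ^ ε)) + C1 * Real.exp (-Real.sqrt t) with hc0
  have hF1 : ∀ k, 0 ≤ F1 k := fun k => by
    change 0 ≤ Cp * ((k * T) ^ (-(1 / 2) : ℝ) + T ^ (-(5 / 8) + 9 * ε))
    positivity
  have hu : ∀ p : ℕ × ℕ, ‖v p - j ((p.1 + 1) * (p.2 + 1))‖ ≤
      F2 ((p.1 + 1) * (p.2 + 1)) + c0 * (1 / (((p.1 + 1) * (p.2 + 1) : ℕ) : ℝ) ^ 2) := by
    rintro ⟨h, m⟩
    dsimp only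
    set k : ℕ := (h + 1) * (m + 1) with hk
    have hk1 : 1 ≤ k := Nat.one_le_iff_ne_zero.2 (by rw [hk]; positivity)
    have hk0 : (0 : ℝ) < (k : ℝ) ^ 2 := by positivity
    have hhk : h + 1 ≤ k := by rw [hk]; nlinarith
    have hρ : 0 < ((h + 1 : ℕ) : ℝ) / N := by positivity
    have eP : F (h + 1) (m + 1) = (-1) ^ k * II G t (k : ℤ) (((h + 1 : ℕ) : ℝ) / N) := by
      have e1 : ((h + 1 : ℕ) : ℤ) * ((m : ℤ) + 1) = ((k : ℕ) : ℤ) := by
        rw [hk]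
        push_cast
        ring
      change (-1 : ℂ) ^ (((h + 1 : ℕ) : ℤ) * ((m : ℤ) + 1)) *
        II G t (((h + 1 : ℕ) : ℤ) * ((m : ℤ) + 1)) (((h + 1 : ℕ) : ℝ) / N) = _
      rw [e1, zpow_natCast]
    have eM : ‖F (h + 1) (-(m + 1))‖ = ‖II G t (-(k : ℤ)) (((h + 1 : ℕ) : ℝ) / N)‖ := by
      have e1 : ((h + 1 : ℕ) : ℤ) * (-((m : ℤ) + 1)) = -((k : ℕ) : ℤ) := by
        rw [hk]
        push_cast
        ring
      rw [hFn, e1]
    have bM : ‖F (h + 1) (-(m + 1))‖ ≤ C1 * Real.exp (-Real.sqrt t) * (1 / (k : ℝ) ^ 2) := by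
      rw [eM]
      refine (hneg G t _ k (by linarith) ht0 hρ hk1).trans (le_of_eq ?_)
      ring
    have hexp2 : 0 ≤ C2 * t ^ 3 * Real.exp (-(T ^ ε)) * (1 / (k : ℝ) ^ 2) := by positivity
    have esum : c0 * (1 / (k : ℝ) ^ 2) = C2 * t ^ 3 * Real.exp (-(T ^ ε)) * (1 / (k : ℝ) ^ 2) +
        C1 * Real.exp (-Real.sqrt t) * (1 / (k : ℝ) ^ 2) := by
      rw [hc0]
      ring
    by_cases hkK : k < K
    · have e2 : j k = (-1) ^ k * J0 G t k := if_pos hkK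
      have e3 : F2 k = F1 k := if_pos hkK
      have e4 : v (h, m) - j k = (-1) ^ k * (II G t (k : ℤ) (((h + 1 : ℕ) : ℝ) / N) - J0 G t k) +
          F (h + 1) (-(m + 1)) := by
        change F (h + 1) (m + 1) + F (h + 1) (-(m + 1)) - j k = _
        rw [eP, e2]
        ring
      have b1 := hTp T t (((h + 1 : ℕ) : ℝ) / N) G k hTTp ht1 ht2 hGl hGu hk1 hkK hρ (by
        apply div_le_div_of_nonneg_right _ hN0.le
        exact_mod_cast hhk)
      rw [e4, e3, esum]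
      refine (norm_add_le _ _).trans ?_
      rw [norm_mul, norm_pow, norm_neg, norm_one, one_pow, one_mul]
      have b2 : ‖II G t (k : ℤ) (((h + 1 : ℕ) : ℝ) / N) - J0 G t k‖ ≤ F1 k := b1
      linarith
    · have e2 : j k = 0 := if_neg hkK
      have e3 : F2 k = 0 := if_neg hkK
      have b1 := hinf G t (((h + 1 : ℕ) : ℝ) / N) (T ^ ε) k hρ hk1 c1 hRt hGt hG1 (by
        have h1 : T ^ (1 + 4 * ε) / G ^ 2 ≤ k := by
          refine (Nat.le_ceil _).trans ?_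
          have : K ≤ k := not_lt.1 hkK
          exact_mod_cast this
        rw [div_le_iff₀ (by positivity)] at h1
        refine le_trans ?_ h1
        calc (T ^ ε) ^ 3 * t ≤ (T ^ ε) ^ 3 * (4 * T) :=
              mul_le_mul_of_nonneg_left ht2 (by positivity)
          _ ≤ (T ^ ε) ^ 3 * (T ^ ε * T) := by
              apply mul_le_mul_of_nonneg_left _ (by positivity)
              exact mul_le_mul_of_nonneg_right (by linarith) hT0.le
          _ = T ^ (1 + 4 * ε) := by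
              rw [show (T ^ ε) ^ 3 * (T ^ ε * T) = (T ^ ε) ^ 4 * T by ring, ← Real.rpow_natCast,
                ← Real.rpow_mul hT0.le, ← Real.rpow_add_one hT0.ne']
              congr 1
              push_cast
              ring)
      have e4 : v (h, m) - j k = (-1) ^ k * II G t (k : ℤ) (((h + 1 : ℕ) : ℝ) / N) +
          F (h + 1) (-(m + 1)) := by
        change F (h + 1) (m + 1) + F (h + 1) (-(m + 1)) - j k = _
        rw [eP, e2, sub_zero]
      rw [e4, e3, esum, zero_add]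
      refine (norm_add_le _ _).trans ?_
      rw [norm_mul, norm_pow, norm_neg, norm_one, one_pow, one_mul]
      have b2 : ‖II G t (k : ℤ) (((h + 1 : ℕ) : ℝ) / N)‖ ≤
          C2 * t ^ 3 * Real.exp (-(T ^ ε)) * (1 / (k : ℝ) ^ 2) :=
        b1.trans (le_of_eq (by ring))
      linarith
  -- summability
  have hsupp : ∀ p : ℕ × ℕ, p ∉ SK K → ¬ (p.1 + 1) * (p.2 + 1) < K := fun p hp h => hp (mem_SK.2 h)
  have hjs : HasSum (fun p : ℕ × ℕ => j ((p.1 + 1) * (p.2 + 1)))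
      (∑ p ∈ SK K, j ((p.1 + 1) * (p.2 + 1))) :=
    hasSum_sum_of_ne_finset_zero fun p hp => if_neg (hsupp p hp)
  have hF2s : HasSum (fun p : ℕ × ℕ => F2 ((p.1 + 1) * (p.2 + 1)))
      (∑ p ∈ SK K, F2 ((p.1 + 1) * (p.2 + 1))) :=
    hasSum_sum_of_ne_finset_zero fun p hp => if_neg (hsupp p hp)
  have hβ : HasSum (fun p : ℕ × ℕ => F2 ((p.1 + 1) * (p.2 + 1)) +
      c0 * (1 / (((p.1 + 1) * (p.2 + 1) : ℕ) : ℝ) ^ 2))
      (∑ p ∈ SK K, F2 ((p.1 + 1) * (p.2 + 1)) + c0 * S0) :=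
    hF2s.add (hs2.hasSum.mul_left c0)
  have hus : Summable (fun p : ℕ × ℕ => v p - j ((p.1 + 1) * (p.2 + 1))) :=
    Summable.of_norm_bounded hβ.summable hu
  have hvs : Summable v := by
    have := hus.add hjs.summable
    refine this.congr fun p => ?_
    ring
  have hnorm : ‖∑' p, v p - ∑ p ∈ SK K, j ((p.1 + 1) * (p.2 + 1))‖ ≤
      ∑ p ∈ SK K, F2 ((p.1 + 1) * (p.2 + 1)) + c0 * S0 := by
    rw [← hjs.tsum_eq, ← hvs.tsum_sub hjs.summable]
    exact tsum_of_norm_bounded hβ hu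
  -- `Y`
  have hY : Y G t K = ∑ p ∈ SK K, j ((p.1 + 1) * (p.2 + 1)) := by
    rw [sum_SK, Y]
    refine Finset.sum_congr rfl fun k hk => ?_
    rw [Finset.mem_Ico] at hk
    have e2 : j k = (-1) ^ k * J0 G t k := if_pos hk.2
    rw [e2, nsmul_eq_mul]
    ring
  -- `Z`
  have hfs : Summable (fun h : ℕ => ∑' n : ℕ, f N G t (h + 1) (n + 1)) := by
    have h1 : Summable (fun p : ℕ × ℕ => f N G t (p.1 + 1) (p.2 + 1)) :=
      (f_summable (t := t) hN1 (by linarith : (0 : ℝ) ≤ G)).of_norm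
    exact h1.prod
  have hIIs : Summable (fun h : ℕ => II G t 0 ((h + 1 : ℝ) / N)) :=
    (II_zero_summable (t := t) hN1 (by linarith : (1 : ℝ) ≤ G)).of_norm
  have hZ : Z N G t = 2 * (∑' p, v p).re := by
    rw [Z, B_series hN1 (by linarith : (0 : ℝ) < G), M0]
    have h1 : ∑' p, v p = ∑' h : ℕ, ∑' m : ℕ, v (h, m) := hvs.tsum_prod
    have h2 : ∑' h : ℕ, ∑' n : ℕ, f N G t (h + 1) (n + 1) -
        ∑' h : ℕ, II G t 0 ((h + 1 : ℝ) / N) = ∑' p, v p := by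
      rw [← hfs.tsum_sub hIIs, h1]
      refine tsum_congr fun h => ?_
      rw [hA]
      ring
    rw [← h2, Complex.sub_re]
    ring
  -- the final estimate
  have hsum : ∑ p ∈ SK K, F2 ((p.1 + 1) * (p.2 + 1)) ≤ 12 * (Cp * C3) * T ^ (-(1 / 20) : ℝ) := by
    rw [sum_SK]
    have hGe : T ^ (1 + 4 * ε) / G ^ 2 ≤ T ^ (1 / 2 + 4 * ε) := by
      rw [div_le_iff₀ (by positivity)]
      calc T ^ (1 + 4 * ε) = T ^ (1 / 2 + 4 * ε) * T ^ (1 / 2 : ℝ) := by
            rw [← Real.rpow_add hT0]; congr 1; ring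
        _ ≤ T ^ (1 / 2 + 4 * ε) * G ^ 2 := mul_le_mul_of_nonneg_left hGsq (by positivity)
    have hKc : (K : ℝ) ≤ 2 * T ^ (1 / 2 + 4 * ε) := by
      have h1 : 1 ≤ T ^ (1 / 2 + 4 * ε) := Real.one_le_rpow hT1 (by linarith)
      have h2 : (K : ℝ) < T ^ (1 + 4 * ε) / G ^ 2 + 1 := Nat.ceil_lt_add_one (by positivity)
      linarith
    have hK0 : 1 ≤ K := by
      have h1 : 0 < T ^ (1 + 4 * ε) / G ^ 2 := by positivity
      exact Nat.ceil_pos.2 h1
    have hKe : (K : ℝ) ^ (1 / 200 : ℝ) ≤ 2 * T ^ (1 / 200 : ℝ) := by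
      have h1 : (K : ℝ) ≤ 2 * T := by
        refine hKc.trans ?_
        have : T ^ (1 / 2 + 4 * ε) ≤ T ^ (1 : ℝ) :=
          Real.rpow_le_rpow_of_exponent_le hT1 (by linarith)
        rw [Real.rpow_one] at this
        linarith
      calc (K : ℝ) ^ (1 / 200 : ℝ) ≤ (2 * T) ^ (1 / 200 : ℝ) :=
            Real.rpow_le_rpow (Nat.cast_nonneg K) h1 (by norm_num)
        _ = (2 : ℝ) ^ (1 / 200 : ℝ) * T ^ (1 / 200 : ℝ) := Real.mul_rpow (by norm_num) hT0.le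
        _ ≤ 2 * T ^ (1 / 200 : ℝ) := by
            apply mul_le_mul_of_nonneg_right _ (by positivity)
            calc (2 : ℝ) ^ (1 / 200 : ℝ) ≤ (2 : ℝ) ^ (1 : ℝ) :=
                  Real.rpow_le_rpow_of_exponent_le (by norm_num) (by norm_num)
              _ = 2 := Real.rpow_one 2
    have hterm : ∀ k ∈ Finset.Ico 1 K, dv k • F2 k ≤ C3 * (2 * T ^ (1 / 200 : ℝ)) *
        Cp * ((k : ℝ) ^ (-(1 / 2) : ℝ) * T ^ (-(1 / 2) : ℝ) + T ^ (-(5 / 8) + 9 * ε)) := by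
      intro k hk
      rw [Finset.mem_Ico] at hk
      have e3 : F2 k = F1 k := if_pos hk.2
      have e4 : F1 k = Cp * ((k : ℝ) ^ (-(1 / 2) : ℝ) * T ^ (-(1 / 2) : ℝ) +
          T ^ (-(5 / 8) + 9 * ε)) := by
        change Cp * (((k : ℝ) * T) ^ (-(1 / 2) : ℝ) + T ^ (-(5 / 8) + 9 * ε)) = _
        rw [Real.mul_rpow (Nat.cast_nonneg k) hT0.le]
      rw [nsmul_eq_mul, e3, e4, mul_assoc (C3 * (2 * T ^ (1 / 200 : ℝ)))]
      apply mul_le_mul_of_nonneg_right _ (by positivity)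
      refine (hdv k hk.1).trans (mul_le_mul_of_nonneg_left ?_ hC3.le)
      refine le_trans ?_ hKe
      apply Real.rpow_le_rpow (Nat.cast_nonneg k) _ (by norm_num)
      exact_mod_cast hk.2.le
    refine (Finset.sum_le_sum hterm).trans ?_
    rw [← Finset.mul_sum, Finset.sum_add_distrib, ← Finset.sum_mul, Finset.sum_const,
      Nat.card_Ico, nsmul_eq_mul]
    have hq1 : ∑ k ∈ Finset.Ico 1 K, (k : ℝ) ^ (-(1 / 2) : ℝ) ≤ 4 * T ^ (1 / 4 + 2 * ε) := by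
      have h1 := U6.sum_inv_sqrt (K - 1)
      rw [Nat.sub_add_cancel hK0] at h1
      refine h1.trans ?_
      have h2 : Real.sqrt ((K - 1 : ℕ) : ℝ) ≤ Real.sqrt (4 * T ^ (1 / 2 + 4 * ε)) := by
        apply Real.sqrt_le_sqrt
        have h3 : ((K - 1 : ℕ) : ℝ) ≤ K := by exact_mod_cast Nat.sub_le K 1
        have h4 : 0 ≤ T ^ (1 / 2 + 4 * ε) := by positivity
        linarith
      have h3 : Real.sqrt (4 * T ^ (1 / 2 + 4 * ε)) = 2 * T ^ (1 / 4 + 2 * ε) := by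
        rw [Real.sqrt_eq_iff_mul_self_eq (by positivity) (by positivity)]
        have : T ^ (1 / 2 + 4 * ε) = T ^ (1 / 4 + 2 * ε) * T ^ (1 / 4 + 2 * ε) := by
          rw [← Real.rpow_add hT0]
          congr 1
          ring
        rw [this]
        ring
      rw [h3] at h2
      linarith
    have hq2 : ((K - 1 : ℕ) : ℝ) ≤ 2 * T ^ (1 / 2 + 4 * ε) := by
      have h3 : ((K - 1 : ℕ) : ℝ) ≤ K := by exact_mod_cast Nat.sub_le K 1
      linarith
    have hb1 : T ^ (1 / 200 : ℝ) * (T ^ (1 / 4 + 2 * ε) * T ^ (-(1 / 2) : ℝ)) ≤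
        T ^ (-(1 / 20) : ℝ) := by
      rw [← Real.rpow_add hT0, ← Real.rpow_add hT0]
      exact Real.rpow_le_rpow_of_exponent_le hT1 (by linarith)
    have hb2 : T ^ (1 / 200 : ℝ) * (T ^ (1 / 2 + 4 * ε) *
        T ^ (-(5 / 8) + 9 * ε)) ≤ T ^ (-(1 / 20) : ℝ) := by
      rw [← Real.rpow_add hT0, ← Real.rpow_add hT0]
      exact Real.rpow_le_rpow_of_exponent_le hT1 (by linarith)
    calc C3 * (2 * T ^ (1 / 200 : ℝ)) * Cp *
          ((∑ k ∈ Finset.Ico 1 K, (k : ℝ) ^ (-(1 / 2) : ℝ)) * T ^ (-(1 / 2) : ℝ) +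
            ((K - 1 : ℕ) : ℝ) * T ^ (-(5 / 8) + 9 * ε))
        ≤ C3 * (2 * T ^ (1 / 200 : ℝ)) * Cp *
          (4 * T ^ (1 / 4 + 2 * ε) * T ^ (-(1 / 2) : ℝ) +
            2 * T ^ (1 / 2 + 4 * ε) * T ^ (-(5 / 8) + 9 * ε)) := by
          apply mul_le_mul_of_nonneg_left _ (by positivity)
          exact add_le_add (mul_le_mul_of_nonneg_right hq1 (by positivity))
            (mul_le_mul_of_nonneg_right hq2 (by positivity))
      _ = (Cp * C3) * (8 * (T ^ (1 / 200 : ℝ) *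
            (T ^ (1 / 4 + 2 * ε) * T ^ (-(1 / 2) : ℝ))) +
            4 * (T ^ (1 / 200 : ℝ) * (T ^ (1 / 2 + 4 * ε) *
              T ^ (-(5 / 8) + 9 * ε)))) := by ring
      _ ≤ (Cp * C3) * (8 * T ^ (-(1 / 20) : ℝ) + 4 * T ^ (-(1 / 20) : ℝ)) := by
          apply mul_le_mul_of_nonneg_left _ (by positivity)
          linarith
      _ = 12 * (Cp * C3) * T ^ (-(1 / 20) : ℝ) := by ring
  have hf1 : 2 * (12 * (Cp * C3) * T ^ (-(1 / 20) : ℝ)) ≤ 1 / 2 := by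
    have e1 : T ^ (1 / 20 : ℝ) * T ^ (-(1 / 20) : ℝ) = 1 := by
      rw [← Real.rpow_add hT0]
      norm_num
    have := mul_le_mul_of_nonneg_right c5 (by positivity : 0 ≤ T ^ (-(1 / 20) : ℝ))
    rw [e1] at this
    linarith
  have hT1' : T⁻¹ ≤ 1 := inv_le_one_of_one_le₀ hT1
  have hf2 : 2 * (C2 * t ^ 3 * Real.exp (-(T ^ ε)) * S0) ≤ 1 / 4 := by
    have e1 : T ^ (7 : ℝ) = T ^ (6 : ℝ) * T := by
      rw [show (7 : ℝ) = 6 + 1 by norm_num, Real.rpow_add hT0, Real.rpow_one]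
    have h1 : 2 * (C2 * t ^ 3 * Real.exp (-(T ^ ε)) * S0) ≤
        2 * S0 * C2 * (T ^ (6 : ℝ) * Real.exp (-(T ^ ε))) := by
      have h2 : t ^ 3 * Real.exp (-(T ^ ε)) ≤ T ^ (6 : ℝ) * Real.exp (-(T ^ ε)) :=
        mul_le_mul_of_nonneg_right htT (by positivity)
      have h3 := mul_le_mul_of_nonneg_left h2 (by positivity : 0 ≤ 2 * S0 * C2)
      linarith
    refine h1.trans ?_
    have h2 : 2 * S0 * C2 * (T ^ (6 : ℝ) * Real.exp (-(T ^ ε))) =
        2 * S0 * C2 * (T ^ (7 : ℝ) * Real.exp (-(T ^ ε))) * T⁻¹ := by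
      rw [e1]
      field_simp
    rw [h2]
    calc 2 * S0 * C2 * (T ^ (7 : ℝ) * Real.exp (-(T ^ ε))) * T⁻¹ ≤ 1 / 4 * T⁻¹ :=
          mul_le_mul_of_nonneg_right c3 (by positivity)
      _ ≤ 1 / 4 := by linarith
  have hf3 : 2 * (C1 * Real.exp (-Real.sqrt t) * S0) ≤ 1 / 4 := by
    have h0 : T ^ (1 / 4 : ℝ) ≤ Real.sqrt t := by
      apply Real.le_sqrt_of_sq_le
      have e1 : (T ^ (1 / 4 : ℝ)) ^ 2 = T ^ (1 / 2 : ℝ) := by
        rw [← Real.rpow_natCast, ← Real.rpow_mul hT0.le]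
        norm_num
      rw [e1]
      have := Real.rpow_le_rpow_of_exponent_le hT1 (show (1 / 2 : ℝ) ≤ 1 by norm_num)
      rw [Real.rpow_one] at this
      linarith
    have h1 : Real.exp (-Real.sqrt t) ≤ Real.exp (-(T ^ (1 / 4 : ℝ))) :=
      Real.exp_le_exp.2 (neg_le_neg h0)
    have h2 : 2 * (C1 * Real.exp (-Real.sqrt t) * S0) ≤
        2 * S0 * C1 * (T ^ (1 : ℝ) * Real.exp (-(T ^ (1 / 4 : ℝ)))) * T⁻¹ := by
      rw [Real.rpow_one]
      have e1 : 2 * S0 * C1 * (T * Real.exp (-(T ^ (1 / 4 : ℝ)))) * T⁻¹ =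
          2 * S0 * C1 * Real.exp (-(T ^ (1 / 4 : ℝ))) := by
        field_simp
      rw [e1]
      have h3 := mul_le_mul_of_nonneg_left h1 (by positivity : 0 ≤ 2 * S0 * C1)
      linarith
    refine h2.trans ?_
    calc 2 * S0 * C1 * (T ^ (1 : ℝ) * Real.exp (-(T ^ (1 / 4 : ℝ)))) * T⁻¹ ≤ 1 / 4 * T⁻¹ :=
          mul_le_mul_of_nonneg_right c4 (by positivity)
      _ ≤ 1 / 4 := by linarith
  rw [hZ, hY, ← mul_sub, ← Complex.sub_re, abs_mul, abs_two]
  calc 2 * |(∑' p, v p - ∑ p ∈ SK K, j ((p.1 + 1) * (p.2 + 1))).re|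
      ≤ 2 * ‖∑' p, v p - ∑ p ∈ SK K, j ((p.1 + 1) * (p.2 + 1))‖ :=
        mul_le_mul_of_nonneg_left (Complex.abs_re_le_norm _) (by norm_num)
    _ ≤ 2 * (∑ p ∈ SK K, F2 ((p.1 + 1) * (p.2 + 1)) + c0 * S0) :=
        mul_le_mul_of_nonneg_left hnorm (by norm_num)
    _ ≤ 1 := by
        have e1 : c0 * S0 = C2 * t ^ 3 * Real.exp (-(T ^ ε)) * S0 +
            C1 * Real.exp (-Real.sqrt t) * S0 := by
          rw [hc0]
          ring
        rw [e1]
        linarith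

end M12
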