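import Pool.Agent.Lib.MP_39df77_nt.M12.Dual

/-!
Large values of `Y`: `|{t ∈ [T,3T] : ‖Y‖ ≥ 1}| ≤ T^ε (K + K^{5/2} T^{-1/2})`.
-/

set_option autoImplicit false

namespace M12

open Finset Complex MeasureTheory Set

theorem sum_inv_sqrt (K : ℕ) : ∑ k ∈ Finset.Ico 1 (K + 1), 1 / √(k : ℝ) ≤ 2 * √(K : ℝ) := by
  induction K with
  | zero => simp
  | succ n ih =>
    rw [Finset.sum_Ico_succ_top (by omega)]
    have hn : (0 : ℝ) ≤ n := Nat.cast_nonneg n
    have hs : 0 ≤ √(n : ℝ) := Real.sqrt_nonneg _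
    have hs1 : 0 < √((n + 1 : ℕ) : ℝ) := Real.sqrt_pos.mpr (by push_cast; linarith)
    have h2 : √(n : ℝ) ^ 2 = n := Real.sq_sqrt hn
    have h3 : √((n + 1 : ℕ) : ℝ) ^ 2 = n + 1 := by
      rw [Real.sq_sqrt (by positivity)]; push_cast; ring
    have h4 : 1 / √((n + 1 : ℕ) : ℝ) ≤ 2 * (√((n + 1 : ℕ) : ℝ) - √(n : ℝ)) := by
      rw [div_le_iff₀ hs1]
      nlinarith [sq_nonneg (√((n + 1 : ℕ) : ℝ) - √(n : ℝ))]
    linarith

theorem D2_nonneg (K : ℕ) : 0 ≤ D2 K := by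
  unfold D2
  exact Finset.sum_nonneg fun _ _ => by positivity

theorem D2_le (δ : ℝ) (hδ : 0 < δ) : ∃ C : ℝ, 0 < C ∧ ∀ (K : ℕ) (T : ℝ), 1 ≤ K → (K : ℝ) ≤ T →
    D2 K ≤ C * T ^ δ * √(K : ℝ) := by
  obtain ⟨C, hC, h⟩ := U6.dv_le (δ / 2) (by linarith)
  refine ⟨2 * C ^ 2, by positivity, ?_⟩
  intro K T hK hKT
  have hK1 : (1 : ℝ) ≤ K := by exact_mod_cast hK
  have hT1 : 1 ≤ T := by linarith
  have hT0 : 0 < T := by linarith
  have h1 : ∀ k ∈ Finset.Ico 1 K, (U6.dv k : ℝ) ^ 2 / √(k : ℝ) ≤ C ^ 2 * T ^ δ * (1 / √(k : ℝ)) := by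
    intro k hk
    rw [Finset.mem_Ico] at hk
    have hk0 : (1 : ℝ) ≤ k := by exact_mod_cast hk.1
    have hkT : (k : ℝ) ≤ T := by
      have : (k : ℝ) ≤ K := by exact_mod_cast hk.2.le
      linarith
    have h2 := h k hk.1
    have h3 : (k : ℝ) ^ (δ / 2) ≤ T ^ (δ / 2) := Real.rpow_le_rpow (by linarith) hkT (by linarith)
    have h4 : (U6.dv k : ℝ) ≤ C * T ^ (δ / 2) := h2.trans (mul_le_mul_of_nonneg_left h3 hC.le)
    have h5 : (U6.dv k : ℝ) ^ 2 ≤ C ^ 2 * T ^ δ := by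
      calc (U6.dv k : ℝ) ^ 2 ≤ (C * T ^ (δ / 2)) ^ 2 := pow_le_pow_left₀ (Nat.cast_nonneg _) h4 2
        _ = C ^ 2 * T ^ δ := by
            rw [mul_pow, ← Real.rpow_natCast (T ^ (δ / 2)), ← Real.rpow_mul hT0.le]
            norm_num
    calc (U6.dv k : ℝ) ^ 2 / √(k : ℝ) ≤ (C ^ 2 * T ^ δ) / √(k : ℝ) :=
          div_le_div_of_nonneg_right h5 (Real.sqrt_nonneg _)
      _ = _ := by ring
  unfold D2
  refine (Finset.sum_le_sum h1).trans ?_
  rw [← Finset.mul_sum]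
  have h6 : ∑ k ∈ Finset.Ico 1 K, 1 / √(k : ℝ) ≤ 2 * √(K : ℝ) := by
    refine le_trans ?_ (sum_inv_sqrt K)
    apply Finset.sum_le_sum_of_subset_of_nonneg
    · exact Finset.Ico_subset_Ico le_rfl (by omega)
    · intro k _ _
      positivity
  calc C ^ 2 * T ^ δ * ∑ k ∈ Finset.Ico 1 K, 1 / √(k : ℝ) ≤ C ^ 2 * T ^ δ * (2 * √(K : ℝ)) :=
        mul_le_mul_of_nonneg_left h6 (by positivity)
    _ = _ := by ring

/-- one interval of length `L` -/
theorem large_one (δ : ℝ) (hδ : 0 < δ) : ∃ C T₀ : ℝ, 0 < C ∧ 1 ≤ T₀ ∧ ∀ (T G a L : ℝ) (K : ℕ),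
    T₀ ≤ T → T ≤ a → 0 ≤ L → a + L ≤ 4 * T → 0 ≤ G → 1 ≤ K → 5 * (K : ℝ) ≤ T →
    L ≤ T ^ (3 / 2 - 3 * δ) / (K * √(K : ℝ)) →
    volume.real ({t | 1 ≤ ‖U6.Y G t K‖} ∩ Icc a (a + L)) ≤ C * T ^ (2 * δ) * K := by
  obtain ⟨C1, hC1, hdual⟩ := dual
  obtain ⟨C2, hC2, hD2⟩ := D2_le δ hδ
  refine ⟨2 * (C1 * C2 * (1 + 2 / δ)), max 1 ((2 * (C1 * C2)) ^ (2 / δ)), by positivity,
    le_max_left _ _, ?_⟩
  intro T G a L K hT ha hL hL4 hG hK hKT hLK
  have hT1 : 1 ≤ T := (le_max_left _ _).trans hT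
  have hT2 : (2 * (C1 * C2)) ^ (2 / δ) ≤ T := (le_max_right _ _).trans hT
  have hT0 : 0 < T := by linarith
  have hK1 : (1 : ℝ) ≤ K := by exact_mod_cast hK
  have hK0 : (0 : ℝ) < K := by linarith
  have hsqT : 0 < √T := Real.sqrt_pos.2 hT0
  have hsqK : 0 < √(K : ℝ) := Real.sqrt_pos.2 hK0
  have hsqsqK : 0 < √√(K : ℝ) := Real.sqrt_pos.2 hsqK
  have hKK : √(K : ℝ) * √(K : ℝ) = K := Real.mul_self_sqrt hK0.le
  set E : Set ℝ := {t | 1 ≤ ‖U6.Y G t K‖} ∩ Icc a (a + L) with hE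
  have hEm : MeasurableSet E :=
    (measurableSet_le measurable_const (Y_meas G K).norm).inter measurableSet_Icc
  have h1 := hdual T G a L K E hT1 ha hL hL4 hG hK hKT hEm inter_subset_right (fun t ht => ht.1)
  set v : ℝ := volume.real E with hv
  have hv0 : 0 ≤ v := measureReal_nonneg
  rcases hv0.eq_or_lt with h0 | h0
  · rw [← h0]
    positivity
  have h2 : v ≤ C1 * D2 K / √T * (√T * √(K : ℝ) * Real.log (1 + K * L) +
      √(L / √T) * √√(K : ℝ) * v) := by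
    have h3 : v * v ≤ (C1 * D2 K / √T * (√T * √(K : ℝ) * Real.log (1 + K * L) +
      √(L / √T) * √√(K : ℝ) * v)) * v := by
      calc v * v = v ^ 2 := by ring
        _ ≤ _ := h1
        _ = _ := by ring
    exact le_of_mul_le_mul_right h3 h0
  have hD : D2 K ≤ C2 * T ^ δ * √(K : ℝ) := hD2 K T hK (by linarith)
  have hlog : Real.log (1 + K * L) ≤ (1 + 2 / δ) * T ^ δ := by
    have e1 : Real.log (1 + K * L) ≤ Real.log (2 * T ^ 2) := by
      apply Real.log_le_log (by positivity)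
      have : L ≤ 3 * T := by linarith
      have h4 : (K : ℝ) * L ≤ (T / 5) * (3 * T) :=
        mul_le_mul (by linarith) this hL (by positivity)
      nlinarith
    have e2 : Real.log (2 * T ^ 2) = Real.log 2 + 2 * Real.log T := by
      rw [Real.log_mul (by norm_num) (by positivity), Real.log_pow]
      norm_num
    have e3 : Real.log T ≤ T ^ δ / δ := Real.log_le_rpow_div hT0.le hδ
    have e4 : (1 : ℝ) ≤ T ^ δ := Real.one_le_rpow hT1 hδ.le
    have e5 := Real.log_two_lt_d9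
    calc Real.log (1 + K * L) ≤ Real.log 2 + 2 * Real.log T := by rw [← e2]; exact e1
      _ ≤ 1 * T ^ δ + 2 * (T ^ δ / δ) := by linarith
      _ = (1 + 2 / δ) * T ^ δ := by ring
  have hsq : √(L / √T) * √√(K : ℝ) * √(K : ℝ) ≤ T ^ (1 / 2 - 3 / 2 * δ) := by
    have e1 : L / √T ≤ T ^ (1 - 3 * δ) / (K * √(K : ℝ)) := by
      calc L / √T ≤ T ^ (3 / 2 - 3 * δ) / (K * √(K : ℝ)) / √T :=
            div_le_div_of_nonneg_right hLK hsqT.le
        _ = T ^ (1 - 3 * δ) / (K * √(K : ℝ)) := by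
            have e2 : T ^ (3 / 2 - 3 * δ) = T ^ (1 - 3 * δ) * √T := by
              rw [Real.sqrt_eq_rpow, ← Real.rpow_add hT0]
              congr 1
              ring
            rw [e2]
            field_simp
    have e3 : √(L / √T) ≤ T ^ (1 / 2 - 3 / 2 * δ) / (√(K : ℝ) * √√(K : ℝ)) := by
      apply Real.sqrt_le_iff.mpr
      refine ⟨by positivity, e1.trans (le_of_eq ?_)⟩
      rw [div_pow, mul_pow, Real.sq_sqrt hK0.le, Real.sq_sqrt hsqK.le, ← Real.rpow_natCast,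
        ← Real.rpow_mul hT0.le]
      congr 2
      push_cast
      ring
    calc √(L / √T) * √√(K : ℝ) * √(K : ℝ) = √(L / √T) * (√√(K : ℝ) * √(K : ℝ)) := by ring
      _ ≤ T ^ (1 / 2 - 3 / 2 * δ) / (√(K : ℝ) * √√(K : ℝ)) * (√√(K : ℝ) * √(K : ℝ)) :=
          mul_le_mul_of_nonneg_right e3 (by positivity)
      _ = T ^ (1 / 2 - 3 / 2 * δ) := by
          field_simp
  have hA : C1 * D2 K / √T * (√T * √(K : ℝ) * Real.log (1 + K * L)) ≤
      C1 * C2 * (1 + 2 / δ) * T ^ (2 * δ) * K := by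
    have e1 : C1 * D2 K / √T * (√T * √(K : ℝ) * Real.log (1 + K * L)) =
        C1 * (D2 K * √(K : ℝ)) * Real.log (1 + K * L) := by
      field_simp
    rw [e1]
    have e2 : D2 K * √(K : ℝ) ≤ C2 * T ^ δ * K := by
      calc D2 K * √(K : ℝ) ≤ C2 * T ^ δ * √(K : ℝ) * √(K : ℝ) :=
            mul_le_mul_of_nonneg_right hD hsqK.le
        _ = C2 * T ^ δ * (√(K : ℝ) * √(K : ℝ)) := by ring
        _ = _ := by rw [hKK]
    have e3 : 0 ≤ Real.log (1 + K * L) := Real.log_nonneg (by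
      have : 0 ≤ (K : ℝ) * L := by positivity
      linarith)
    have e4 : T ^ (2 * δ) = T ^ δ * T ^ δ := by
      rw [← Real.rpow_add hT0]; congr 1; ring
    calc C1 * (D2 K * √(K : ℝ)) * Real.log (1 + K * L) ≤
          C1 * (C2 * T ^ δ * K) * ((1 + 2 / δ) * T ^ δ) := by
          apply mul_le_mul _ hlog e3 (by positivity)
          exact mul_le_mul_of_nonneg_left e2 (by linarith)
      _ = _ := by rw [e4]; ring
  have hB : C1 * D2 K / √T * (√(L / √T) * √√(K : ℝ) * v) ≤ v / 2 := by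
    have e1 : C1 * D2 K / √T * (√(L / √T) * √√(K : ℝ) * v) ≤
        C1 * (C2 * T ^ δ * √(K : ℝ)) / √T * (√(L / √T) * √√(K : ℝ) * v) := by
      apply mul_le_mul_of_nonneg_right _ (by positivity)
      apply div_le_div_of_nonneg_right _ hsqT.le
      exact mul_le_mul_of_nonneg_left hD (by linarith)
    refine e1.trans ?_
    have e2 : C1 * (C2 * T ^ δ * √(K : ℝ)) / √T * (√(L / √T) * √√(K : ℝ) * v) =
        C1 * C2 * (T ^ δ / √T) * (√(L / √T) * √√(K : ℝ) * √(K : ℝ)) * v := by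
      ring
    rw [e2]
    have e3 : C1 * C2 * (T ^ δ / √T) * (√(L / √T) * √√(K : ℝ) * √(K : ℝ)) ≤ 1 / 2 := by
      calc C1 * C2 * (T ^ δ / √T) * (√(L / √T) * √√(K : ℝ) * √(K : ℝ)) ≤
            C1 * C2 * (T ^ δ / √T) * T ^ (1 / 2 - 3 / 2 * δ) :=
            mul_le_mul_of_nonneg_left hsq (by positivity)
        _ = C1 * C2 * T ^ (-(δ / 2)) := by
            rw [Real.sqrt_eq_rpow, ← Real.rpow_sub hT0, mul_assoc, ← Real.rpow_add hT0]
            congr 2
            ring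
        _ ≤ 1 / 2 := by
            rw [Real.rpow_neg hT0.le, ← div_eq_mul_inv, div_le_iff₀ (by positivity)]
            have e4 : 2 * (C1 * C2) ≤ T ^ (δ / 2) := by
              have e5 : ((2 * (C1 * C2)) ^ (2 / δ)) ^ (δ / 2) = 2 * (C1 * C2) := by
                rw [← Real.rpow_mul (by positivity)]
                have : 2 / δ * (δ / 2) = 1 := by field_simp
                rw [this, Real.rpow_one]
              rw [← e5]
              exact Real.rpow_le_rpow (by positivity) hT2 (by linarith)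
            linarith
    calc _ ≤ 1 / 2 * v := mul_le_mul_of_nonneg_right e3 hv0
      _ = v / 2 := by ring
  rw [mul_add] at h2
  have h5 : v ≤ C1 * C2 * (1 + 2 / δ) * T ^ (2 * δ) * K + v / 2 := by linarith
  linarith

theorem large : ∀ δ : ℝ, 0 < δ → δ ≤ 1 / 10 → ∃ C T₀ : ℝ, 0 < C ∧ 1 ≤ T₀ ∧ ∀ (T G : ℝ) (K : ℕ),
    T₀ ≤ T → 0 ≤ G → 1 ≤ K → 5 * (K : ℝ) ≤ T →
    volume.real ({t | 1 ≤ ‖U6.Y G t K‖} ∩ Icc T (3 * T)) ≤
      C * T ^ (5 * δ) * (K + (K : ℝ) ^ 2 * √(K : ℝ) / √T) := by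
  intro δ hδ hδ1
  obtain ⟨C, T₀, hC, hT₀, h⟩ := large_one δ hδ
  refine ⟨3 * C, T₀, by positivity, hT₀, ?_⟩
  intro T G K hT hG hK hKT
  have hT1 : 1 ≤ T := hT₀.trans hT
  have hT0 : 0 < T := by linarith
  have hK1 : (1 : ℝ) ≤ K := by exact_mod_cast hK
  have hK0 : (0 : ℝ) < K := by linarith
  have hsqT : 0 < √T := Real.sqrt_pos.2 hT0
  have hsqK : 0 < √(K : ℝ) := Real.sqrt_pos.2 hK0
  set L : ℝ := min T (T ^ (3 / 2 - 3 * δ) / (K * √(K : ℝ))) with hL
  have hL0 : 0 < L := lt_min hT0 (by positivity)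
  have hLT : L ≤ T := min_le_left _ _
  set b : ℝ := C * T ^ (2 * δ) * K with hb
  have hb0 : 0 ≤ b := by positivity
  set V : Set ℝ := {t | 1 ≤ ‖U6.Y G t K‖} with hV
  have key : ∀ n : ℕ, (n : ℝ) * L ≤ 2 * T + L → volume.real (V ∩ Icc T (T + n * L)) ≤ n * b := by
    intro n
    induction n with
    | zero =>
      intro _
      simp only [Nat.cast_zero, zero_mul, add_zero, Set.Icc_self]
      have : volume (V ∩ {T}) = 0 := measure_mono_null inter_subset_right (by simp)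
      simp [measureReal_def, this]
    | succ n ih =>
      intro hn
      push_cast at hn ⊢
      have h1 := ih (by linarith)
      have h2 := h T G (T + n * L) L K hT (by
        have : 0 ≤ (n : ℝ) * L := by positivity
        linarith) hL0.le (by linarith) hG hK hKT (min_le_right _ _)
      have h3 : V ∩ Icc T (T + (n + 1) * L) ⊆
          (V ∩ Icc T (T + n * L)) ∪ (V ∩ Icc (T + n * L) (T + n * L + L)) := by
        intro x hx
        rcases le_or_gt x (T + n * L) with h4 | h4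
        · exact Or.inl ⟨hx.1, hx.2.1, h4⟩
        · exact Or.inr ⟨hx.1, h4.le, by linarith [hx.2.2]⟩
      have hfin : volume ((V ∩ Icc T (T + n * L)) ∪ (V ∩ Icc (T + n * L) (T + n * L + L))) ≠ ⊤ := by
        apply ne_of_lt
        apply lt_of_le_of_lt (measure_union_le _ _)
        apply ENNReal.add_lt_top.mpr
        constructor
        · exact lt_of_le_of_lt (measure_mono inter_subset_right) measure_Icc_lt_top
        · exact lt_of_le_of_lt (measure_mono inter_subset_right) measure_Icc_lt_top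
      calc volume.real (V ∩ Icc T (T + (n + 1) * L)) ≤
            volume.real ((V ∩ Icc T (T + n * L)) ∪ (V ∩ Icc (T + n * L) (T + n * L + L))) :=
            measureReal_mono h3 hfin
        _ ≤ volume.real (V ∩ Icc T (T + n * L)) + volume.real (V ∩ Icc (T + n * L) (T + n * L + L)) :=
            measureReal_union_le _ _
        _ ≤ n * b + b := add_le_add h1 h2
        _ = (n + 1) * b := by ring
  set n : ℕ := ⌈2 * T / L⌉₊ with hn
  have hn1 : 2 * T / L ≤ n := Nat.le_ceil _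
  have hn2 : (n : ℝ) < 2 * T / L + 1 := Nat.ceil_lt_add_one (by positivity)
  have hn3 : 2 * T ≤ n * L := by
    rw [div_le_iff₀ hL0] at hn1
    exact hn1
  have hn4 : (n : ℝ) * L ≤ 2 * T + L := by
    have : (n : ℝ) * L ≤ (2 * T / L + 1) * L := mul_le_mul_of_nonneg_right hn2.le hL0.le
    have e1 : (2 * T / L + 1) * L = 2 * T + L := by field_simp
    linarith
  have h5 : volume.real (V ∩ Icc T (3 * T)) ≤ n * b := by
    refine le_trans ?_ (key n hn4)
    apply measureReal_mono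
    · intro x hx
      exact ⟨hx.1, hx.2.1, by linarith [hx.2.2]⟩
    · apply ne_of_lt
      exact lt_of_le_of_lt (measure_mono inter_subset_right) measure_Icc_lt_top
  refine h5.trans ?_
  have h6 : 1 / L ≤ 1 / T + K * √(K : ℝ) / T ^ (3 / 2 - 3 * δ) := by
    rcases min_choice T (T ^ (3 / 2 - 3 * δ) / (K * √(K : ℝ))) with h7 | h7
    · rw [hL, h7]
      have : 0 ≤ K * √(K : ℝ) / T ^ (3 / 2 - 3 * δ) := by positivity
      linarith
    · rw [hL, h7, one_div_div]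
      have : 0 ≤ 1 / T := by positivity
      linarith
  have h8 : T / T ^ (3 / 2 - 3 * δ) = T ^ (3 * δ) / √T := by
    have e1 : T ^ (3 * δ) = T ^ (3 / 2 + 3 * δ) / T ^ (3 / 2 : ℝ) := by
      rw [← Real.rpow_sub hT0]
      congr 1
      ring
    have e2 : T ^ (3 / 2 - 3 * δ) = T * √T / T ^ (3 * δ) := by
      rw [Real.sqrt_eq_rpow]
      nth_rewrite 2 [← Real.rpow_one T]
      rw [← Real.rpow_add hT0, ← Real.rpow_sub hT0]
      congr 1
      ring
    rw [e2]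
    field_simp
  have h9 : (n : ℝ) ≤ 3 + 2 * (K * √(K : ℝ)) * (T ^ (3 * δ) / √T) := by
    have e1 : 2 * T / L ≤ 2 + 2 * (K * √(K : ℝ)) * (T ^ (3 * δ) / √T) := by
      calc 2 * T / L = 2 * T * (1 / L) := by ring
        _ ≤ 2 * T * (1 / T + K * √(K : ℝ) / T ^ (3 / 2 - 3 * δ)) :=
            mul_le_mul_of_nonneg_left h6 (by positivity)
        _ = 2 + 2 * (K * √(K : ℝ)) * (T / T ^ (3 / 2 - 3 * δ)) := by
            field_simp
        _ = _ := by rw [h8]
    linarith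
  have h10 : (1 : ℝ) ≤ T ^ (3 * δ) := Real.one_le_rpow hT1 (by linarith)
  calc (n : ℝ) * b ≤ (3 + 2 * (K * √(K : ℝ)) * (T ^ (3 * δ) / √T)) * b :=
        mul_le_mul_of_nonneg_right h9 hb0
    _ ≤ (3 * T ^ (3 * δ) * (1 + K * √(K : ℝ) / √T)) * b := by
        apply mul_le_mul_of_nonneg_right _ hb0
        have e1 : 0 ≤ K * √(K : ℝ) / √T := by positivity
        have e2 : (K * √(K : ℝ)) * (T ^ (3 * δ) / √T) = T ^ (3 * δ) * (K * √(K : ℝ) / √T) := by ring
        have e3 : 0 ≤ T ^ (3 * δ) * (K * √(K : ℝ) / √T) := by positivity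
        nlinarith
    _ = 3 * C * T ^ (5 * δ) * (K + (K : ℝ) ^ 2 * √(K : ℝ) / √T) := by
        have e1 : T ^ (5 * δ) = T ^ (3 * δ) * T ^ (2 * δ) := by
          rw [← Real.rpow_add hT0]; congr 1; ring
        rw [hb, e1]
        ring

end M12
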