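import Pool.Agent.Lib.MP_39df77_nt.M12.Exp
import Pool.Agent.Lib.MP_39df77_nt.U6.Defs

/-!
The kernel sum `∑_{1 ≤ k < K} e^{-lam √k} e^{i (ph k t - ph k s)}`.
-/

set_option autoImplicit false

namespace M12

open Finset Pool.Agent.Lib.MP_4ae430_nt Complex

/-- Abel summation with decreasing weights -/
theorem abel_le (z : ℕ → ℂ) (w : ℕ → ℝ) (hw : ∀ n, 0 ≤ w n) (hd : ∀ n, w (n + 1) ≤ w n)
    (B : ℝ) (N : ℕ) (hB : ∀ n ≤ N, ‖∑ i ∈ range n, z i‖ ≤ B) :
    ‖∑ i ∈ range N, (w i : ℂ) * z i‖ ≤ w 0 * B := by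
  have key : ∀ n ≤ N, ‖(∑ i ∈ range n, (w i : ℂ) * z i) - (w n : ℂ) * ∑ i ∈ range n, z i‖ ≤
      (w 0 - w n) * B := by
    intro n
    induction n with
    | zero => intro _; simp
    | succ n ih =>
      intro hn
      have h1 := ih (by omega)
      have h2 := hB (n + 1) hn
      have e1 : (∑ i ∈ range (n + 1), (w i : ℂ) * z i) - (w (n + 1) : ℂ) * ∑ i ∈ range (n + 1), z i =
          ((∑ i ∈ range n, (w i : ℂ) * z i) - (w n : ℂ) * ∑ i ∈ range n, z i) +
            ((w n - w (n + 1) : ℝ) : ℂ) * ∑ i ∈ range (n + 1), z i := by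
        rw [sum_range_succ, sum_range_succ]
        push_cast
        ring
      rw [e1]
      refine (norm_add_le _ _).trans ?_
      rw [norm_mul, Complex.norm_real, Real.norm_eq_abs, abs_of_nonneg (by linarith [hd n])]
      have h3 : (w n - w (n + 1)) * ‖∑ i ∈ range (n + 1), z i‖ ≤ (w n - w (n + 1)) * B :=
        mul_le_mul_of_nonneg_left h2 (by linarith [hd n])
      nlinarith
  have h1 := key N le_rfl
  have h2 := hB N le_rfl
  have e1 : ∑ i ∈ range N, (w i : ℂ) * z i =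
      ((∑ i ∈ range N, (w i : ℂ) * z i) - (w N : ℂ) * ∑ i ∈ range N, z i) +
        (w N : ℂ) * ∑ i ∈ range N, z i := by ring
  rw [e1]
  refine (norm_add_le _ _).trans ?_
  rw [norm_mul, Complex.norm_real, Real.norm_eq_abs, abs_of_nonneg (hw N)]
  have h3 : w N * ‖∑ i ∈ range N, z i‖ ≤ w N * B := mul_le_mul_of_nonneg_left h2 (hw N)
  nlinarith

/-- dyadic decomposition -/
theorem dyadic_le (z : ℕ → ℂ) (a1 a2 : ℝ) (h1 : 0 ≤ a1) (h2 : 0 ≤ a2) (K : ℕ)
    (h : ∀ A N : ℕ, 1 ≤ A → N ≤ A → A + N ≤ K →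
      ‖∑ n ∈ range N, z (A + n)‖ ≤ a1 * √(A : ℝ) + a2 * √√(A : ℝ)) :
    ‖∑ k ∈ Ico 1 K, z k‖ ≤ 10 * a1 * √(K : ℝ) + 20 * a2 * √√(K : ℝ) := by
  have key : ∀ M ≤ K, ‖∑ k ∈ Ico 1 M, z k‖ ≤ 10 * a1 * √(M : ℝ) + 20 * a2 * √√(M : ℝ) := by
    intro M
    induction M using Nat.strong_induction_on with
    | _ M ih =>
      intro hM
      rcases Nat.lt_or_ge M 2 with h0 | h0
      · have : Ico 1 M = ∅ := by
          rw [Ico_eq_empty_iff]
          omega
        rw [this]
        simp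
        positivity
      · set A : ℕ := (M + 1) / 2 with hA
        have hA1 : 1 ≤ A := by omega
        have hAM : A < M := by omega
        have h3 := ih A hAM (by omega)
        have h4 := h A (M - A) hA1 (by omega) (by omega)
        have h5 : ∑ k ∈ Ico 1 M, z k = ∑ k ∈ Ico 1 A, z k + ∑ n ∈ range (M - A), z (A + n) := by
          rw [← sum_Ico_consecutive z hA1 hAM.le, sum_Ico_eq_sum_range z A M]
        rw [h5]
        refine (norm_add_le _ _).trans ?_
        have hM2 : (2 : ℝ) ≤ M := by exact_mod_cast h0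
        have hAr : (A : ℝ) ≤ 3 / 4 * M := by
          have : 2 * A ≤ M + 1 := by omega
          have h6 : 2 * (A : ℝ) ≤ M + 1 := by exact_mod_cast this
          linarith
        have hA0 : (0 : ℝ) ≤ A := Nat.cast_nonneg _
        have hM0 : (0 : ℝ) ≤ M := by linarith
        have e1 : √(A : ℝ) ≤ 10 / 11 * √(M : ℝ) := by
          rw [Real.sqrt_le_left (by positivity), mul_pow, Real.sq_sqrt hM0]
          nlinarith
        have e2 : √√(A : ℝ) ≤ 20 / 21 * √√(M : ℝ) := by
          rw [Real.sqrt_le_left (by positivity), mul_pow, Real.sq_sqrt (Real.sqrt_nonneg _)]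
          rw [Real.sqrt_le_left (by positivity), mul_pow, Real.sq_sqrt hM0]
          nlinarith
        nlinarith [mul_le_mul_of_nonneg_left e1 h1, mul_le_mul_of_nonneg_left e2 h2]
  exact key K le_rfl

/-- the parameters -/
noncomputable def al (t s : ℝ) : ℝ := √2 / √Real.pi * (√t - √s)
noncomputable def be (t s : ℝ) : ℝ := √2 * √Real.pi / 12 * ((√t - √s) / (√t * √s))

theorem ph_sub (t s x : ℝ) (ht : 0 < t) (hs : 0 < s) (hx : 0 ≤ x) :
    U6.ph x t - U6.ph x s = 2 * Real.pi * (al t s * √x - be t s * (x * √x)) := by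
  have hpi := Real.pi_pos
  have hst : 0 < √t := Real.sqrt_pos.2 ht
  have hss : 0 < √s := Real.sqrt_pos.2 hs
  have hsp : 0 < √Real.pi := Real.sqrt_pos.2 hpi
  have hpp : √Real.pi * √Real.pi = Real.pi := Real.mul_self_sqrt hpi.le
  have e1 : √(2 * Real.pi * x * t) = √2 * √Real.pi * √x * √t := by
    rw [Real.sqrt_mul (by positivity), Real.sqrt_mul (by positivity), Real.sqrt_mul (by norm_num)]
  have e2 : √(2 * Real.pi * x * s) = √2 * √Real.pi * √x * √s := by
    rw [Real.sqrt_mul (by positivity), Real.sqrt_mul (by positivity), Real.sqrt_mul (by norm_num)]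
  have e3 : √(Real.pi * x) = √Real.pi * √x := Real.sqrt_mul hpi.le _
  unfold U6.ph al be
  rw [e1, e2, e3]
  set p := √Real.pi with hp
  rw [← hpp]
  field_simp
  ring

theorem sqrt_diff_bd {T t s : ℝ} (hT : 0 < T) (hs : T ≤ s) (hst : s < t) (ht : t ≤ 4 * T) :
    (t - s) / (4 * √T) ≤ √t - √s ∧ √t - √s ≤ (t - s) / (2 * √T) := by
  have hsT : 0 < √T := Real.sqrt_pos.2 hT
  have hss : √T ≤ √s := Real.sqrt_le_sqrt hs
  have hts : √T ≤ √t := Real.sqrt_le_sqrt (by linarith)
  have h4 : √(4 * T) = 2 * √T := by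
    rw [Real.sqrt_mul (by norm_num), show (4 : ℝ) = 2 ^ 2 by norm_num, Real.sqrt_sq (by norm_num)]
  have htt : √t ≤ 2 * √T := by rw [← h4]; exact Real.sqrt_le_sqrt ht
  have hs2 : √s ≤ 2 * √T := by rw [← h4]; exact Real.sqrt_le_sqrt (by linarith)
  have e1 : √t * √t = t := Real.mul_self_sqrt (by linarith)
  have e2 : √s * √s = s := Real.mul_self_sqrt (by linarith)
  have hD : 0 < √t - √s := by
    have := Real.sqrt_lt_sqrt (by linarith : (0 : ℝ) ≤ s) hst
    linarith
  have e3 : (√t - √s) * (√t + √s) = t - s := by nlinarith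
  constructor
  · rw [div_le_iff₀ (by positivity), ← e3]
    apply mul_le_mul_of_nonneg_left (by linarith) hD.le
  · rw [le_div_iff₀ (by positivity), ← e3]
    apply mul_le_mul_of_nonneg_left (by linarith) hD.le

theorem block_bd : ∃ C : ℝ, 0 < C ∧ ∀ (T t s lam : ℝ) (A N : ℕ), 0 < T → T ≤ s → s < t → t ≤ 4 * T →
    0 ≤ lam → 1 ≤ A → N ≤ A → 5 * (A : ℝ) ≤ T →
    ‖∑ n ∈ range N, ((Real.exp (-(lam * √((A : ℝ) + n))) : ℝ) : ℂ) *
      cexp (I * ((U6.ph ((A : ℝ) + n) t - U6.ph ((A : ℝ) + n) s : ℝ) : ℂ))‖ ≤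
      C * (√T / (t - s) * √(A : ℝ) + √((t - s) / √T) * √√(A : ℝ)) := by
  obtain ⟨C, hC, h⟩ := exp_sum
  refine ⟨6 * C, by positivity, ?_⟩
  intro T t s lam A N hT hs hst ht hlam hA hN hAT
  have hpi := Real.pi_pos
  have hpi4 := Real.pi_lt_d2
  have hpi3 := Real.pi_gt_three
  have ht0 : 0 < t := by linarith
  have hs0 : 0 < s := by linarith
  have hsT : 0 < √T := Real.sqrt_pos.2 hT
  have hst0 : 0 < √t := Real.sqrt_pos.2 ht0
  have hss0 : 0 < √s := Real.sqrt_pos.2 hs0
  have hsp : 0 < √Real.pi := Real.sqrt_pos.2 hpi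
  have hpp : √Real.pi * √Real.pi = Real.pi := Real.mul_self_sqrt hpi.le
  have hs2 : 0 < √(2 : ℝ) := Real.sqrt_pos.2 (by norm_num)
  have h22 : √(2 : ℝ) * √2 = 2 := Real.mul_self_sqrt (by norm_num)
  obtain ⟨hD1, hD2⟩ := sqrt_diff_bd hT hs hst ht
  have hts : 0 < t - s := by linarith
  have hD : 0 < √t - √s := lt_of_lt_of_le (by positivity) hD1
  have hA1 : (1 : ℝ) ≤ A := by exact_mod_cast hA
  have hA0 : (0 : ℝ) < A := by linarith
  have hal : 0 < al t s := by unfold al; positivity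
  have hbe : 0 ≤ be t s := by unfold be; positivity
  have hab : 18 * be t s * A ≤ al t s := by
    unfold al be
    have e1 : T ≤ √t * √s := by
      have h1 : √T ≤ √s := Real.sqrt_le_sqrt hs
      have h2 : √T ≤ √t := Real.sqrt_le_sqrt (by linarith)
      calc T = √T * √T := (Real.mul_self_sqrt hT.le).symm
        _ ≤ √t * √s := mul_le_mul h2 h1 hsT.le hst0.le
    have e2 : 18 * (√2 * √Real.pi / 12 * ((√t - √s) / (√t * √s))) * A =
        √2 / √Real.pi * (√t - √s) * (3 / 2 * Real.pi * A / (√t * √s)) := by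
      have : Real.pi = √Real.pi * √Real.pi := hpp.symm
      field_simp
      linear_combination (2 * 18) * hpp
    rw [e2]
    have e3 : 3 / 2 * Real.pi * A / (√t * √s) ≤ 1 := by
      rw [div_le_one (by positivity)]
      nlinarith
    have e4 : 0 ≤ √2 / √Real.pi * (√t - √s) := by positivity
    nlinarith
  have hb := h (al t s) (be t s) A
  -- partial sums
  have hsum : ∀ n ≤ N, ‖∑ i ∈ range n, cexp (I * ((U6.ph ((A : ℝ) + i) t - U6.ph ((A : ℝ) + i) s : ℝ) : ℂ))‖ ≤
      C * (√(A : ℝ) / al t s + √(al t s * √(A : ℝ))) := by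
    intro n hn
    refine le_trans (le_of_eq ?_) (hb n hal hbe hA (by omega) hab)
    congr 1
    apply sum_congr rfl
    intro i _
    unfold ee
    rw [ph_sub t s _ ht0 hs0 (by positivity), mul_comm I]
  have h1 := abel_le (fun n => cexp (I * ((U6.ph ((A : ℝ) + n) t - U6.ph ((A : ℝ) + n) s : ℝ) : ℂ)))
    (fun n => Real.exp (-(lam * √((A : ℝ) + n)))) (fun n => (Real.exp_pos _).le) (fun n => by
      apply Real.exp_le_exp.mpr
      apply neg_le_neg
      apply mul_le_mul_of_nonneg_left _ hlam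
      apply Real.sqrt_le_sqrt
      push_cast
      linarith) _ N hsum
  refine h1.trans ?_
  have hw : Real.exp (-(lam * √((A : ℝ) + (0 : ℕ)))) ≤ 1 := by
    rw [Real.exp_le_one_iff]
    have : 0 ≤ lam * √((A : ℝ) + (0 : ℕ)) := by positivity
    linarith
  have hX0 : 0 ≤ C * (√(A : ℝ) / al t s + √(al t s * √(A : ℝ))) := by positivity
  refine (mul_le_of_le_one_left hX0 hw).trans ?_
  have e5 : √(A : ℝ) / al t s ≤ 6 * (√T / (t - s) * √(A : ℝ)) := by
    have e6 : 1 / al t s ≤ 6 * (√T / (t - s)) := by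
      rw [div_le_iff₀ hal]
      have e7 : 2 / 3 * ((t - s) / (4 * √T)) ≤ al t s := by
        unfold al
        have e8 : (2 / 3 : ℝ) ≤ √2 / √Real.pi := by
          rw [← Real.sqrt_div (by norm_num)]
          apply Real.le_sqrt_of_sq_le
          rw [le_div_iff₀ hpi]
          linarith
        exact mul_le_mul e8 hD1 (by positivity) (by positivity)
      calc (1 : ℝ) = 6 * (√T / (t - s)) * (2 / 3 * ((t - s) / (4 * √T))) := by
            field_simp
            norm_num
        _ ≤ 6 * (√T / (t - s)) * al t s := mul_le_mul_of_nonneg_left e7 (by positivity)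
    calc √(A : ℝ) / al t s = 1 / al t s * √(A : ℝ) := by ring
      _ ≤ 6 * (√T / (t - s)) * √(A : ℝ) := mul_le_mul_of_nonneg_right e6 (Real.sqrt_nonneg _)
      _ = _ := by ring
  have e9 : √(al t s * √(A : ℝ)) ≤ √((t - s) / √T) * √√(A : ℝ) := by
    rw [← Real.sqrt_mul (by positivity)]
    apply Real.sqrt_le_sqrt
    apply mul_le_mul_of_nonneg_right _ (Real.sqrt_nonneg _)
    unfold al
    have e8 : √2 / √Real.pi ≤ (1 : ℝ) := by
      rw [div_le_one hsp]
      exact Real.sqrt_le_sqrt (by linarith)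
    calc √2 / √Real.pi * (√t - √s) ≤ 1 * ((t - s) / (2 * √T)) :=
          mul_le_mul e8 hD2 hD.le (by norm_num)
      _ ≤ (t - s) / √T := by
          rw [one_mul]
          apply div_le_div_of_nonneg_left hts.le hsT (by linarith)
  have e10 : 0 ≤ √((t - s) / √T) * √√(A : ℝ) := by positivity
  calc C * (√(A : ℝ) / al t s + √(al t s * √(A : ℝ))) ≤
        C * (6 * (√T / (t - s) * √(A : ℝ)) + 6 * (√((t - s) / √T) * √√(A : ℝ))) :=
        mul_le_mul_of_nonneg_left (by linarith) hC.le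
    _ = _ := by ring

/-- the kernel sum -/
theorem S_bd : ∃ C : ℝ, 0 < C ∧ ∀ (T t s lam : ℝ) (K : ℕ), 0 < T → T ≤ s → s ≤ 4 * T → T ≤ t →
    t ≤ 4 * T → t ≠ s → 0 ≤ lam → 5 * (K : ℝ) ≤ T →
    ‖∑ k ∈ Ico 1 K, ((Real.exp (-(lam * √(k : ℝ))) : ℝ) : ℂ) *
      cexp (I * ((U6.ph k t - U6.ph k s : ℝ) : ℂ))‖ ≤
      C * (√T / |t - s| * √(K : ℝ) + √(|t - s| / √T) * √√(K : ℝ)) := by
  obtain ⟨C, hC, h⟩ := block_bd
  refine ⟨20 * C, by positivity, ?_⟩
  -- one sided version
  have one : ∀ (T t s lam : ℝ) (K : ℕ), 0 < T → T ≤ s → s < t → t ≤ 4 * T → 0 ≤ lam →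
      5 * (K : ℝ) ≤ T →
      ‖∑ k ∈ Ico 1 K, ((Real.exp (-(lam * √(k : ℝ))) : ℝ) : ℂ) *
        cexp (I * ((U6.ph k t - U6.ph k s : ℝ) : ℂ))‖ ≤
      20 * C * (√T / (t - s) * √(K : ℝ) + √((t - s) / √T) * √√(K : ℝ)) := by
    intro T t s lam K hT hs hst ht hlam hK
    have hts : 0 < t - s := by linarith
    have h1 := dyadic_le (fun k => ((Real.exp (-(lam * √(k : ℝ))) : ℝ) : ℂ) *
        cexp (I * ((U6.ph k t - U6.ph k s : ℝ) : ℂ))) (C * (√T / (t - s))) (C * √((t - s) / √T))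
      (by positivity) (by positivity) K (by
        intro A N hA hN hAK
        have h2 : (A : ℝ) ≤ K := by exact_mod_cast (by omega : A ≤ K)
        have h3 := h T t s lam A N hT hs hst ht hlam hA hN (by linarith)
        simp only [Nat.cast_add]
        refine h3.trans (le_of_eq ?_)
        ring)
    refine h1.trans ?_
    have e1 : 0 ≤ C * (√T / (t - s)) * √(K : ℝ) := by positivity
    have e2 : 0 ≤ C * √((t - s) / √T) * √√(K : ℝ) := by positivity
    nlinarith
  intro T t s lam K hT hs hs4 ht ht4 hne hlam hK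
  rcases lt_or_gt_of_ne hne with hlt | hgt
  · have h1 := one T s t lam K hT ht hlt hs4 hlam hK
    have e1 : |t - s| = s - t := by rw [abs_of_neg (by linarith)]; ring
    rw [e1]
    refine le_trans (le_of_eq ?_) h1
    rw [← Complex.norm_conj, map_sum]
    congr 1
    apply sum_congr rfl
    intro k _
    rw [map_mul, Complex.conj_ofReal, ← Complex.exp_conj, map_mul, Complex.conj_ofReal, Complex.conj_I]
    congr 2
    push_cast
    ring
  · have h1 := one T t s lam K hT hs hgt ht4 hlam hK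
    have e1 : |t - s| = t - s := abs_of_pos (by linarith)
    rw [e1]
    exact h1

end M12
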