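import Pool.Agent.Lib.MP_39df77_nt.M12.Win
import Pool.Agent.Lib.MP_39df77_nt.U6.A06
import Pool.Agent.Lib.MP_39df77_nt.U6.A07
/-! The twelfth moment of the zeta function: `∫_T^{2T} |ζ(1/2+it)|^12 dt ≤ C T^(2+e)`. -/
open Complex MeasureTheory Set
namespace M12
open U6

theorem crossing {p : ℕ → Prop} {M : ℕ} (h0 : p 0) (hM : ¬ p M) : ∃ i, i < M ∧ p i ∧ ¬ p (i + 1) := by
  by_contra hcon
  push Not at hcon
  have : ∀ i, i ≤ M → p i := by
    intro i
    induction i with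
    | zero => intro _; exact h0
    | succ i ih => intro hi; exact hcon i (by omega) (ih (by omega))
  exact hM (this M le_rfl)

theorem ii_of_bdd_meas {f g : ℝ → ℝ} (hg : Continuous g) (hf : Measurable f)
    (h : ∀ t, |f t| ≤ g t) (a b : ℝ) : IntervalIntegrable f volume a b := by
  refine (hg.intervalIntegrable a b).mono_fun hf.aestronglyMeasurable ?_
  refine Filter.Eventually.of_forall fun t => ?_
  change ‖f t‖ ≤ ‖g t‖
  rw [Real.norm_eq_abs, Real.norm_eq_abs]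
  exact (h t).trans (le_abs_self _)

/-- mean square of `D` over the set where `B_G ≥ T^ε`, `B_{G'} < T^ε` -/
theorem mean_S {ε : ℝ} (hε : 0 < ε) (hε1 : ε ≤ 1 / 400) :
    ∃ C T₀ : ℝ, 0 < C ∧ 1 ≤ T₀ ∧ ∀ T G G' : ℝ, T₀ ≤ T → T ^ (1 / 4 : ℝ) ≤ G → G ≤ G' →
      G' ≤ T ^ (2 / 5 : ℝ) → G' ≤ T ^ ε * G →
      ∫ t in T..(2 * T), ({t | T ^ ε ≤ B (NN T) G t} ∩ {t | B (NN T) G' t < T ^ ε}).indicator
        (fun t => ‖D (NN T) t‖ ^ 2) t ≤
      C * T ^ (2 * ε) * volume.real ({t | 1 ≤ ‖Y G t (KG G ε T)‖} ∩ Icc T (3 * T)) := by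
  obtain ⟨C, hC, hmean⟩ := local_mean
  obtain ⟨T₁, hT₁1, hBY⟩ := B_Y hε hε1
  refine ⟨C, max T₁ 2, hC, hT₁1.trans (le_max_left _ _), fun T G G' hT hG1 hGG hG2 hGr => ?_⟩
  have hTT : T₁ ≤ T := (le_max_left _ _).trans hT
  have hT2 : 2 ≤ T := (le_max_right _ _).trans hT
  have hT0 : 0 < T := by linarith
  have hT1 : 1 ≤ T := by linarith
  have hGone : 1 ≤ G := (Real.one_le_rpow hT1 (by norm_num)).trans hG1
  have hG0 : 0 < G := by linarith
  have hG0' : 0 < G' := by linarith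
  have hGT : G ≤ T := by
    have h1 := Real.rpow_le_rpow_of_exponent_le hT1 (show (2 / 5 : ℝ) ≤ 1 by norm_num)
    rw [Real.rpow_one] at h1
    linarith
  have hN2 : 2 ≤ NN T := by
    unfold NN
    calc (2 : ℝ) ≤ T := hT2
      _ = T ^ (1 : ℝ) := (Real.rpow_one T).symm
      _ ≤ T ^ (3 / 2 : ℝ) := Real.rpow_le_rpow_of_exponent_le hT1 (by norm_num)
  have hN0 : 0 < NN T := by linarith
  set S : Set ℝ := {t | T ^ ε ≤ B (NN T) G t} ∩ {t | B (NN T) G' t < T ^ ε} with hS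
  set Wd : Set ℝ := {t | 1 ≤ ‖Y G t (KG G ε T)‖} with hWd
  have hSm : MeasurableSet S :=
    (measurableSet_le measurable_const (B_meas G hN0)).inter
      (measurableSet_lt (B_meas G' hN0) measurable_const)
  have hWm : MeasurableSet Wd := measurableSet_le measurable_const (Y_meas G _).norm
  have hDc : Continuous (fun t => ‖D (NN T) t‖ ^ 2) := (A03_D_cont hN0).norm.pow 2
  set c : ℝ := C * T ^ (2 * ε) with hc
  have hc0 : 0 ≤ c := by positivity
  set f : ℝ → ℝ := S.indicator (fun t => ‖D (NN T) t‖ ^ 2) with hf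
  set g : ℝ → ℝ := Wd.indicator (fun _ => c) with hg
  have hf0 : ∀ t, 0 ≤ f t := fun t => indicator_nonneg (fun _ _ => sq_nonneg _) _
  have hg0 : ∀ t, 0 ≤ g t := fun t => indicator_nonneg (fun _ _ => hc0) _
  have hfD : ∀ t, f t ≤ ‖D (NN T) t‖ ^ 2 := fun t =>
    indicator_le_self' (fun _ _ => sq_nonneg _) t
  have hfi : ∀ a b : ℝ, IntervalIntegrable f volume a b :=
    ii_of_bdd_meas hDc (hDc.measurable.indicator hSm) fun t => by
      rw [abs_of_nonneg (hf0 t)]; exact hfD t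
  have hgi : ∀ a b : ℝ, IntervalIntegrable g volume a b :=
    ii_of_bdd_meas (g := fun _ => c) continuous_const (measurable_const.indicator hWm) fun t => by
      rw [abs_of_nonneg (hg0 t)]
      exact indicator_le_self' (fun _ _ => hc0) t
  have key : ∀ a : ℝ, T ≤ a → a ≤ 2 * T → ∫ t in a..(a + G), f t ≤ ∫ t in a..(a + G), g t := by
    intro a ha1 ha2
    by_cases hne : (S ∩ Icc a (a + G)).Nonempty
    · obtain ⟨t', ht'S, ht'I⟩ := hne
      have hdist : ∀ t ∈ Icc a (a + G), |t - t'| ≤ G := by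
        intro t ht
        rw [abs_le]
        constructor <;> linarith [ht.1, ht.2, ht'I.1, ht'I.2]
      have h1 : ∫ t in a..(a + G), f t ≤ C * (G * B (NN T) G t') := by
        refine le_trans ?_ (hmean (NN T) G a t' hN2 hGone (hdist a ⟨le_refl _, by linarith⟩))
        exact intervalIntegral.integral_mono_on (by linarith) (hfi _ _) (hDc.intervalIntegrable _ _)
          (fun t _ => hfD t)
      have h2 : B (NN T) G t' ≤ T ^ (2 * ε) := by
        calc B (NN T) G t' ≤ G' / G * B (NN T) G' t' := B_mono hN0 hG0 hGG t'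
          _ ≤ T ^ ε * T ^ ε := by
              apply mul_le_mul _ ht'S.2.le (B_nonneg hG0') (by positivity)
              rwa [div_le_iff₀ hG0]
          _ = T ^ (2 * ε) := by rw [← Real.rpow_add hT0]; congr 1; ring
      have h3 : ∀ t ∈ Icc a (a + G), t ∈ Wd := by
        intro t ht
        have ht4 : t ≤ 4 * T := by linarith [ht.2]
        refine (hBY T t G hTT (by linarith [ht.1]) ht4 hG1 (hGG.trans hG2)).1 ?_
        have := B_shift hN0 hG0 (hdist t ht)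
        have h4 : T ^ ε ≤ B (NN T) G t' := ht'S.1
        linarith
      have h4 : ∫ t in a..(a + G), g t = c * G := by
        have : ∫ t in a..(a + G), g t = ∫ t in a..(a + G), c := by
          apply intervalIntegral.integral_congr
          intro t ht
          rw [uIcc_of_le (by linarith)] at ht
          exact indicator_of_mem (h3 t ht) _
        rw [this, intervalIntegral.integral_const, smul_eq_mul]
        ring
      rw [h4]
      calc ∫ t in a..(a + G), f t ≤ C * (G * B (NN T) G t') := h1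
        _ ≤ C * (G * T ^ (2 * ε)) := by
            apply mul_le_mul_of_nonneg_left _ hC.le
            exact mul_le_mul_of_nonneg_left h2 hG0.le
        _ = c * G := by rw [hc]; ring
    · have h1 : ∫ t in a..(a + G), f t = ∫ t in a..(a + G), (0 : ℝ) := by
        apply intervalIntegral.integral_congr
        intro t ht
        rw [uIcc_of_le (by linarith)] at ht
        exact indicator_of_notMem (fun h => hne ⟨t, h, ht⟩) _
      rw [h1, intervalIntegral.integral_zero]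
      exact intervalIntegral.integral_nonneg (by linarith) fun t _ => hg0 t
  refine (window hT0 hG0 hGT hfi hgi hf0 hg0 key).trans ?_
  rw [intervalIntegral.integral_of_le (by linarith), hg, integral_indicator hWm,
    Measure.restrict_restrict hWm, setIntegral_const, smul_eq_mul, mul_comm]
  apply mul_le_mul_of_nonneg_left _ hc0
  have hfin : volume (Wd ∩ Icc T (3 * T)) ≠ ⊤ :=
    ((measure_mono inter_subset_right).trans_lt (by simp)).ne
  exact measureReal_mono (inter_subset_inter_right _ Ioc_subset_Icc_self) hfin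

/-- pointwise bound for `D` from `B` -/
theorem D_sup {ε : ℝ} (hε : 0 < ε) :
    ∃ T₀ : ℝ, 1 ≤ T₀ ∧ ∀ T t G : ℝ, T₀ ≤ T → 1 ≤ G → B (NN T) G t < T ^ ε →
      ‖D (NN T) t‖ ^ 2 ≤ T ^ (2 * ε) * G := by
  obtain ⟨C, hC, h⟩ := local_sup_strong
  have ev : ∀ᶠ T : ℝ in Filter.atTop, 3 * C * Real.log T ≤ T ^ ε := by
    have := (isLittleO_log_rpow_atTop hε).bound (c := 1 / (3 * C)) (by positivity)
    filter_upwards [this, Filter.eventually_ge_atTop 1] with T hT h1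
    rw [Real.norm_eq_abs, Real.norm_eq_abs, abs_of_nonneg (Real.rpow_nonneg (by linarith) _)] at hT
    have h5 := (le_abs_self _).trans hT
    calc 3 * C * Real.log T ≤ 3 * C * (1 / (3 * C) * T ^ ε) :=
          mul_le_mul_of_nonneg_left h5 (by positivity)
      _ = T ^ ε := by field_simp
  obtain ⟨T₀, hT₀⟩ := Filter.eventually_atTop.1 (ev.and (Filter.eventually_ge_atTop (2:ℝ)))
  refine ⟨max T₀ 1, le_max_right _ _, fun T t G hT hG hB => ?_⟩
  obtain ⟨c1, hT2⟩ := hT₀ T ((le_max_left _ _).trans hT)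
  have hT0 : 0 < T := by linarith
  have hT1 : 1 ≤ T := by linarith
  have hN2 : 2 ≤ NN T := by
    unfold NN
    calc (2 : ℝ) ≤ T := hT2
      _ = T ^ (1 : ℝ) := (Real.rpow_one T).symm
      _ ≤ T ^ (3 / 2 : ℝ) := Real.rpow_le_rpow_of_exponent_le hT1 (by norm_num)
  have hlog : Real.log (NN T) = 3 / 2 * Real.log T := by
    unfold NN
    rw [Real.log_rpow hT0]
  have hlogn : 0 ≤ Real.log T := Real.log_nonneg hT1
  have hTe : 1 ≤ T ^ ε := Real.one_le_rpow hT1 hε.le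
  have h1 := h (NN T) G t t hN2 hG (by simp; linarith)
  rw [hlog] at h1
  have h2 : G * B (NN T) G t + 1 ≤ 2 * (G * T ^ ε) := by
    have h3 : G * B (NN T) G t ≤ G * T ^ ε := mul_le_mul_of_nonneg_left hB.le (by linarith)
    have h4 : 1 ≤ G * T ^ ε := by nlinarith
    linarith
  calc ‖D (NN T) t‖ ^ 2 ≤ C * (3 / 2 * Real.log T) * (G * B (NN T) G t + 1) := h1
    _ ≤ C * (3 / 2 * Real.log T) * (2 * (G * T ^ ε)) :=
        mul_le_mul_of_nonneg_left h2 (by positivity)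
    _ = 3 * C * Real.log T * (G * T ^ ε) := by ring
    _ ≤ T ^ ε * (G * T ^ ε) := mul_le_mul_of_nonneg_right c1 (by positivity)
    _ = T ^ (2 * ε) * G := by
        rw [show 2 * ε = ε + ε by ring, Real.rpow_add hT0]
        ring

/-- fourth moment of `D` -/
theorem D_four {ε : ℝ} (hε : 0 < ε) :
    ∃ C : ℝ, 0 < C ∧ ∀ T : ℝ, 2 ≤ T → ∫ t in T..(2 * T), ‖D (NN T) t‖ ^ 4 ≤ C * T ^ (1 + ε) := by
  obtain ⟨C1, h1⟩ := fourth_moment ε hε
  obtain ⟨C2, _, h2⟩ := zeta_le_D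
  refine ⟨8 * |C1| + 8 * |C2| ^ 4 + 1, by positivity, fun T hT => ?_⟩
  have hT0 : 0 < T := by linarith
  have hT1 : 1 ≤ T := by linarith
  have hN0 : 0 < NN T := by unfold NN; positivity
  have hDc : Continuous (fun t => ‖D (NN T) t‖ ^ 4) := (A03_D_cont hN0).norm.pow 4
  have hZc : Continuous (fun t : ℝ => ‖riemannZeta (1 / 2 + t * I)‖ ^ 4) := U6.FM.fm_zeta_cont.norm.pow 4
  have hb : ∫ t in T..(2 * T), ‖D (NN T) t‖ ^ 4 ≤
      ∫ t in T..(2 * T), (8 * ‖riemannZeta (1 / 2 + t * I)‖ ^ 4 + 8 * |C2| ^ 4) := by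
    apply intervalIntegral.integral_mono_on (by linarith) (hDc.intervalIntegrable _ _)
      (((continuous_const.mul hZc).add continuous_const).intervalIntegrable _ _)
    intro t ht
    have h3 := h2 T t hT ht.1 ht.2
    have h4 : ‖D (NN T) t‖ ≤ ‖riemannZeta (1 / 2 + t * I)‖ + |C2| := by
      have := norm_sub_norm_le (D (NN T) t) (riemannZeta (1 / 2 + t * I))
      rw [norm_sub_rev] at this
      have := le_abs_self C2
      linarith
    have h5 : ∀ a b : ℝ, 0 ≤ a → 0 ≤ b → (a + b) ^ 4 ≤ 8 * a ^ 4 + 8 * b ^ 4 := by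
      intro a b ha hb
      have h6 : (a + b) ^ 2 ≤ 2 * (a ^ 2 + b ^ 2) := by nlinarith [sq_nonneg (a - b)]
      have h7 : (a + b) ^ 4 ≤ (2 * (a ^ 2 + b ^ 2)) ^ 2 := by
        calc (a + b) ^ 4 = ((a + b) ^ 2) ^ 2 := by ring
          _ ≤ _ := pow_le_pow_left₀ (by positivity) h6 2
      nlinarith [sq_nonneg (a ^ 2 - b ^ 2)]
    exact (pow_le_pow_left₀ (norm_nonneg _) h4 4).trans (h5 _ _ (norm_nonneg _) (abs_nonneg _))
  refine hb.trans ?_
  have k1 : IntervalIntegrable (fun t : ℝ => 8 * ‖riemannZeta (1 / 2 + t * I)‖ ^ 4) volume T (2 * T) :=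
    (continuous_const.mul hZc).intervalIntegrable _ _
  have k2 : IntervalIntegrable (fun _ : ℝ => 8 * |C2| ^ 4) volume T (2 * T) :=
    continuous_const.intervalIntegrable _ _
  rw [intervalIntegral.integral_add k1 k2, intervalIntegral.integral_const_mul,
    intervalIntegral.integral_const, smul_eq_mul]
  have h6 := h1 T hT1
  have h7 : C1 * T ^ (1 + ε) ≤ |C1| * T ^ (1 + ε) :=
    mul_le_mul_of_nonneg_right (le_abs_self _) (by positivity)
  have h8 : T ≤ T ^ (1 + ε) := by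
    calc T = T ^ (1 : ℝ) := (Real.rpow_one T).symm
      _ ≤ _ := Real.rpow_le_rpow_of_exponent_le hT1 (by linarith)
  have h9 : (2 * T - T) * (8 * |C2| ^ 4) ≤ 8 * |C2| ^ 4 * T ^ (1 + ε) := by
    calc (2 * T - T) * (8 * |C2| ^ 4) = 8 * |C2| ^ 4 * T := by ring
      _ ≤ _ := mul_le_mul_of_nonneg_left h8 (by positivity)
  have h10 : 0 ≤ T ^ (1 + ε) := by positivity
  calc 8 * (∫ t in T..(2 * T), ‖riemannZeta (1 / 2 + t * I)‖ ^ 4) + (2 * T - T) * (8 * |C2| ^ 4)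
      ≤ 8 * (|C1| * T ^ (1 + ε)) + 8 * |C2| ^ 4 * T ^ (1 + ε) := by linarith
    _ ≤ _ := by nlinarith

/-- exponent arithmetic for one scale -/
theorem scale_bd {T ε x δ Cm CL : ℝ} {K : ℕ} (hT : 1 ≤ T) (hε : 0 < ε)
    (hK : (K : ℝ) ≤ 2 * T ^ (1 / 2 + 4 * ε - 2 * x)) (hx : x ≤ 1 / 12 + 3 * ε) (hδ : 5 * δ ≤ 5 * ε)
    (hCm : 0 ≤ Cm) (hCL : 0 ≤ CL) :
    (T ^ (1 / 4 + x + 3 * ε)) ^ 5 * (Cm * T ^ (2 * ε) *
      (CL * T ^ (5 * δ) * (K + (K : ℝ) ^ 2 * √(K : ℝ) / √T))) ≤ 10 * (Cm * CL) * T ^ (2 + 35 * ε) := by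
  have hT0 : 0 < T := by linarith
  set κ : ℝ := T ^ (1 / 2 + 4 * ε - 2 * x) with hκ
  have hκ0 : 0 < κ := by positivity
  have hK0 : (0 : ℝ) ≤ K := Nat.cast_nonneg K
  have e1 : (K : ℝ) ^ 2 * √(K : ℝ) ≤ 8 * (κ ^ 2 * √κ) := by
    have h1 : (K : ℝ) ^ 2 ≤ (2 * κ) ^ 2 := pow_le_pow_left₀ hK0 hK 2
    have h2 : √(K : ℝ) ≤ √(2 * κ) := Real.sqrt_le_sqrt hK
    have h3 : √(2 * κ) ≤ 2 * √κ := by
      rw [Real.sqrt_le_left (by positivity), mul_pow, Real.sq_sqrt hκ0.le]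
      linarith
    calc (K : ℝ) ^ 2 * √(K : ℝ) ≤ (2 * κ) ^ 2 * (2 * √κ) :=
          mul_le_mul h1 (h2.trans h3) (Real.sqrt_nonneg _) (by positivity)
      _ = 8 * (κ ^ 2 * √κ) := by ring
  have e2 : κ ^ 2 * √κ / √T = T ^ (5 / 4 + 10 * ε - 5 * x - 1 / 2) := by
    rw [Real.sqrt_eq_rpow, Real.sqrt_eq_rpow, hκ, ← Real.rpow_natCast, ← Real.rpow_mul hT0.le,
      ← Real.rpow_mul hT0.le, ← Real.rpow_add hT0, ← Real.rpow_sub hT0]
    congr 1
    push_cast
    ring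
  have e3 : (K : ℝ) + (K : ℝ) ^ 2 * √(K : ℝ) / √T ≤ 2 * κ + 8 * T ^ (5 / 4 + 10 * ε - 5 * x - 1 / 2) := by
    have h1 : (K : ℝ) ^ 2 * √(K : ℝ) / √T ≤ 8 * (κ ^ 2 * √κ) / √T :=
      div_le_div_of_nonneg_right e1 (Real.sqrt_nonneg _)
    rw [show 8 * (κ ^ 2 * √κ) / √T = 8 * (κ ^ 2 * √κ / √T) by ring, e2] at h1
    linarith
  have e4 : (T ^ (1 / 4 + x + 3 * ε)) ^ 5 = T ^ (5 / 4 + 5 * x + 15 * ε) := by
    rw [← Real.rpow_natCast, ← Real.rpow_mul hT0.le]
    congr 1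
    push_cast
    ring
  have e5 : T ^ (5 * δ) ≤ T ^ (5 * ε) := Real.rpow_le_rpow_of_exponent_le hT hδ
  rw [e4]
  calc T ^ (5 / 4 + 5 * x + 15 * ε) * (Cm * T ^ (2 * ε) *
        (CL * T ^ (5 * δ) * (K + (K : ℝ) ^ 2 * √(K : ℝ) / √T)))
      ≤ T ^ (5 / 4 + 5 * x + 15 * ε) * (Cm * T ^ (2 * ε) *
        (CL * T ^ (5 * ε) * (2 * κ + 8 * T ^ (5 / 4 + 10 * ε - 5 * x - 1 / 2)))) := by
        gcongr
    _ = Cm * CL * (2 * (T ^ (5 / 4 + 5 * x + 15 * ε) * T ^ (2 * ε) * T ^ (5 * ε) * κ) +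
          8 * (T ^ (5 / 4 + 5 * x + 15 * ε) * T ^ (2 * ε) * T ^ (5 * ε) *
            T ^ (5 / 4 + 10 * ε - 5 * x - 1 / 2))) := by ring
    _ = Cm * CL * (2 * T ^ (5 / 4 + 5 * x + 15 * ε + 2 * ε + 5 * ε + (1 / 2 + 4 * ε - 2 * x)) +
          8 * T ^ (5 / 4 + 5 * x + 15 * ε + 2 * ε + 5 * ε + (5 / 4 + 10 * ε - 5 * x - 1 / 2))) := by
        rw [hκ, ← Real.rpow_add hT0, ← Real.rpow_add hT0, ← Real.rpow_add hT0, ← Real.rpow_add hT0]
    _ ≤ Cm * CL * (2 * T ^ (2 + 35 * ε) + 8 * T ^ (2 + 35 * ε)) := by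
        apply mul_le_mul_of_nonneg_left _ (by positivity)
        have h1 : T ^ (5 / 4 + 5 * x + 15 * ε + 2 * ε + 5 * ε + (1 / 2 + 4 * ε - 2 * x)) ≤
            T ^ (2 + 35 * ε) := Real.rpow_le_rpow_of_exponent_le hT (by linarith)
        have h2 : T ^ (5 / 4 + 5 * x + 15 * ε + 2 * ε + 5 * ε + (5 / 4 + 10 * ε - 5 * x - 1 / 2)) ≤
            T ^ (2 + 35 * ε) := Real.rpow_le_rpow_of_exponent_le hT (by linarith)
        linarith
    _ = 10 * (Cm * CL) * T ^ (2 + 35 * ε) := by ring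

/-- twelfth moment of `D` -/
theorem D_twelve {n : ℕ} (hn : 100 ≤ n) {ε : ℝ} (hεn : ε = 1 / (12 * n)) :
    ∃ C T₀ : ℝ, 0 < C ∧ 1 ≤ T₀ ∧ ∀ T : ℝ, T₀ ≤ T →
      ∫ t in T..(2 * T), ‖D (NN T) t‖ ^ 12 ≤ C * T ^ (2 + 35 * ε) := by
  have hn0 : (100 : ℝ) ≤ n := by exact_mod_cast hn
  have hε : 0 < ε := by rw [hεn]; positivity
  have hnε : (n : ℝ) * ε = 1 / 12 := by rw [hεn]; field_simp
  have hε1 : ε ≤ 1 / 1200 := by nlinarith
  obtain ⟨Cm, Tm, hCm, hTm1, hS⟩ := mean_S hε (by linarith)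
  obtain ⟨TB, hTB1, hBY⟩ := B_Y hε (by linarith)
  obtain ⟨TD, hTD1, hD⟩ := D_sup hε
  obtain ⟨C4, hC4, h4⟩ := D_four hε
  obtain ⟨CL, TL, hCL, hTL1, hL⟩ := large ε hε (by linarith)
  obtain ⟨CY, hCY, hY⟩ := Y_triv hε
  have ev1 : ∀ᶠ T : ℝ in Filter.atTop, 2 * CY ≤ T ^ ε :=
    (tendsto_rpow_atTop hε).eventually_ge_atTop _
  have ev2 : ∀ᶠ T : ℝ in Filter.atTop, 10 ≤ T ^ (1 / 2 - 4 * ε) :=
    (tendsto_rpow_atTop (by linarith)).eventually_ge_atTop _
  obtain ⟨T₀, hT₀⟩ := Filter.eventually_atTop.1 ((ev1.and ev2).and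
    (((Filter.eventually_ge_atTop (2:ℝ)).and (Filter.eventually_ge_atTop Tm)).and
      (((Filter.eventually_ge_atTop TB).and (Filter.eventually_ge_atTop TD)).and
        (Filter.eventually_ge_atTop TL))))
  refine ⟨C4 + (n + 3) * (10 * (Cm * CL)), max T₀ 1, by positivity, le_max_right _ _, fun T hT => ?_⟩
  obtain ⟨⟨c1, c2⟩, ⟨hT2, hTTm⟩, ⟨hTTB, hTTD⟩, hTTL⟩ := hT₀ T ((le_max_left _ _).trans hT)
  have hT0 : 0 < T := by linarith
  have hT1 : 1 ≤ T := by linarith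
  have hN0 : 0 < NN T := by unfold NN; positivity
  set M : ℕ := n + 3 with hM
  have hMr : (M : ℝ) * ε = 1 / 12 + 3 * ε := by
    rw [hM]; push_cast; linarith
  set G : ℕ → ℝ := fun i => T ^ (1 / 4 + i * ε) with hG
  have hG0 : ∀ i, 0 < G i := fun i => by simp only [hG]; positivity
  have hGl : ∀ i, T ^ (1 / 4 : ℝ) ≤ G i := fun i => by
    simp only [hG]
    apply Real.rpow_le_rpow_of_exponent_le hT1
    have : 0 ≤ (i : ℝ) * ε := by positivity
    linarith
  have hiε : ∀ i : ℕ, i ≤ M → (i : ℝ) * ε ≤ 1 / 12 + 3 * ε := fun i hi => by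
    have h1 : (i : ℝ) ≤ M := by exact_mod_cast hi
    rw [← hMr]
    exact mul_le_mul_of_nonneg_right h1 hε.le
  have hGu : ∀ i, i ≤ M → G i ≤ T ^ (2 / 5 : ℝ) := fun i hi => by
    simp only [hG]
    apply Real.rpow_le_rpow_of_exponent_le hT1
    have := hiε i hi
    linarith
  have hGs : ∀ i, G (i + 1) = T ^ ε * G i := fun i => by
    simp only [hG]
    rw [← Real.rpow_add hT0]
    congr 1
    push_cast
    ring
  have hTe1 : 1 ≤ T ^ ε := Real.one_le_rpow hT1 hε.le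
  have hGm : ∀ i, G i ≤ G (i + 1) := fun i => by
    rw [hGs]
    have := hG0 i
    nlinarith
  have hG1 : ∀ i, 1 ≤ G i := fun i => (Real.one_le_rpow hT1 (by norm_num)).trans (hGl i)
  -- the exponent of `T^(1+4ε) / G_i^2`
  have hGe : ∀ i : ℕ, T ^ (1 + 4 * ε) / G i ^ 2 = T ^ (1 / 2 + 4 * ε - 2 * (i * ε)) := fun i => by
    simp only [hG]
    rw [← Real.rpow_natCast, ← Real.rpow_mul hT0.le, ← Real.rpow_sub hT0]
    congr 1
    push_cast
    ring
  have hKu : ∀ i : ℕ, i ≤ M → (KG (G i) ε T : ℝ) ≤ 2 * T ^ (1 / 2 + 4 * ε - 2 * (i * ε)) := fun i hi => by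
    have h1 : (KG (G i) ε T : ℝ) < T ^ (1 + 4 * ε) / G i ^ 2 + 1 :=
      Nat.ceil_lt_add_one (by have := hG0 i; positivity)
    rw [hGe] at h1
    have h2 : 1 ≤ T ^ (1 / 2 + 4 * ε - 2 * (i * ε)) := by
      apply Real.one_le_rpow hT1
      have := hiε i hi
      linarith
    linarith
  have hK1 : ∀ i : ℕ, 1 ≤ KG (G i) ε T := fun i => by
    apply Nat.ceil_pos.2
    have := hG0 i
    positivity
  -- no large values at the last scale
  have hlast : ∀ t, T ≤ t → t ≤ 2 * T → B (NN T) (G M) t < T ^ ε := by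
    intro t ht1 ht2
    refine (hBY T t (G M) hTTB ht1 (by linarith) (hGl M) (hGu M le_rfl)).2 ?_
    refine (hY (G M) t T (KG (G M) ε T) (hG0 M).le hT0 ht1 (hK1 M)).trans ?_
    have h1 := hKu M le_rfl
    have h2 : (KG (G M) ε T : ℝ) ^ (3 / 4 + ε) ≤ 2 * T ^ (1 / 4 - ε) := by
      have h3 : (1 / 2 + 4 * ε - 2 * (M * ε)) = 1 / 3 - 2 * ε := by rw [hMr]; ring
      rw [h3] at h1
      calc (KG (G M) ε T : ℝ) ^ (3 / 4 + ε) ≤ (2 * T ^ (1 / 3 - 2 * ε)) ^ (3 / 4 + ε) :=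
            Real.rpow_le_rpow (Nat.cast_nonneg _) h1 (by linarith)
        _ = (2 : ℝ) ^ (3 / 4 + ε) * T ^ ((1 / 3 - 2 * ε) * (3 / 4 + ε)) := by
            rw [Real.mul_rpow (by norm_num) (by positivity), ← Real.rpow_mul hT0.le]
        _ ≤ 2 * T ^ (1 / 4 - ε) := by
            apply mul_le_mul _ _ (by positivity) (by norm_num)
            · calc (2 : ℝ) ^ (3 / 4 + ε) ≤ (2 : ℝ) ^ (1 : ℝ) :=
                    Real.rpow_le_rpow_of_exponent_le (by norm_num) (by linarith)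
                _ = 2 := Real.rpow_one 2
            · apply Real.rpow_le_rpow_of_exponent_le hT1
              nlinarith
    calc CY * ((KG (G M) ε T : ℝ) ^ (3 / 4 + ε) * T ^ (-(1 / 4) : ℝ))
        ≤ CY * (2 * T ^ (1 / 4 - ε) * T ^ (-(1 / 4) : ℝ)) := by
          apply mul_le_mul_of_nonneg_left _ hCY.le
          exact mul_le_mul_of_nonneg_right h2 (by positivity)
      _ = 2 * CY * T ^ (-ε) := by
          rw [mul_assoc 2, ← Real.rpow_add hT0]
          have : (1 / 4 - ε + -(1 / 4)) = -ε := by ring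
          rw [this]
          ring
      _ ≤ T ^ ε * T ^ (-ε) := mul_le_mul_of_nonneg_right c1 (by positivity)
      _ = 1 := by rw [← Real.rpow_add hT0]; simp
  -- pointwise inequality
  set d : ℝ → ℝ := fun t => ‖D (NN T) t‖ with hd
  have hd0 : ∀ t, 0 ≤ d t := fun t => norm_nonneg _
  have hdc : Continuous d := (A03_D_cont hN0).norm
  set S : ℕ → Set ℝ := fun i => {t | T ^ ε ≤ B (NN T) (G i) t} ∩ {t | B (NN T) (G (i + 1)) t < T ^ ε} with hSd
  have hSm : ∀ i, MeasurableSet (S i) := fun i =>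
    (measurableSet_le measurable_const (B_meas _ hN0)).inter
      (measurableSet_lt (B_meas _ hN0) measurable_const)
  set F : ℕ → ℝ → ℝ := fun i => (S i).indicator (fun t => d t ^ 2) with hF
  have hF0 : ∀ i t, 0 ≤ F i t := fun i t => indicator_nonneg (fun _ _ => sq_nonneg _) _
  have hFi : ∀ i, ∀ a b : ℝ, IntervalIntegrable (F i) volume a b := fun i =>
    ii_of_bdd_meas (hdc.pow 2) ((hdc.pow 2).measurable.indicator (hSm i)) fun t => by
      rw [abs_of_nonneg (hF0 i t)]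
      exact indicator_le_self' (fun _ _ => sq_nonneg _) t
  have hpt : ∀ t ∈ Icc T (2 * T), d t ^ 12 ≤ (T ^ (2 * ε) * G 0) ^ 4 * d t ^ 4 +
      ∑ i ∈ Finset.range M, (T ^ (1 / 4 + (i : ℝ) * ε + 3 * ε)) ^ 5 * F i t := by
    intro t ht
    have hsum0 : 0 ≤ ∑ i ∈ Finset.range M, (T ^ (1 / 4 + (i : ℝ) * ε + 3 * ε)) ^ 5 * F i t :=
      Finset.sum_nonneg fun i _ => mul_nonneg (by positivity) (hF0 i t)
    have hfirst0 : 0 ≤ (T ^ (2 * ε) * G 0) ^ 4 * d t ^ 4 := by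
      have := hG0 0
      positivity
    by_cases hB : B (NN T) (G 0) t < T ^ ε
    · have h1 : d t ^ 2 ≤ T ^ (2 * ε) * G 0 := hD T t (G 0) hTTD (hG1 0) hB
      have h2 : d t ^ 12 ≤ (T ^ (2 * ε) * G 0) ^ 4 * d t ^ 4 := by
        calc d t ^ 12 = (d t ^ 2) ^ 4 * d t ^ 4 := by ring
          _ ≤ _ := mul_le_mul_of_nonneg_right (pow_le_pow_left₀ (sq_nonneg _) h1 4) (by positivity)
      linarith
    · push Not at hB
      obtain ⟨i, hiM, hi1, hi2⟩ := crossing (p := fun i => T ^ ε ≤ B (NN T) (G i) t) (M := M) hB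
        (not_le.2 (hlast t ht.1 ht.2))
      have hi2' : B (NN T) (G (i + 1)) t < T ^ ε := not_le.1 hi2
      have h1 : d t ^ 2 ≤ T ^ (2 * ε) * G (i + 1) := hD T t (G (i + 1)) hTTD (hG1 _) hi2'
      have h1' : T ^ (2 * ε) * G (i + 1) = T ^ (1 / 4 + (i : ℝ) * ε + 3 * ε) := by
        simp only [hG]
        rw [← Real.rpow_add hT0]
        congr 1
        push_cast
        ring
      rw [h1'] at h1
      have h2 : F i t = d t ^ 2 := indicator_of_mem (show t ∈ S i from ⟨hi1, hi2'⟩) _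
      have h3 : d t ^ 12 ≤ (T ^ (1 / 4 + (i : ℝ) * ε + 3 * ε)) ^ 5 * F i t := by
        rw [h2]
        calc d t ^ 12 = (d t ^ 2) ^ 5 * d t ^ 2 := by ring
          _ ≤ _ := mul_le_mul_of_nonneg_right (pow_le_pow_left₀ (sq_nonneg _) h1 5) (by positivity)
      have h4 : (T ^ (1 / 4 + (i : ℝ) * ε + 3 * ε)) ^ 5 * F i t ≤
          ∑ i ∈ Finset.range M, (T ^ (1 / 4 + (i : ℝ) * ε + 3 * ε)) ^ 5 * F i t :=
        Finset.single_le_sum (f := fun i : ℕ => (T ^ (1 / 4 + (i : ℝ) * ε + 3 * ε)) ^ 5 * F i t)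
          (fun i _ => mul_nonneg (by positivity) (hF0 i t)) (Finset.mem_range.2 hiM)
      linarith
  -- integrate
  have hi1 : IntervalIntegrable (fun t => (T ^ (2 * ε) * G 0) ^ 4 * d t ^ 4) volume T (2 * T) :=
    (continuous_const.mul (hdc.pow 4)).intervalIntegrable _ _
  have hi2 : IntervalIntegrable (fun t => ∑ i ∈ Finset.range M,
      (T ^ (1 / 4 + (i : ℝ) * ε + 3 * ε)) ^ 5 * F i t) volume T (2 * T) := by
    have := IntervalIntegrable.sum (μ := volume) (a := T) (b := 2 * T) (Finset.range M)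
      (f := fun (i : ℕ) t => (T ^ (1 / 4 + (i : ℝ) * ε + 3 * ε)) ^ 5 * F i t)
      (fun i _ => (hFi i T (2 * T)).const_mul _)
    refine this.congr ?_
    intro t _
    simp
  have hint : ∫ t in T..(2 * T), d t ^ 12 ≤ (T ^ (2 * ε) * G 0) ^ 4 * (∫ t in T..(2 * T), d t ^ 4) +
      ∑ i ∈ Finset.range M, (T ^ (1 / 4 + (i : ℝ) * ε + 3 * ε)) ^ 5 * ∫ t in T..(2 * T), F i t := by
    refine (intervalIntegral.integral_mono_on (by linarith) ((hdc.pow 12).intervalIntegrable _ _)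
      (hi1.add hi2) hpt).trans (le_of_eq ?_)
    rw [intervalIntegral.integral_add hi1 hi2, intervalIntegral.integral_const_mul,
      intervalIntegral.integral_finsetSum (fun i _ => (hFi i T (2 * T)).const_mul _)]
    congr 1
    refine Finset.sum_congr rfl fun i _ => ?_
    rw [intervalIntegral.integral_const_mul]
  refine hint.trans ?_
  have hfirst : (T ^ (2 * ε) * G 0) ^ 4 * (∫ t in T..(2 * T), d t ^ 4) ≤ C4 * T ^ (2 + 35 * ε) := by
    have h1 := h4 T hT2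
    have h2 : (T ^ (2 * ε) * G 0) ^ 4 = T ^ (1 + 8 * ε) := by
      simp only [hG]
      rw [← Real.rpow_add hT0, ← Real.rpow_natCast, ← Real.rpow_mul hT0.le]
      congr 1
      push_cast
      ring
    rw [h2]
    calc T ^ (1 + 8 * ε) * (∫ t in T..(2 * T), d t ^ 4) ≤ T ^ (1 + 8 * ε) * (C4 * T ^ (1 + ε)) :=
          mul_le_mul_of_nonneg_left h1 (by positivity)
      _ = C4 * T ^ (2 + 9 * ε) := by
          rw [mul_left_comm, ← Real.rpow_add hT0]
          congr 2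
          ring
      _ ≤ C4 * T ^ (2 + 35 * ε) := by
          apply mul_le_mul_of_nonneg_left _ hC4.le
          exact Real.rpow_le_rpow_of_exponent_le hT1 (by linarith)
  have hrest : ∀ i ∈ Finset.range M, (T ^ (1 / 4 + (i : ℝ) * ε + 3 * ε)) ^ 5 * (∫ t in T..(2 * T), F i t) ≤
      10 * (Cm * CL) * T ^ (2 + 35 * ε) := by
    intro i hi
    rw [Finset.mem_range] at hi
    have h1 := hS T (G i) (G (i + 1)) hTTm (hGl i) (hGm i) (hGu (i + 1) (by omega)) (hGs i).le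
    have hKi := hKu i hi.le
    have h2 := hL T (G i) (KG (G i) ε T) hTTL (hG0 i).le (hK1 i) (by
      have h3 : T ^ (1 / 2 + 4 * ε - 2 * (i * ε)) ≤ T ^ (1 / 2 + 4 * ε) := by
        apply Real.rpow_le_rpow_of_exponent_le hT1
        have : 0 ≤ (i : ℝ) * ε := by positivity
        linarith
      calc 5 * (KG (G i) ε T : ℝ) ≤ 5 * (2 * T ^ (1 / 2 + 4 * ε)) := by linarith
        _ = 10 * T ^ (1 / 2 + 4 * ε) := by ring
        _ ≤ T ^ (1 / 2 - 4 * ε) * T ^ (1 / 2 + 4 * ε) := mul_le_mul_of_nonneg_right c2 (by positivity)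
        _ = T := by
            rw [← Real.rpow_add hT0]
            have : (1 / 2 - 4 * ε + (1 / 2 + 4 * ε)) = 1 := by ring
            rw [this, Real.rpow_one])
    have h3 := scale_bd (T := T) (ε := ε) (x := i * ε) (δ := ε) (Cm := Cm) (CL := CL)
      (K := KG (G i) ε T) hT1 hε hKi (hiε i hi.le) le_rfl hCm.le hCL.le
    refine le_trans ?_ h3
    apply mul_le_mul_of_nonneg_left _ (by positivity)
    exact h1.trans (mul_le_mul_of_nonneg_left h2 (by positivity))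
  have hsum := Finset.sum_le_sum hrest
  rw [Finset.sum_const, Finset.card_range, nsmul_eq_mul] at hsum
  have hMc : (M : ℝ) = n + 3 := by rw [hM]; push_cast; ring
  rw [hMc] at hsum
  calc _ ≤ C4 * T ^ (2 + 35 * ε) + (n + 3) * (10 * (Cm * CL) * T ^ (2 + 35 * ε)) := add_le_add hfirst hsum
    _ = _ := by ring

/-- **Heath-Brown's twelfth moment**, dyadic form -/
theorem twelfth (e : ℝ) (he : 0 < e) : ∃ C : ℝ, 0 < C ∧ ∀ T : ℝ, 1 ≤ T →
    ∫ t in T..(2 * T), ‖riemannZeta (1 / 2 + t * I)‖ ^ 12 ≤ C * T ^ (2 + e) := by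
  obtain ⟨n0, hn0⟩ := exists_nat_ge (35 / (12 * e))
  set n : ℕ := max n0 100 with hn
  have hn100 : 100 ≤ n := le_max_right _ _
  have hnn : (n0 : ℝ) ≤ n := by exact_mod_cast le_max_left n0 100
  have hnr : (100 : ℝ) ≤ n := by exact_mod_cast hn100
  obtain ⟨C, T₀, hC, hT₀, h⟩ := D_twelve hn100 (ε := 1 / (12 * n)) rfl
  have hexp : 2 + 35 * (1 / (12 * (n : ℝ))) ≤ 2 + e := by
    have h1 : 35 / (12 * e) ≤ n := hn0.trans hnn
    rw [div_le_iff₀ (by positivity)] at h1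
    have h2 : 35 * (1 / (12 * (n : ℝ))) ≤ e := by
      rw [mul_one_div, div_le_iff₀ (by positivity)]
      linarith
    linarith
  obtain ⟨C2, _, h2⟩ := zeta_le_D
  have hZc : Continuous (fun t : ℝ => ‖riemannZeta (1 / 2 + t * I)‖ ^ 12) := U6.FM.fm_zeta_cont.norm.pow 12
  have hZ0 : ∀ t : ℝ, 0 ≤ ‖riemannZeta (1 / 2 + t * I)‖ ^ 12 := fun t => by positivity
  set T₁ : ℝ := max T₀ 2 with hT₁
  have hT₁2 : 2 ≤ T₁ := le_max_right _ _
  set J : ℝ := ∫ t in (1 : ℝ)..(2 * T₁), ‖riemannZeta (1 / 2 + t * I)‖ ^ 12 with hJ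
  have hJ0 : 0 ≤ J := intervalIntegral.integral_nonneg (by linarith) fun t _ => hZ0 t
  refine ⟨2048 * C + 2048 * |C2| ^ 12 + J, by positivity, fun T hT => ?_⟩
  have hT0 : 0 < T := by linarith
  have hp1 : 1 ≤ T ^ (2 + e) := Real.one_le_rpow hT (by linarith)
  rcases le_or_gt T₁ T with hTT | hTT
  · have hT2 : 2 ≤ T := hT₁2.trans hTT
    have hN0 : 0 < NN T := by unfold NN; positivity
    have hDc : Continuous (fun t => ‖D (NN T) t‖ ^ 12) := (A03_D_cont hN0).norm.pow 12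
    have hb : ∫ t in T..(2 * T), ‖riemannZeta (1 / 2 + t * I)‖ ^ 12 ≤
        ∫ t in T..(2 * T), (2048 * ‖D (NN T) t‖ ^ 12 + 2048 * |C2| ^ 12) := by
      apply intervalIntegral.integral_mono_on (by linarith) (hZc.intervalIntegrable _ _)
        (((continuous_const.mul hDc).add continuous_const).intervalIntegrable _ _)
      intro t ht
      have h3 := h2 T t hT2 ht.1 ht.2
      have h4 : ‖riemannZeta (1 / 2 + t * I)‖ ≤ ‖D (NN T) t‖ + |C2| := by
        have := norm_sub_norm_le (riemannZeta (1 / 2 + t * I)) (D (NN T) t)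
        have := le_abs_self C2
        linarith
      refine (pow_le_pow_left₀ (norm_nonneg _) h4 12).trans ?_
      have h5 := add_pow_le (norm_nonneg (D (NN T) t)) (abs_nonneg C2) 12
      norm_num at h5
      change (‖D (NN T) t‖ + |C2|) ^ 12 ≤ 2048 * ‖D (NN T) t‖ ^ 12 + 2048 * |C2| ^ 12
      linarith
    refine hb.trans ?_
    have k1 : IntervalIntegrable (fun t : ℝ => 2048 * ‖D (NN T) t‖ ^ 12) volume T (2 * T) :=
      (continuous_const.mul hDc).intervalIntegrable _ _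
    have k2 : IntervalIntegrable (fun _ : ℝ => 2048 * |C2| ^ 12) volume T (2 * T) :=
      continuous_const.intervalIntegrable _ _
    rw [intervalIntegral.integral_add k1 k2, intervalIntegral.integral_const_mul,
      intervalIntegral.integral_const, smul_eq_mul]
    have h6 := h T ((le_max_left _ _).trans hTT)
    have h7 : T ^ (2 + 35 * (1 / (12 * (n : ℝ)))) ≤ T ^ (2 + e) :=
      Real.rpow_le_rpow_of_exponent_le hT hexp
    have h8 : T ≤ T ^ (2 + e) := by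
      calc T = T ^ (1 : ℝ) := (Real.rpow_one T).symm
        _ ≤ _ := Real.rpow_le_rpow_of_exponent_le hT (by linarith)
    have h9 : (2 * T - T) * (2048 * |C2| ^ 12) ≤ 2048 * |C2| ^ 12 * T ^ (2 + e) := by
      calc (2 * T - T) * (2048 * |C2| ^ 12) = 2048 * |C2| ^ 12 * T := by ring
        _ ≤ _ := mul_le_mul_of_nonneg_left h8 (by positivity)
    have h10 : C * T ^ (2 + 35 * (1 / (12 * (n : ℝ)))) ≤ C * T ^ (2 + e) :=
      mul_le_mul_of_nonneg_left h7 hC.le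
    have h11 : 0 ≤ J * T ^ (2 + e) := by positivity
    calc 2048 * (∫ t in T..(2 * T), ‖D (NN T) t‖ ^ 12) + (2 * T - T) * (2048 * |C2| ^ 12)
        ≤ 2048 * (C * T ^ (2 + e)) + 2048 * |C2| ^ 12 * T ^ (2 + e) := by linarith
      _ ≤ _ := by linarith
  · have h3 : ∫ t in T..(2 * T), ‖riemannZeta (1 / 2 + t * I)‖ ^ 12 ≤ J :=
      intervalIntegral.integral_mono_interval hT (by linarith) (by linarith)
        (Filter.Eventually.of_forall hZ0) (hZc.intervalIntegrable _ _)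
    calc ∫ t in T..(2 * T), ‖riemannZeta (1 / 2 + t * I)‖ ^ 12 ≤ J := h3
      _ ≤ J * T ^ (2 + e) := le_mul_of_one_le_right hJ0 hp1
      _ ≤ _ := by
          apply mul_le_mul_of_nonneg_right _ (by positivity)
          have : 0 ≤ 2048 * C + 2048 * |C2| ^ 12 := by positivity
          linarith

/-- from dyadic blocks to `[0, T]` -/
theorem of_dyadic {f : ℝ → ℝ} (hf : Continuous f) (h0 : ∀ t, 0 ≤ f t) {C θ : ℝ} (hθ : 1 ≤ θ)
    (h : ∀ T : ℝ, 1 ≤ T → ∫ t in T..(2 * T), f t ≤ C * T ^ θ) :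
    ∃ C' : ℝ, 0 < C' ∧ ∀ T : ℝ, 1 ≤ T → ∫ t in (0 : ℝ)..T, f t ≤ C' * T ^ θ := by
  set J : ℝ := ∫ t in (0 : ℝ)..2, f t with hJ
  have hJ0 : 0 ≤ J := intervalIntegral.integral_nonneg (by norm_num) fun t _ => h0 t
  refine ⟨|C| + J + 1, by positivity, ?_⟩
  have hfi : ∀ a b : ℝ, IntervalIntegrable f volume a b := fun a b => hf.intervalIntegrable a b
  have key : ∀ m : ℕ, ∀ T : ℝ, 1 ≤ T → T ≤ 2 ^ (m + 1) → ∫ t in (0 : ℝ)..T, f t ≤ (|C| + J + 1) * T ^ θ := by
    intro m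
    induction m with
    | zero =>
      intro T hT hT2
      norm_num at hT2
      have h1 : ∫ t in (0 : ℝ)..T, f t ≤ J :=
        intervalIntegral.integral_mono_interval le_rfl (by linarith) (by linarith)
          (Filter.Eventually.of_forall h0) (hfi _ _)
      have h2 : 1 ≤ T ^ θ := Real.one_le_rpow hT (by linarith)
      have h3 : 0 ≤ |C| := abs_nonneg C
      nlinarith
    | succ m ih =>
      intro T hT hT2
      rcases le_or_gt T (2 ^ (m + 1)) with hc | hc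
      · exact ih T hT hc
      · have h2 : (2 : ℝ) ≤ 2 ^ (m + 1) := by
          calc (2 : ℝ) = 2 ^ 1 := by norm_num
            _ ≤ 2 ^ (m + 1) := pow_le_pow_right₀ (by norm_num) (by omega)
        have h3 : 1 ≤ T / 2 := by linarith
        have h4 : T / 2 ≤ 2 ^ (m + 1) := by
          rw [pow_succ] at hT2
          linarith
        have h5 := ih (T / 2) h3 h4
        have h6 := h (T / 2) h3
        rw [show 2 * (T / 2) = T by ring] at h6
        rw [← intervalIntegral.integral_add_adjacent_intervals (hfi 0 (T / 2)) (hfi (T / 2) T)]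
        have h7 : 2 * (T / 2) ^ θ ≤ T ^ θ := by
          have h8 : T ^ θ = (2 : ℝ) ^ θ * (T / 2) ^ θ := by
            rw [← Real.mul_rpow (by norm_num) (by linarith)]
            congr 1
            ring
          have h9 : (2 : ℝ) ≤ (2 : ℝ) ^ θ := by
            calc (2 : ℝ) = (2 : ℝ) ^ (1 : ℝ) := (Real.rpow_one 2).symm
              _ ≤ _ := Real.rpow_le_rpow_of_exponent_le (by norm_num) hθ
          rw [h8]
          exact mul_le_mul_of_nonneg_right h9 (by positivity)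
        have h10 : C * (T / 2) ^ θ ≤ |C| * (T / 2) ^ θ :=
          mul_le_mul_of_nonneg_right (le_abs_self _) (by positivity)
        have h11 : 0 ≤ (T / 2) ^ θ := by positivity
        have h12 : |C| * (T / 2) ^ θ ≤ (|C| + J + 1) * (T / 2) ^ θ :=
          mul_le_mul_of_nonneg_right (by linarith) h11
        calc (∫ t in (0 : ℝ)..(T / 2), f t) + ∫ t in (T / 2)..T, f t
            ≤ (|C| + J + 1) * (2 * (T / 2) ^ θ) := by linarith
          _ ≤ (|C| + J + 1) * T ^ θ := mul_le_mul_of_nonneg_left h7 (by positivity)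
  intro T hT
  obtain ⟨m, hm⟩ := pow_unbounded_of_one_lt T (show (1 : ℝ) < 2 by norm_num)
  exact key m T hT (hm.le.trans (pow_le_pow_right₀ (by norm_num) (by omega)))

/-- **twelfth moment**: `∫_0^T |ζ(1/2+it)|^12 dt ≤ C T^(2+e)` for every `e > 0` -/
theorem twelfth_moment (e : ℝ) (he : 0 < e) : ∃ C : ℝ, 0 < C ∧ ∀ T : ℝ, 1 ≤ T →
    ∫ t in (0 : ℝ)..T, ‖riemannZeta (1 / 2 + t * I)‖ ^ 12 ≤ C * T ^ (2 + e) := by
  obtain ⟨C, _, h⟩ := twelfth e he
  exact of_dyadic (f := fun t : ℝ => ‖riemannZeta (1 / 2 + t * I)‖ ^ 12)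
    (U6.FM.fm_zeta_cont.norm.pow 12) (fun t => by positivity) (by linarith) h

/-- fourth moment on `[0, T]` -/
theorem fourth_moment_zero (e : ℝ) (he : 0 < e) : ∃ C : ℝ, 0 < C ∧ ∀ T : ℝ, 1 ≤ T →
    ∫ t in (0 : ℝ)..T, ‖riemannZeta (1 / 2 + t * I)‖ ^ 4 ≤ C * T ^ (1 + e) := by
  obtain ⟨C, h⟩ := fourth_moment e he
  exact of_dyadic (f := fun t : ℝ => ‖riemannZeta (1 / 2 + t * I)‖ ^ 4)
    (U6.FM.fm_zeta_cont.norm.pow 4) (fun t => by positivity) (by linarith) h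

end M12
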