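import Pool.Agent.Lib.MP_39df77_nt.M12.Gen
import Pool.Agent.Lib.MP_39df77_nt.M12.Large
import Pool.Agent.Lib.MP_39df77_nt.U6.A03
import Pool.Agent.Lib.MP_39df77_nt.U6.A09
import Pool.Agent.Lib.MP_39df77_nt.U6.A12
import Pool.Agent.Lib.MP_39df77_nt.U6.A13
/-! Local mean squares `B_G`: monotonicity, windows, comparison with the dual sum `Y`. -/
open Complex MeasureTheory Set
namespace M12
open U6

theorem P_mono {G G' : ℝ} (hG : 0 < G) (h : G ≤ G') (u : ℝ) : P G u ≤ G' / G * P G' u := by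
  have hpi := Real.pi_pos
  have hG' : 0 < G' := lt_of_lt_of_le hG h
  unfold P
  rw [div_mul_div_comm, div_le_div_iff₀ (by positivity) (by positivity)]
  have h2 : G ^ 2 ≤ G' ^ 2 := pow_le_pow_left₀ hG.le h 2
  have h3 : G ^ 2 * u ^ 2 ≤ G' ^ 2 * u ^ 2 := mul_le_mul_of_nonneg_right h2 (sq_nonneg u)
  nlinarith

theorem B_mono {N G G' : ℝ} (hN : 0 < N) (hG : 0 < G) (h : G ≤ G') (t : ℝ) :
    B N G t ≤ G' / G * B N G' t := by
  have hG' : 0 < G' := lt_of_lt_of_le hG h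
  unfold B
  rw [← integral_const_mul]
  apply integral_mono (A03_B_int hN hG t) ((A03_B_int hN hG' t).const_mul _)
  intro u
  change ‖D N (t + u)‖ ^ 2 * P G u ≤ G' / G * (‖D N (t + u)‖ ^ 2 * P G' u)
  have := mul_le_mul_of_nonneg_left (P_mono hG h u) (sq_nonneg ‖D N (t + u)‖)
  linarith

theorem P_shift {G s : ℝ} (hG : 0 < G) (h : |s| ≤ G) (u : ℝ) : P G (u + s) ≤ 3 * P G u := by
  have hpi := Real.pi_pos
  unfold P
  rw [mul_div_assoc', div_le_div_iff₀ (by positivity) (by positivity)]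
  have h2 : s ^ 2 ≤ G ^ 2 := by
    rw [← sq_abs]
    exact pow_le_pow_left₀ (abs_nonneg _) h 2
  have h3 : G ^ 2 + u ^ 2 ≤ 3 * (G ^ 2 + (u + s) ^ 2) := by
    nlinarith [sq_nonneg (u + 2 * s), sq_nonneg (u + s)]
  have h4 : 0 < G * Real.pi := by positivity
  nlinarith

theorem B_shift {N G t t' : ℝ} (hN : 0 < N) (hG : 0 < G) (h : |t - t'| ≤ G) :
    B N G t' ≤ 3 * B N G t := by
  have e : B N G t' = ∫ u : ℝ, ‖D N (t + u)‖ ^ 2 * P G (u + (t - t')) := by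
    unfold B
    rw [← integral_add_right_eq_self _ (t - t')]
    refine integral_congr_ae (Filter.Eventually.of_forall fun u => ?_)
    dsimp only
    rw [show t' + (u + (t - t')) = t + u by ring]
  have hi : Integrable (fun u : ℝ => ‖D N (t + u)‖ ^ 2 * P G (u + (t - t'))) := by
    have := (A03_B_int hN hG t').comp_add_right (t - t')
    refine this.congr (Filter.Eventually.of_forall fun u => ?_)
    dsimp only
    rw [show t' + (u + (t - t')) = t + u by ring]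
  rw [e]
  unfold B
  rw [← integral_const_mul]
  apply integral_mono hi ((A03_B_int hN hG t).const_mul _)
  intro u
  change ‖D N (t + u)‖ ^ 2 * P G (u + (t - t')) ≤ 3 * (‖D N (t + u)‖ ^ 2 * P G u)
  have := mul_le_mul_of_nonneg_left (P_shift hG h u) (sq_nonneg ‖D N (t + u)‖)
  linarith

theorem B_nonneg {N G t : ℝ} (hG : 0 < G) : 0 ≤ B N G t := by
  unfold B
  apply integral_nonneg
  intro u
  have : 0 ≤ P G u := by unfold P; have := Real.pi_pos; positivity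
  positivity

theorem B_meas {N : ℝ} (G : ℝ) (hN : 0 < N) : Measurable (fun t => B N G t) := by
  unfold B
  have h : StronglyMeasurable (Function.uncurry fun (t u : ℝ) => ‖D N (t + u)‖ ^ 2 * P G u) := by
    apply Measurable.stronglyMeasurable
    have h1 : Measurable (fun p : ℝ × ℝ => D N (p.1 + p.2)) :=
      ((A03_D_cont hN).comp (continuous_fst.add continuous_snd)).measurable
    have h2 : Measurable (fun p : ℝ × ℝ => P G p.2) := by
      unfold P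
      fun_prop
    exact (h1.norm.pow_const 2).mul h2
  exact h.integral_prod_right.measurable

/-- windows -/
theorem window {f g : ℝ → ℝ} {T G : ℝ} (hT : 0 < T) (hG : 0 < G) (hGT : G ≤ T)
    (hf : ∀ a b : ℝ, IntervalIntegrable f volume a b) (hg : ∀ a b : ℝ, IntervalIntegrable g volume a b)
    (hf0 : ∀ t, 0 ≤ f t) (hg0 : ∀ t, 0 ≤ g t)
    (h : ∀ a : ℝ, T ≤ a → a ≤ 2 * T → ∫ t in a..(a + G), f t ≤ ∫ t in a..(a + G), g t) :
    ∫ t in T..(2 * T), f t ≤ ∫ t in T..(3 * T), g t := by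
  set n : ℕ := ⌈T / G⌉₊ with hn
  have h1 : T / G ≤ n := Nat.le_ceil _
  have h2 : (n : ℝ) < T / G + 1 := Nat.ceil_lt_add_one (by positivity)
  have h3 : T ≤ n * G := by rwa [div_le_iff₀ hG] at h1
  have h4 : n * G ≤ T + G := by
    have : (n : ℝ) * G ≤ (T / G + 1) * G := mul_le_mul_of_nonneg_right h2.le hG.le
    have e : (T / G + 1) * G = T + G := by field_simp
    linarith
  have s1 : ∫ t in T..(2 * T), f t ≤ ∫ t in T..(T + n * G), f t :=
    intervalIntegral.integral_mono_interval (le_refl _) (by linarith) (by linarith)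
      (Filter.Eventually.of_forall hf0) (hf _ _)
  have s2 : ∫ t in T..(T + n * G), g t ≤ ∫ t in T..(3 * T), g t :=
    intervalIntegral.integral_mono_interval (le_refl _) (by nlinarith) (by linarith)
      (Filter.Eventually.of_forall hg0) (hg _ _)
  have e1 : ∀ F : ℝ → ℝ, (∀ a b : ℝ, IntervalIntegrable F volume a b) →
      ∑ m ∈ Finset.range n, ∫ t in (T + (m : ℕ) * G)..(T + ((m + 1 : ℕ) : ℝ) * G), F t =
        ∫ t in T..(T + n * G), F t := by
    intro F hF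
    have := intervalIntegral.sum_integral_adjacent_intervals (f := F) (μ := volume)
      (a := fun m : ℕ => T + (m : ℝ) * G) (n := n) (fun m _ => hF _ _)
    rw [this]
    simp
  refine s1.trans (le_trans ?_ s2)
  rw [← e1 f hf, ← e1 g hg]
  refine Finset.sum_le_sum fun m hm => ?_
  rw [Finset.mem_range] at hm
  have e2 : T + ((m + 1 : ℕ) : ℝ) * G = T + m * G + G := by push_cast; ring
  rw [e2]
  apply h
  · have : 0 ≤ (m : ℝ) * G := by positivity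
    linarith
  · have h5 : (m : ℝ) + 1 ≤ n := by exact_mod_cast hm
    have h6 : ((m : ℝ) + 1) * G ≤ n * G := mul_le_mul_of_nonneg_right h5 hG.le
    linarith

theorem J0_le (G t : ℝ) (k : ℕ) (hG : 0 ≤ G) (ht : 0 < t) :
    ‖J0 G t k‖ ≤ 2 * ((k : ℝ) * t) ^ (-(1 / 4) : ℝ) := by
  have hpi := Real.pi_pos
  unfold J0
  rw [norm_mul, mul_comm I, Complex.norm_exp_ofReal_mul_I, mul_one, Complex.norm_real,
    Real.norm_eq_abs, abs_of_nonneg (by positivity)]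
  have h1 : (Real.pi / 2) ^ (1 / 4 : ℝ) ≤ 2 := by
    calc (Real.pi / 2) ^ (1 / 4 : ℝ) ≤ (2 : ℝ) ^ (1 / 4 : ℝ) :=
          Real.rpow_le_rpow (by positivity) (by linarith [Real.pi_lt_four]) (by norm_num)
      _ ≤ (2 : ℝ) ^ (1 : ℝ) := Real.rpow_le_rpow_of_exponent_le (by norm_num) (by norm_num)
      _ = 2 := Real.rpow_one 2
  have h2 : Real.exp (-(G * Real.sqrt (2 * Real.pi * k / t))) ≤ 1 := by
    apply Real.exp_le_one_iff.2
    have : 0 ≤ G * Real.sqrt (2 * Real.pi * k / t) := by positivity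
    linarith
  calc (Real.pi / 2) ^ (1 / 4 : ℝ) * ((k : ℝ) * t) ^ (-(1 / 4) : ℝ) *
        Real.exp (-(G * Real.sqrt (2 * Real.pi * k / t)))
      ≤ 2 * ((k : ℝ) * t) ^ (-(1 / 4) : ℝ) * 1 :=
        mul_le_mul (mul_le_mul_of_nonneg_right h1 (by positivity)) h2 (Real.exp_pos _).le (by positivity)
    _ = _ := by ring

theorem Y_triv {δ : ℝ} (hδ : 0 < δ) : ∃ C : ℝ, 0 < C ∧ ∀ (G t T : ℝ) (K : ℕ), 0 ≤ G → 0 < T → T ≤ t →
    1 ≤ K → ‖Y G t K‖ ≤ C * ((K : ℝ) ^ (3 / 4 + δ) * T ^ (-(1 / 4) : ℝ)) := by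
  obtain ⟨C, hC, hd⟩ := dv_le δ hδ
  refine ⟨4 * C, by positivity, fun G t T K hG hT ht hK => ?_⟩
  have ht0 : 0 < t := by linarith
  have hK0 : (0 : ℝ) < K := by exact_mod_cast hK
  unfold Y
  have h1 : ∀ k ∈ Finset.Ico 1 K, ‖((-1) ^ k * (dv k : ℂ)) * J0 G t k‖ ≤
      C * (K : ℝ) ^ δ * (2 * T ^ (-(1 / 4) : ℝ)) * ((K : ℝ) ^ (1 / 4 : ℝ) * (k : ℝ) ^ (-(1 / 2) : ℝ)) := by
    intro k hk
    rw [Finset.mem_Ico] at hk
    have hk0 : (0 : ℝ) < k := by exact_mod_cast hk.1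
    have hkK : (k : ℝ) ≤ K := by exact_mod_cast hk.2.le
    rw [norm_mul, norm_mul, norm_pow, norm_neg, norm_one, one_pow, one_mul, Complex.norm_natCast]
    have e1 : (dv k : ℝ) ≤ C * (K : ℝ) ^ δ :=
      (hd k hk.1).trans (mul_le_mul_of_nonneg_left (Real.rpow_le_rpow hk0.le hkK hδ.le) hC.le)
    have e2 : ‖J0 G t k‖ ≤ (2 * T ^ (-(1 / 4) : ℝ)) * ((K : ℝ) ^ (1 / 4 : ℝ) * (k : ℝ) ^ (-(1 / 2) : ℝ)) := by
      refine (J0_le G t k hG ht0).trans ?_
      rw [Real.mul_rpow hk0.le ht0.le]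
      have e3 : t ^ (-(1 / 4) : ℝ) ≤ T ^ (-(1 / 4) : ℝ) :=
        Real.rpow_le_rpow_of_nonpos hT ht (by norm_num)
      have e4 : (k : ℝ) ^ (-(1 / 4) : ℝ) ≤ (K : ℝ) ^ (1 / 4 : ℝ) * (k : ℝ) ^ (-(1 / 2) : ℝ) := by
        calc (k : ℝ) ^ (-(1 / 4) : ℝ) = (k : ℝ) ^ (1 / 4 : ℝ) * (k : ℝ) ^ (-(1 / 2) : ℝ) := by
              rw [← Real.rpow_add hk0]; norm_num
          _ ≤ _ := mul_le_mul_of_nonneg_right (Real.rpow_le_rpow hk0.le hkK (by norm_num)) (by positivity)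
      calc 2 * ((k : ℝ) ^ (-(1 / 4) : ℝ) * t ^ (-(1 / 4) : ℝ))
          ≤ 2 * (((K : ℝ) ^ (1 / 4 : ℝ) * (k : ℝ) ^ (-(1 / 2) : ℝ)) * T ^ (-(1 / 4) : ℝ)) := by
            apply mul_le_mul_of_nonneg_left _ (by norm_num)
            exact mul_le_mul e4 e3 (by positivity) (by positivity)
        _ = _ := by ring
    calc (dv k : ℝ) * ‖J0 G t k‖ ≤ (C * (K : ℝ) ^ δ) * ((2 * T ^ (-(1 / 4) : ℝ)) *
          ((K : ℝ) ^ (1 / 4 : ℝ) * (k : ℝ) ^ (-(1 / 2) : ℝ))) :=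
          mul_le_mul e1 e2 (norm_nonneg _) (by positivity)
      _ = _ := by ring
  refine (norm_sum_le_of_le _ h1).trans ?_
  rw [← Finset.mul_sum, ← Finset.mul_sum]
  have h2 := U6.sum_inv_sqrt (K - 1)
  rw [Nat.sub_add_cancel hK] at h2
  have h3 : Real.sqrt ((K - 1 : ℕ) : ℝ) ≤ (K : ℝ) ^ (1 / 2 : ℝ) := by
    rw [← Real.sqrt_eq_rpow]
    apply Real.sqrt_le_sqrt
    exact_mod_cast Nat.sub_le K 1
  calc C * (K : ℝ) ^ δ * (2 * T ^ (-(1 / 4) : ℝ)) * ((K : ℝ) ^ (1 / 4 : ℝ) *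
        ∑ k ∈ Finset.Ico 1 K, (k : ℝ) ^ (-(1 / 2) : ℝ))
      ≤ C * (K : ℝ) ^ δ * (2 * T ^ (-(1 / 4) : ℝ)) * ((K : ℝ) ^ (1 / 4 : ℝ) * (2 * (K : ℝ) ^ (1 / 2 : ℝ))) := by
        apply mul_le_mul_of_nonneg_left _ (by positivity)
        apply mul_le_mul_of_nonneg_left _ (by positivity)
        linarith
    _ = 4 * C * (((K : ℝ) ^ (1 / 4 : ℝ) * (K : ℝ) ^ (1 / 2 : ℝ) * (K : ℝ) ^ δ) * T ^ (-(1 / 4) : ℝ)) := by ring
    _ = _ := by
        rw [← Real.rpow_add hK0, ← Real.rpow_add hK0]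
        norm_num

/-- comparison of `B_G` with the dual sum -/
theorem B_Y {ε : ℝ} (hε : 0 < ε) (hε1 : ε ≤ 1 / 400) :
    ∃ T₀ : ℝ, 1 ≤ T₀ ∧ ∀ T t G : ℝ, T₀ ≤ T → T ≤ t → t ≤ 4 * T → T ^ (1 / 4 : ℝ) ≤ G →
      G ≤ T ^ (2 / 5 : ℝ) →
      (T ^ ε / 3 ≤ B (NN T) G t → 1 ≤ ‖Y G t (KG G ε T)‖) ∧
      (‖Y G t (KG G ε T)‖ ≤ 1 → B (NN T) G t < T ^ ε) := by
  obtain ⟨T1, h1⟩ := Z_Y_gen hε hε1
  obtain ⟨C2, hC2, h2⟩ := mN_le
  obtain ⟨C3, hC3, h3⟩ := M0_le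
  have ev1 : ∀ᶠ T : ℝ in Filter.atTop, (12 + 6 * C3) ≤ T ^ ε / 2 :=
    (((tendsto_rpow_atTop hε).atTop_div_const (by norm_num : (0:ℝ) < 2))).eventually_ge_atTop _
  have ev2 : ∀ᶠ T : ℝ in Filter.atTop, 9 * (C2 + C3) * Real.log T ≤ T ^ ε / 2 := by
    have := (isLittleO_log_rpow_atTop hε).bound (c := 1 / (18 * (C2 + C3))) (by positivity)
    filter_upwards [this, Filter.eventually_ge_atTop 1] with T hT h1
    rw [Real.norm_eq_abs, Real.norm_eq_abs, abs_of_nonneg (Real.rpow_nonneg (by linarith) _)] at hT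
    have h5 := (le_abs_self _).trans hT
    calc 9 * (C2 + C3) * Real.log T ≤ 9 * (C2 + C3) * (1 / (18 * (C2 + C3)) * T ^ ε) :=
          mul_le_mul_of_nonneg_left h5 (by positivity)
      _ = T ^ ε / 2 := by field_simp; norm_num
  obtain ⟨T₀, hT₀⟩ := Filter.eventually_atTop.1 ((ev1.and ev2).and
    ((Filter.eventually_ge_atTop (2:ℝ)).and (Filter.eventually_ge_atTop T1)))
  refine ⟨max T₀ 1, le_max_right _ _, fun T t G hT ht1 ht2 hG1 hG2 => ?_⟩
  obtain ⟨⟨c1, c2⟩, hT2, hTT1⟩ := hT₀ T ((le_max_left _ _).trans hT)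
  have hT0 : 0 < T := by linarith
  have hT1 : 1 ≤ T := by linarith
  have ht0 : 0 < t := by linarith
  have hG0 : 1 ≤ G := (Real.one_le_rpow hT1 (by norm_num)).trans hG1
  have hN2 : 2 ≤ NN T := by
    unfold NN
    calc (2 : ℝ) ≤ T := hT2
      _ = T ^ (1 : ℝ) := (Real.rpow_one T).symm
      _ ≤ T ^ (3 / 2 : ℝ) := Real.rpow_le_rpow_of_exponent_le hT1 (by norm_num)
  have hlog : Real.log (NN T) = 3 / 2 * Real.log T := by
    unfold NN
    rw [Real.log_rpow hT0]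
  have hZ := h1 T t G hTT1 ht1 ht2 hG1 hG2
  have hm := h2 (NN T) hN2
  have hm0 : 0 ≤ mN (NN T) := by
    unfold mN
    exact tsum_nonneg fun n => by positivity
  have hM := h3 (NN T) G t hN2 hG0 (by linarith)
  have hNG : NN T * G / t ^ 2 ≤ 1 := by
    rw [div_le_one (by positivity)]
    calc NN T * G ≤ T ^ (3 / 2 : ℝ) * T ^ (2 / 5 : ℝ) := by
          unfold NN
          exact mul_le_mul_of_nonneg_left hG2 (by positivity)
      _ = T ^ (19 / 10 : ℝ) := by rw [← Real.rpow_add hT0]; norm_num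
      _ ≤ T ^ (2 : ℝ) := Real.rpow_le_rpow_of_exponent_le hT1 (by norm_num)
      _ = T ^ 2 := Real.rpow_two T
      _ ≤ t ^ 2 := pow_le_pow_left₀ hT0.le ht1 2
  rw [hlog] at hm hM
  have hM' : |M0 (NN T) G t| ≤ 3 / 2 * C3 * Real.log T + C3 := by
    refine hM.trans ?_
    have := mul_le_mul_of_nonneg_left hNG hC3.le
    linarith
  have hlogn : 0 ≤ Real.log T := Real.log_nonneg hT1
  have hBZ : B (NN T) G t = Z (NN T) G t + mN (NN T) + M0 (NN T) G t := by unfold Z; ring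
  have hTe0 : 0 < T ^ ε := by positivity
  have hre := Complex.abs_re_le_norm (Y G t (KG G ε T))
  have hZ1 := abs_le.1 hZ
  have hM1 := abs_le.1 hM'
  have hre1 := abs_le.1 hre
  have hp : 0 ≤ C2 * Real.log T := by positivity
  constructor
  · intro hB
    rw [hBZ] at hB
    have : 0 ≤ C3 * Real.log T := by positivity
    nlinarith
  · intro hY
    rw [hBZ]
    have : 0 ≤ C3 * Real.log T := by positivity
    nlinarith

end M12
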